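import Pool.Agent.F368.OSSS

/-!
Expectations for inhomogeneous product measures, comparison of influences.
-/

open Finset

namespace Pool.Agent.PBP

open F368

section

variable {ι : Type*} [DecidableEq ι]

/-- expectation when the site `i` is open with probability `w i`, independently -/
noncomputable def ExW (F : Finset ι) (w : ι → ℝ) (f : Finset ι → ℝ) : ℝ :=
  ∑ s ∈ F.powerset, (∏ i ∈ s, w i) * (∏ i ∈ F \ s, (1 - w i)) * f s

theorem ExW_const_eq (F : Finset ι) (p : ℝ) (f : Finset ι → ℝ) :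
    ExW F (fun _ => p) f = Ex F p f := by
  unfold ExW Ex
  refine Finset.sum_congr rfl fun s _ => ?_
  rw [Finset.prod_const, Finset.prod_const]

theorem ExW_congr {F : Finset ι} {w w' : ι → ℝ} {f g : Finset ι → ℝ} (hw : ∀ i ∈ F, w i = w' i)
    (h : ∀ s ⊆ F, f s = g s) : ExW F w f = ExW F w' g := by
  unfold ExW
  refine Finset.sum_congr rfl fun s hs => ?_
  have hs' := Finset.mem_powerset.1 hs
  have e1 : ∏ i ∈ s, w i = ∏ i ∈ s, w' i := Finset.prod_congr rfl (fun i hi => hw i (hs' hi))
  have e2 : ∏ i ∈ F \ s, (1 - w i) = ∏ i ∈ F \ s, (1 - w' i) :=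
    Finset.prod_congr rfl (fun i hi => by rw [hw i (Finset.mem_sdiff.1 hi).1])
  rw [h s hs', e1, e2]

theorem ExW_empty (w : ι → ℝ) (f : Finset ι → ℝ) : ExW ∅ w f = f ∅ := by
  simp [ExW]

theorem ExW_insert {F : Finset ι} {i : ι} (hi : i ∉ F) (w : ι → ℝ) (f : Finset ι → ℝ) :
    ExW (insert i F) w f = (1 - w i) * ExW F w f + w i * ExW F w (fun s => f (insert i s)) := by
  unfold ExW
  rw [Finset.sum_powerset_insert hi, Finset.mul_sum, Finset.mul_sum]
  congr 1
  · refine Finset.sum_congr rfl fun s hs => ?_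
    have hs' := Finset.mem_powerset.1 hs
    have h1 : i ∉ s := fun h => hi (hs' h)
    have h3 : i ∉ F \ s := fun h => hi (Finset.mem_sdiff.1 h).1
    rw [Finset.insert_sdiff_of_notMem _ h1, Finset.prod_insert h3]; ring
  · refine Finset.sum_congr rfl fun s hs => ?_
    have hs' := Finset.mem_powerset.1 hs
    have h1 : i ∉ s := fun h => hi (hs' h)
    have h2 : insert i F \ insert i s = F \ s := by
      ext x
      simp only [Finset.mem_sdiff, Finset.mem_insert]
      constructor
      · rintro ⟨h3 | h3, h4⟩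
        · exact absurd (Or.inl h3) h4
        · exact ⟨h3, fun h => h4 (Or.inr h)⟩
      · rintro ⟨h3, h4⟩
        refine ⟨Or.inr h3, ?_⟩
        rintro (h5 | h5)
        · exact hi (h5 ▸ h3)
        · exact h4 h5
    rw [h2, Finset.prod_insert h1]; ring

theorem ExW_add (F : Finset ι) (w : ι → ℝ) (f g : Finset ι → ℝ) :
    ExW F w (fun s => f s + g s) = ExW F w f + ExW F w g := by
  unfold ExW
  rw [← Finset.sum_add_distrib]
  exact Finset.sum_congr rfl fun s _ => by ring

theorem ExW_sub (F : Finset ι) (w : ι → ℝ) (f g : Finset ι → ℝ) :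
    ExW F w (fun s => f s - g s) = ExW F w f - ExW F w g := by
  unfold ExW
  rw [← Finset.sum_sub_distrib]
  exact Finset.sum_congr rfl fun s _ => by ring

theorem ExW_smul (F : Finset ι) (w : ι → ℝ) (c : ℝ) (f : Finset ι → ℝ) :
    ExW F w (fun s => c * f s) = c * ExW F w f := by
  unfold ExW
  rw [Finset.mul_sum]
  exact Finset.sum_congr rfl fun s _ => by ring

theorem ExW_const (F : Finset ι) (w : ι → ℝ) (c : ℝ) : ExW F w (fun _ => c) = c := by
  induction F using Finset.induction_on with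
  | empty => exact ExW_empty _ _
  | insert i F hi ih => rw [ExW_insert hi, ih]; ring

theorem ExW_sum {κ : Type*} (F : Finset ι) (w : ι → ℝ) (A : Finset κ) (f : κ → Finset ι → ℝ) :
    ExW F w (fun s => ∑ k ∈ A, f k s) = ∑ k ∈ A, ExW F w (f k) := by
  unfold ExW
  rw [Finset.sum_comm]
  exact Finset.sum_congr rfl fun s _ => by rw [Finset.mul_sum]

theorem ExW_nonneg {F : Finset ι} {w : ι → ℝ} (h0 : ∀ i ∈ F, 0 ≤ w i) (h1 : ∀ i ∈ F, w i ≤ 1)
    {f : Finset ι → ℝ} (hf : ∀ s ⊆ F, 0 ≤ f s) : 0 ≤ ExW F w f := by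
  unfold ExW
  refine Finset.sum_nonneg fun s hs => ?_
  have hs' := Finset.mem_powerset.1 hs
  refine mul_nonneg (mul_nonneg (Finset.prod_nonneg fun i hi => h0 i (hs' hi))
    (Finset.prod_nonneg fun i hi => ?_)) (hf s hs')
  have := h1 i (Finset.mem_sdiff.1 hi).1
  linarith

theorem ExW_mono {F : Finset ι} {w : ι → ℝ} (h0 : ∀ i ∈ F, 0 ≤ w i) (h1 : ∀ i ∈ F, w i ≤ 1)
    {f g : Finset ι → ℝ} (hf : ∀ s ⊆ F, f s ≤ g s) : ExW F w f ≤ ExW F w g := by
  have : 0 ≤ ExW F w (fun s => g s - f s) :=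
    ExW_nonneg h0 h1 fun s hs => sub_nonneg.2 (hf s hs)
  rw [ExW_sub] at this
  linarith

/-- decomposition over two disjoint sets of sites -/
theorem ExW_union {A B : Finset ι} (hAB : Disjoint A B) (w : ι → ℝ) (f : Finset ι → ℝ) :
    ExW (A ∪ B) w f = ExW A w (fun S => ExW B w (fun T => f (S ∪ T))) := by
  induction A using Finset.induction_on generalizing f with
  | empty =>
    rw [Finset.empty_union, ExW_empty]
    exact ExW_congr (fun _ _ => rfl) fun s _ => by rw [Finset.empty_union]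
  | insert i A hi ih =>
    have hiB : i ∉ B := fun h => (Finset.disjoint_left.1 hAB (Finset.mem_insert_self i A)) h
    have hd : Disjoint A B := hAB.mono_left (Finset.subset_insert i A)
    rw [Finset.insert_union, ExW_insert (by simp [hi, hiB]), ExW_insert hi, ih hd f,
      ih hd (fun s => f (insert i s))]
    simp only [Finset.insert_union]

/-- monotonicity in the densities for increasing functions -/
theorem ExW_mono_w {F : Finset ι} {w w' : ι → ℝ} (h0 : ∀ i ∈ F, 0 ≤ w i)
    (hww : ∀ i ∈ F, w i ≤ w' i) (h1 : ∀ i ∈ F, w' i ≤ 1)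
    {f : Finset ι → ℝ} (hf : ∀ s t, s ⊆ t → f s ≤ f t) : ExW F w f ≤ ExW F w' f := by
  induction F using Finset.induction_on generalizing f with
  | empty => rw [ExW_empty, ExW_empty]
  | insert i F hi ih =>
    rw [ExW_insert hi, ExW_insert hi]
    have hF : ∀ j ∈ F, j ∈ insert i F := fun j hj => Finset.mem_insert_of_mem hj
    have a1 : ExW F w f ≤ ExW F w' f :=
      ih (fun j hj => h0 j (hF j hj)) (fun j hj => hww j (hF j hj)) (fun j hj => h1 j (hF j hj)) hf
    have a2 : ExW F w (fun s => f (insert i s)) ≤ ExW F w' (fun s => f (insert i s)) :=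
      ih (fun j hj => h0 j (hF j hj)) (fun j hj => hww j (hF j hj)) (fun j hj => h1 j (hF j hj))
        fun s t hst => hf _ _ (Finset.insert_subset_insert _ hst)
    have a3 : ExW F w f ≤ ExW F w (fun s => f (insert i s)) :=
      ExW_mono (fun j hj => h0 j (hF j hj)) (fun j hj => (hww j (hF j hj)).trans (h1 j (hF j hj)))
        fun s _ => hf _ _ (Finset.subset_insert _ _)
    have hi' := Finset.mem_insert_self i F
    have b0 := h0 i hi'
    have b1 := h1 i hi'
    have b2 := hww i hi'
    have c1 : 0 ≤ 1 - w' i := by linarith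
    have c2 : 0 ≤ w' i := b0.trans b2
    nlinarith [mul_le_mul_of_nonneg_left a1 c1, mul_le_mul_of_nonneg_left a2 c2,
      mul_le_mul_of_nonneg_left a3 (sub_nonneg.2 b2)]

/-- Russo's formula along a curve of densities -/
theorem hasDerivAt_ExW (F : Finset ι) (w : ℝ → ι → ℝ) (w' : ι → ℝ) (t : ℝ)
    (hw : ∀ i ∈ F, HasDerivAt (fun t => w t i) (w' i) t) (f : Finset ι → ℝ) :
    HasDerivAt (fun t => ExW F (w t) f)
      (∑ i ∈ F, w' i * ExW F (w t) (fun s => f (insert i s) - f (s.erase i))) t := by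
  induction F using Finset.induction_on generalizing f with
  | empty =>
    simp only [ExW_empty, Finset.sum_empty]
    exact hasDerivAt_const _ _
  | insert i F hi ih =>
    have e : (fun t => ExW (insert i F) (w t) f) =
        fun t => (1 - w t i) * ExW F (w t) f + w t i * ExW F (w t) (fun s => f (insert i s)) := by
      funext t; exact ExW_insert hi (w t) f
    rw [e]
    have hF : ∀ j ∈ F, HasDerivAt (fun t => w t j) (w' j) t :=
      fun j hj => hw j (Finset.mem_insert_of_mem hj)
    have hwi := hw i (Finset.mem_insert_self i F)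
    have h1 := (hwi.const_sub 1).mul (ih hF f)
    have h2 := hwi.mul (ih hF (fun s => f (insert i s)))
    have h3 := h1.add h2
    refine h3.congr_deriv ?_
    rw [Finset.sum_insert hi]
    have b1 : ExW (insert i F) (w t) (fun s => f (insert i s) - f (s.erase i)) =
        ExW F (w t) (fun s => f (insert i s)) - ExW F (w t) f := by
      rw [ExW_insert hi, ← ExW_sub]
      have c1 : ExW F (w t) (fun s => f (insert i s) - f (s.erase i)) =
          ExW F (w t) (fun s => f (insert i s) - f s) := by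
        refine ExW_congr (fun _ _ => rfl) fun s hs => ?_
        rw [Finset.erase_eq_of_notMem (fun h => hi (hs h))]
      have c2 : ExW F (w t) (fun s => f (insert i (insert i s)) - f ((insert i s).erase i)) =
          ExW F (w t) (fun s => f (insert i s) - f s) := by
        refine ExW_congr (fun _ _ => rfl) fun s hs => ?_
        rw [Finset.insert_idem, Finset.erase_insert (fun h => hi (hs h))]
      rw [c1, c2]; ring
    have b2 : ∀ j ∈ F, w' j * ExW (insert i F) (w t) (fun s => f (insert j s) - f (s.erase j)) =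
        (1 - w t i) * (w' j * ExW F (w t) (fun s => f (insert j s) - f (s.erase j))) +
        w t i * (w' j * ExW F (w t)
          (fun s => f (insert i (insert j s)) - f (insert i (s.erase j)))) := by
      intro j hj
      rw [ExW_insert hi]
      have c3 : ExW F (w t) (fun s => f (insert j (insert i s)) - f ((insert i s).erase j)) =
          ExW F (w t) (fun s => f (insert i (insert j s)) - f (insert i (s.erase j))) := by
        refine ExW_congr (fun _ _ => rfl) fun s hs => ?_
        have hij : i ≠ j := fun h => hi (h ▸ hj)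
        rw [Finset.insert_comm i j s, Finset.erase_insert_of_ne hij]
      rw [c3]; ring
    rw [b1, Finset.sum_congr rfl b2, Finset.sum_add_distrib, ← Finset.mul_sum, ← Finset.mul_sum]
    ring

/-- weight of one configuration -/
theorem ExW_ge_single {F : Finset ι} {w : ι → ℝ} {ε : ℝ} (hε : 0 ≤ ε)
    (h0 : ∀ i ∈ F, ε ≤ w i) (h1 : ∀ i ∈ F, w i ≤ 1 - ε)
    {f : Finset ι → ℝ} (hf : ∀ s ⊆ F, 0 ≤ f s) {s : Finset ι} (hs : s ⊆ F) :
    ε ^ F.card * f s ≤ ExW F w f := by
  unfold ExW
  have hnn : ∀ s ∈ F.powerset, 0 ≤ (∏ i ∈ s, w i) * (∏ i ∈ F \ s, (1 - w i)) * f s := by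
    intro s hs
    have hs' := Finset.mem_powerset.1 hs
    refine mul_nonneg (mul_nonneg (Finset.prod_nonneg fun i hi => hε.trans (h0 i (hs' hi)))
      (Finset.prod_nonneg fun i hi => ?_)) (hf s hs')
    have := h1 i (Finset.mem_sdiff.1 hi).1
    linarith
  refine le_trans ?_ (Finset.single_le_sum hnn (Finset.mem_powerset.2 hs))
  refine mul_le_mul_of_nonneg_right ?_ (hf s hs)
  have e1 : ε ^ s.card ≤ ∏ i ∈ s, w i := by
    rw [← Finset.prod_const]
    exact Finset.prod_le_prod (fun _ _ => hε) fun i hi => h0 i (hs hi)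
  have e2 : ε ^ (F \ s).card ≤ ∏ i ∈ F \ s, (1 - w i) := by
    rw [← Finset.prod_const]
    exact Finset.prod_le_prod (fun _ _ => hε) fun i hi => by
      have := h1 i (Finset.mem_sdiff.1 hi).1
      linarith
  have e3 : F.card = s.card + (F \ s).card := by
    rw [Finset.card_sdiff_of_subset hs]
    have := Finset.card_le_card hs
    omega
  rw [e3, pow_add]
  exact mul_le_mul e1 e2 (pow_nonneg hε _) ((pow_nonneg hε _).trans e1)

/-- comparison of influences by local modifications -/
theorem infl_compare {F L Y : Finset ι} {w : ι → ℝ} {ε : ℝ} (hε : 0 ≤ ε) (hL : L ⊆ F)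
    (h0 : ∀ i ∈ F, ε ≤ w i) (h1 : ∀ i ∈ F, w i ≤ 1 - ε)
    {g : Finset ι → ℝ} {G : ι → Finset ι → ℝ} (hg : ∀ s ⊆ F, g s ≤ 1)
    (hG0 : ∀ y ∈ Y, ∀ s ⊆ F, 0 ≤ G y s)
    (H : ∀ U ⊆ F \ L, ∀ V ⊆ L, 0 < g (U ∪ V) → ∃ y ∈ Y, ∃ V' ⊆ L, G y (U ∪ V') = 1) :
    ε ^ L.card * ExW F w g ≤ ∑ y ∈ Y, ExW F w (G y) := by
  have hd : Disjoint (F \ L) L := Finset.sdiff_disjoint
  have eF : F = (F \ L) ∪ L := (Finset.sdiff_union_of_subset hL).symm
  have w0 : ∀ i ∈ F, 0 ≤ w i := fun i hi => hε.trans (h0 i hi)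
  have w1 : ∀ i ∈ F, w i ≤ 1 := fun i hi => (h1 i hi).trans (by linarith)
  have hsub : ∀ i ∈ F \ L, i ∈ F := fun i hi => (Finset.mem_sdiff.1 hi).1
  have hLs : ∀ i ∈ L, i ∈ F := fun i hi => hL hi
  have key : ∀ U ⊆ F \ L, ε ^ L.card * ExW L w (fun V => g (U ∪ V)) ≤
      ∑ y ∈ Y, ExW L w (fun V => G y (U ∪ V)) := by
    intro U hU
    have hUV : ∀ V ⊆ L, U ∪ V ⊆ F := fun V hV =>
      Finset.union_subset (hU.trans Finset.sdiff_subset) (hV.trans hL)
    by_cases hex : ∃ V ⊆ L, 0 < g (U ∪ V)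
    · obtain ⟨V, hV, hpos⟩ := hex
      obtain ⟨y, hy, V', hV', hG⟩ := H U hU V hV hpos
      have k1 : ExW L w (fun V => g (U ∪ V)) ≤ 1 := by
        rw [← ExW_const L w 1]
        exact ExW_mono (fun i hi => w0 i (hLs i hi)) (fun i hi => w1 i (hLs i hi))
          fun V hV => hg _ (hUV V hV)
      have k2 : ε ^ L.card * G y (U ∪ V') ≤ ExW L w (fun V => G y (U ∪ V)) :=
        ExW_ge_single hε (fun i hi => h0 i (hLs i hi)) (fun i hi => h1 i (hLs i hi))
          (f := fun V => G y (U ∪ V)) (fun V hV => hG0 y hy _ (hUV V hV)) hV'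
      rw [hG, mul_one] at k2
      have k3 : ExW L w (fun V => G y (U ∪ V)) ≤ ∑ y ∈ Y, ExW L w (fun V => G y (U ∪ V)) :=
        Finset.single_le_sum (f := fun y => ExW L w (fun V => G y (U ∪ V)))
          (fun y hy => ExW_nonneg (fun i hi => w0 i (hLs i hi))
          (fun i hi => w1 i (hLs i hi)) fun V hV => hG0 y hy _ (hUV V hV)) hy
      have k4 : ε ^ L.card * ExW L w (fun V => g (U ∪ V)) ≤ ε ^ L.card * 1 :=
        mul_le_mul_of_nonneg_left k1 (pow_nonneg hε _)
      linarith
    · push Not at hex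
      have k1 : ExW L w (fun V => g (U ∪ V)) ≤ 0 := by
        rw [← ExW_const L w 0]
        exact ExW_mono (fun i hi => w0 i (hLs i hi)) (fun i hi => w1 i (hLs i hi))
          fun V hV => hex V hV
      have k2 : 0 ≤ ∑ y ∈ Y, ExW L w (fun V => G y (U ∪ V)) :=
        Finset.sum_nonneg fun y hy => ExW_nonneg (fun i hi => w0 i (hLs i hi))
          (fun i hi => w1 i (hLs i hi)) fun V hV => hG0 y hy _ (hUV V hV)
      nlinarith [pow_nonneg hε L.card, mul_nonneg (pow_nonneg hε L.card) (neg_nonneg.2 k1)]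
  have e1 : ExW F w g = ExW (F \ L) w (fun U => ExW L w (fun V => g (U ∪ V))) := by
    conv_lhs => rw [eF]
    exact ExW_union hd w g
  have e2 : ∀ y, ExW F w (G y) = ExW (F \ L) w (fun U => ExW L w (fun V => G y (U ∪ V))) := by
    intro y
    conv_lhs => rw [eF]
    exact ExW_union hd w (G y)
  rw [e1, Finset.sum_congr rfl (fun y _ => e2 y), ← ExW_sum, ← ExW_smul]
  exact ExW_mono (fun i hi => w0 i (hsub i hi)) (fun i hi => w1 i (hsub i hi)) key

/-- setting the density to zero on a set of sites -/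
theorem Ex_sdiff_eq (F P : Finset ι) (b : ℝ) (f : Finset ι → ℝ) (w : ι → ℝ)
    (hw : ∀ i ∈ F, w i = if i ∈ P then 0 else b) :
    Ex F b (fun T => f (T \ P)) = ExW F w f := by
  induction F using Finset.induction_on generalizing f with
  | empty => rw [Ex_empty, ExW_empty, Finset.empty_sdiff]
  | insert i F hi ih =>
    have hF : ∀ j ∈ F, w j = if j ∈ P then 0 else b :=
      fun j hj => hw j (Finset.mem_insert_of_mem hj)
    rw [Ex_insert hi, ExW_insert hi, hw i (Finset.mem_insert_self i F), ih f hF]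
    by_cases hP : i ∈ P
    · rw [if_pos hP]
      have e : Ex F b (fun s => f (insert i s \ P)) = Ex F b (fun s => f (s \ P)) :=
        Ex_congr fun s _ => by rw [Finset.insert_sdiff_of_mem _ hP]
      rw [e, ih f hF]; ring
    · rw [if_neg hP]
      have e : Ex F b (fun s => f (insert i s \ P)) = Ex F b (fun s => f (insert i (s \ P))) :=
        Ex_congr fun s _ => by rw [Finset.insert_sdiff_of_notMem _ hP]
      rw [e, ih (fun s => f (insert i s)) hF]

end

end Pool.Agent.PBP
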