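import Pool.Agent.PBP.Slab

/-!
Local surgery: from a pivotal site to a pivotal site in the planes.
-/

open Finset

namespace Pool.Agent.PBP

/-- open sites for the escape event: the origin and all sites outside `F` are open -/
def Gs {d : ℕ} (F T : Finset (Site d)) : Set (Site d) := {v | v = 0 ∨ v ∈ T ∨ v ∉ F}

/-- connection by sites of `Gs F T` -/
def Rch {d : ℕ} (F T : Finset (Site d)) (u v : Site d) : Prop :=
  Relation.ReflTransGen (fun a b => Nb a b ∧ b ∈ Gs F T) u v

/-- the origin is connected to the outside of `F` -/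
def Esc {d : ℕ} (F T : Finset (Site d)) : Prop := ∃ z, z ∉ F ∧ Rch F T 0 z

section

variable {d : ℕ}

theorem Gs_mono {F T T' : Finset (Site d)} (h : T ⊆ T') : Gs F T ⊆ Gs F T' := by
  rintro v (h1 | h1 | h1)
  · exact Or.inl h1
  · exact Or.inr (Or.inl (h h1))
  · exact Or.inr (Or.inr h1)

theorem Rch_of_sub {F T T' : Finset (Site d)} (h : Gs F T ⊆ Gs F T') {u v : Site d}
    (hr : Rch F T u v) : Rch F T' u v := by
  refine Relation.ReflTransGen.mono ?_ _ _ hr
  rintro a b ⟨h1, h2⟩
  exact ⟨h1, h h2⟩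

theorem Esc_of_sub {F T T' : Finset (Site d)} (h : Gs F T ⊆ Gs F T') (he : Esc F T) :
    Esc F T' := by
  obtain ⟨z, hz, hr⟩ := he
  exact ⟨z, hz, Rch_of_sub h hr⟩

theorem Esc_mono {F T T' : Finset (Site d)} (h : T ⊆ T') (he : Esc F T) : Esc F T' :=
  Esc_of_sub (Gs_mono h) he

theorem nb_update (p : Site d) (i : Fin d) {e : ℤ} (he : |e| = 1) :
    Nb p (Function.update p i (p i + e)) := by
  unfold Nb
  rw [Finset.sum_eq_single i]
  · rw [Function.update_self]
    have : p i - (p i + e) = -e := by ring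
    rw [this, abs_neg, he]
  · intro j _ hj
    rw [Function.update_of_ne hj]; simp
  · intro h; exact absurd (Finset.mem_univ i) h

/-- boxes are connected -/
theorem box_path (S : Set (Site d)) (lo up : Fin d → ℤ)
    (hS : ∀ z : Site d, (∀ i, lo i ≤ z i ∧ z i ≤ up i) → z ∈ S) :
    ∀ (N : ℕ) (p q : Site d), (∑ i, (p i - q i).natAbs) ≤ N →
      (∀ i, lo i ≤ p i ∧ p i ≤ up i) → (∀ i, lo i ≤ q i ∧ q i ≤ up i) →
      Relation.ReflTransGen (fun a b => Nb a b ∧ b ∈ S) p q := by
  intro N
  induction N with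
  | zero =>
    intro p q hN hp hq
    have : p = q := by
      funext i
      have h1 : (p i - q i).natAbs ≤ ∑ i, (p i - q i).natAbs :=
        Finset.single_le_sum (f := fun i => (p i - q i).natAbs) (fun _ _ => Nat.zero_le _)
          (Finset.mem_univ i)
      omega
    rw [this]
  | succ N ih =>
    intro p q hN hp hq
    by_cases hpq : p = q
    · rw [hpq]
    · obtain ⟨i, hi⟩ : ∃ i, p i ≠ q i := by
        by_contra hcon
        push Not at hcon
        exact hpq (funext hcon)
      obtain ⟨e, he, hlt, hle⟩ : ∃ e : ℤ, |e| = 1 ∧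
          (p i + e - q i).natAbs + 1 ≤ (p i - q i).natAbs ∧
          (lo i ≤ p i + e ∧ p i + e ≤ up i) := by
        rcases lt_or_gt_of_ne hi with h | h
        · refine ⟨1, by norm_num, by omega, ?_⟩
          have := hp i; have := hq i; omega
        · refine ⟨-1, by norm_num, by omega, ?_⟩
          have := hp i; have := hq i; omega
      set p' := Function.update p i (p i + e) with hp'
      have hbox : ∀ j, lo j ≤ p' j ∧ p' j ≤ up j := by
        intro j
        by_cases hj : j = i
        · subst hj; rw [hp', Function.update_self]; exact hle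
        · rw [hp', Function.update_of_ne hj]; exact hp j
      have hsum : (∑ j, (p' j - q j).natAbs) ≤ N := by
        have e1 : (∑ j, (p' j - q j).natAbs) = (p' i - q i).natAbs +
            ∑ j ∈ Finset.univ.erase i, (p' j - q j).natAbs :=
          (Finset.add_sum_erase Finset.univ (fun j => (p' j - q j).natAbs)
            (Finset.mem_univ i)).symm
        have e2 : (∑ j, (p j - q j).natAbs) = (p i - q i).natAbs +
            ∑ j ∈ Finset.univ.erase i, (p j - q j).natAbs :=
          (Finset.add_sum_erase Finset.univ (fun j => (p j - q j).natAbs)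
            (Finset.mem_univ i)).symm
        have e3 : ∑ j ∈ Finset.univ.erase i, (p' j - q j).natAbs =
            ∑ j ∈ Finset.univ.erase i, (p j - q j).natAbs := by
          refine Finset.sum_congr rfl fun j hj => ?_
          rw [hp', Function.update_of_ne (Finset.ne_of_mem_erase hj)]
        have e4 : p' i = p i + e := by rw [hp', Function.update_self]
        rw [e1, e3, e4]
        rw [e2] at hN
        omega
      exact Relation.ReflTransGen.head ⟨nb_update p i he, hS p' hbox⟩
        (ih p' q hsum hbox hq)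

end

section Surgery

variable {m : ℕ}

/-- the planes -/
def Pl (z : Site (m + 2)) : Prop := z 0 % 3 = 2

/-- the hole -/
def hole (A : ℤ) (x : Site (m + 2)) : Set (Site (m + 2)) :=
  {z | A ≤ z 0 ∧ z 0 ≤ A + 3 ∧ ∀ i, i ≠ 0 → |z i - x i| ≤ 4}

/-- the region of the modifications -/
def loc (A : ℤ) (x : Site (m + 2)) : Set (Site (m + 2)) :=
  {z | A ≤ z 0 ∧ z 0 ≤ A + 3 ∧ ∀ i, i ≠ 0 → |z i - x i| ≤ 5}

/-- the sites of the two planes in the region -/
def Qs (A : ℤ) (x : Site (m + 2)) : Set (Site (m + 2)) :=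
  {z | (z 0 = A ∨ z 0 = A + 3) ∧ ∀ i, i ≠ 0 → |z i - x i| ≤ 5}

/-- the points of the column -/
def cp (A c : ℤ) (x : Site (m + 2)) (k : ℤ) : Site (m + 2) :=
  fun i => if i = 0 then A + k else if i = 1 then c else x i

theorem hole_sub_loc {A : ℤ} {x : Site (m + 2)} : hole A x ⊆ loc A x :=
  fun _ h => ⟨h.1, h.2.1, fun i hi => (h.2.2 i hi).trans (by norm_num)⟩

theorem cp_zero (A c : ℤ) (x : Site (m + 2)) (k : ℤ) : cp A c x k 0 = A + k := by
  unfold cp; rw [if_pos rfl]

theorem cp_one (A c : ℤ) (x : Site (m + 2)) (k : ℤ) : cp A c x k 1 = c := by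
  unfold cp
  rw [if_neg (by simp), if_pos rfl]

theorem cp_dist {A c : ℤ} {x : Site (m + 2)} (hc : |c - x 1| ≤ 3) (k : ℤ) (i : Fin (m + 2))
    (hi : i ≠ 0) : |cp A c x k i - x i| ≤ 3 := by
  unfold cp
  rw [if_neg hi]
  by_cases h1 : i = 1
  · rw [if_pos h1, h1]; exact hc
  · rw [if_neg h1, sub_self, abs_zero]; norm_num

theorem cp_nb (A c : ℤ) (x : Site (m + 2)) (k : ℤ) : Nb (cp A c x k) (cp A c x (k + 1)) := by
  have e : cp A c x (k + 1) = Function.update (cp A c x k) 0 (cp A c x k 0 + 1) := by
    funext i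
    by_cases hi : i = 0
    · subst hi; rw [Function.update_self, cp_zero, cp_zero]; ring
    · rw [Function.update_of_ne hi]
      unfold cp
      rw [if_neg hi, if_neg hi]
  rw [e]
  exact nb_update _ _ (by norm_num)

open Classical in
theorem surgery (F T : Finset (Site (m + 2))) (hT : T ⊆ F) {x : Site (m + 2)} {A : ℤ}
    (hA : A % 3 = 2) (hx1 : A < x 0) (hx2 : x 0 < A + 3)
    (h1 : Esc F (insert x T)) (h2 : ¬ Esc F (T.erase x)) :
    ∃ y T', y ∈ F ∧ Pl y ∧ y ∈ loc A x ∧ T' ⊆ F ∧ (∀ z, z ∉ loc A x → (z ∈ T' ↔ z ∈ T)) ∧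
      Esc F (insert y T') ∧ ¬ Esc F (T'.erase y) := by
  -- the column
  obtain ⟨c, hc, hc2⟩ : ∃ c : ℤ, |c - x 1| ≤ 3 ∧ 2 ≤ |c| := by
    by_cases h : 2 ≤ |x 1|
    · exact ⟨x 1, by simp, h⟩
    · push Not at h
      refine ⟨x 1 + 3, by simp, ?_⟩
      rw [abs_lt] at h
      rw [abs_of_nonneg (by omega)]
      omega
  have hxh : x ∈ hole A x := ⟨hx1.le, hx2.le, fun i _ => by simp⟩
  set T0 := T.filter (fun z => z ∉ hole A x) with hT0
  set T1 := T0 ∪ ({cp A c x 1, cp A c x 2} : Finset (Site (m + 2))).filter (fun z => z ∈ F)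
    with hT1
  set PL := F.filter (fun z => z ∈ loc A x ∧ Pl z) with hPL
  have hT0T : T0 ⊆ T.erase x := by
    intro z hz
    rw [hT0, Finset.mem_filter] at hz
    exact Finset.mem_erase.2 ⟨fun h => hz.2 (h ▸ hxh), hz.1⟩
  have hE0 : ¬ Esc F T0 := fun h => h2 (Esc_mono hT0T h)
  -- (a): no connection with the column only
  have hcol_hole : ∀ k : ℤ, 1 ≤ k → k ≤ 2 → ∀ u, Nb u (cp A c x k) → u ∈ hole A x := by
    intro k hk1 hk2 u hu
    have h0 := Nb.abs_le hu 0
    rw [cp_zero, abs_le] at h0
    refine ⟨by omega, by omega, fun i hi => ?_⟩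
    have h3 := Nb.abs_le hu i
    have h4 := cp_dist (A := A) (c := c) (x := x) hc k i hi
    have h5 : |u i - x i| ≤ |u i - cp A c x k i| + |cp A c x k i - x i| := abs_sub_le _ _ _
    linarith
  have hE1 : ¬ Esc F T1 := by
    rintro ⟨z, hz, hr⟩
    have hall : ∀ v, Rch F T1 0 v → Rch F T0 0 v := by
      intro v hv
      induction hv with
      | refl => exact Relation.ReflTransGen.refl
      | @tail u v hu huv ih =>
        obtain ⟨hn, hv⟩ := huv
        by_cases hv0 : v ∈ Gs F T0
        · exact ih.tail ⟨hn, hv0⟩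
        · exfalso
          have hvc : v = cp A c x 1 ∨ v = cp A c x 2 := by
            rcases hv with h | h | h
            · exact absurd (Or.inl h) hv0
            · rw [hT1, Finset.mem_union] at h
              rcases h with h | h
              · exact absurd (Or.inr (Or.inl h)) hv0
              · have h5 := (Finset.mem_filter.1 h).1
                simpa using h5
            · exact absurd (Or.inr (Or.inr h)) hv0
          have huh : u ∈ hole A x := by
            rcases hvc with h | h
            · exact hcol_hole 1 (by norm_num) (by norm_num) u (h ▸ hn)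
            · exact hcol_hole 2 (by norm_num) (by norm_num) u (h ▸ hn)
          have hu0 : u ≠ 0 := by
            intro h
            have h3 := Nb.abs_le hn 1
            have h4 : v 1 = c := by
              rcases hvc with h | h
              · rw [h, cp_one]
              · rw [h, cp_one]
            rw [h4, h] at h3
            simp only [Pi.zero_apply, zero_sub, abs_neg] at h3
            omega
          have huG : u = 0 ∨ u ∈ Gs F T0 := by
            rcases Relation.ReflTransGen.cases_tail ih with h | ⟨_, _, h⟩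
            · exact Or.inl h
            · exact Or.inr h.2
          rcases huG with h | h | h | h
          · exact hu0 h
          · exact hu0 h
          · rw [hT0, Finset.mem_filter] at h
            exact h.2 huh
          · exact hE0 ⟨u, h, ih⟩
    exact hE0 ⟨z, hz, hall z hr⟩
  -- (b): connection when the planes are open
  have hQG : Qs A x ⊆ Gs F (T1 ∪ PL) := by
    rintro q ⟨hq0, hq1⟩
    by_cases hqF : q ∈ F
    · refine Or.inr (Or.inl (Finset.mem_union_right _ ?_))
      rw [hPL, Finset.mem_filter]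
      refine ⟨hqF, ⟨by omega, by omega, hq1⟩, ?_⟩
      unfold Pl
      omega
    · exact Or.inr (Or.inr hqF)
  have hlevel : ∀ q q', q ∈ Qs A x → q' ∈ Qs A x → q 0 = q' 0 → Rch F (T1 ∪ PL) q q' := by
    intro q q' hq hq' he
    refine box_path (Gs F (T1 ∪ PL)) (fun i => if i = 0 then q 0 else x i - 5)
      (fun i => if i = 0 then q 0 else x i + 5) (fun z hz => hQG ⟨?_, fun i hi => ?_⟩)
      _ q q' le_rfl (fun i => ?_) (fun i => ?_)
    · have := hz 0
      rw [if_pos rfl, if_pos rfl] at this
      have e : z 0 = q 0 := by omega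
      rw [e]; exact hq.1
    · have := hz i
      rw [if_neg hi, if_neg hi] at this
      rw [abs_le]; constructor <;> linarith [this.1, this.2]
    · by_cases hi : i = 0
      · subst hi; simp
      · rw [if_neg hi, if_neg hi]
        have := abs_le.1 (hq.2 i hi)
        constructor <;> linarith [this.1, this.2]
    · by_cases hi : i = 0
      · subst hi; simp [he]
      · rw [if_neg hi, if_neg hi]
        have := abs_le.1 (hq'.2 i hi)
        constructor <;> linarith [this.1, this.2]
  have hcpG : ∀ k : ℤ, 0 ≤ k → k ≤ 3 → cp A c x k ∈ Gs F (T1 ∪ PL) := by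
    intro k hk0 hk3
    have hd3 : ∀ i, i ≠ 0 → |cp A c x k i - x i| ≤ 5 :=
      fun i hi => (cp_dist hc k i hi).trans (by norm_num)
    by_cases hk : k = 0 ∨ k = 3
    · refine hQG ⟨?_, hd3⟩
      rw [cp_zero]
      rcases hk with h | h
      · left; omega
      · right; omega
    · push Not at hk
      by_cases hF : cp A c x k ∈ F
      · refine Or.inr (Or.inl (Finset.mem_union_left _ ?_))
        rw [hT1]
        refine Finset.mem_union_right _ ?_
        rw [Finset.mem_filter]
        refine ⟨?_, hF⟩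
        have : k = 1 ∨ k = 2 := by omega
        rcases this with h | h
        · rw [h]; simp
        · rw [h]; simp
      · exact Or.inr (Or.inr hF)
  have hcpQ0 : cp A c x 0 ∈ Qs A x := ⟨Or.inl (by rw [cp_zero]; ring),
    fun i hi => (cp_dist hc 0 i hi).trans (by norm_num)⟩
  have hcpQ3 : cp A c x 3 ∈ Qs A x := ⟨Or.inr (by rw [cp_zero]),
    fun i hi => (cp_dist hc 3 i hi).trans (by norm_num)⟩
  have hup : Rch F (T1 ∪ PL) (cp A c x 0) (cp A c x 3) := by
    have s1 := cp_nb A c x 0
    have s2 := cp_nb A c x 1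
    have s3 := cp_nb A c x 2
    norm_num at s1 s2 s3
    exact ((Relation.ReflTransGen.single ⟨s1, hcpG 1 (by norm_num) (by norm_num)⟩).tail
      ⟨s2, hcpG 2 (by norm_num) (by norm_num)⟩).tail ⟨s3, hcpG 3 (by norm_num) le_rfl⟩
  have hdown : Rch F (T1 ∪ PL) (cp A c x 3) (cp A c x 0) := by
    have s1 := nb_symm (cp_nb A c x 0)
    have s2 := nb_symm (cp_nb A c x 1)
    have s3 := nb_symm (cp_nb A c x 2)
    norm_num at s1 s2 s3
    exact ((Relation.ReflTransGen.single ⟨s3, hcpG 2 (by norm_num) (by norm_num)⟩).tail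
      ⟨s2, hcpG 1 (by norm_num) (by norm_num)⟩).tail ⟨s1, hcpG 0 le_rfl (by norm_num)⟩
  have hQconn : ∀ q q', q ∈ Qs A x → q' ∈ Qs A x → Rch F (T1 ∪ PL) q q' := by
    intro q q' hq hq'
    by_cases he : q 0 = q' 0
    · exact hlevel q q' hq hq' he
    · rcases hq.1 with h | h <;> rcases hq'.1 with h' | h'
      · exact absurd (h.trans h'.symm) he
      · refine ((hlevel q (cp A c x 0) hq hcpQ0 (by rw [cp_zero]; omega)).trans hup).trans
          (hlevel (cp A c x 3) q' hcpQ3 hq' (by rw [cp_zero]; omega))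
      · refine ((hlevel q (cp A c x 3) hq hcpQ3 (by rw [cp_zero]; omega)).trans hdown).trans
          (hlevel (cp A c x 0) q' hcpQ0 hq' (by rw [cp_zero]; omega))
      · exact absurd (h.trans h'.symm) he
  -- a site next to the hole is equal or adjacent to a site of the planes
  have hnear : ∀ v, (∃ h ∈ hole A x, Nb v h) → ∃ q ∈ Qs A x, v = q ∨ Nb v q := by
    rintro v ⟨h, hh, hn⟩
    have h0 := Nb.abs_le hn 0
    rw [abs_le] at h0
    have hh0 := hh.1
    have hh1 := hh.2.1
    have hd5 : ∀ i, i ≠ 0 → |v i - x i| ≤ 5 := by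
      intro i hi
      have h3 := Nb.abs_le hn i
      have h4 := hh.2.2 i hi
      have h5 : |v i - x i| ≤ |v i - h i| + |h i - x i| := abs_sub_le _ _ _
      linarith
    have hupd : ∀ L : ℤ, (L = A ∨ L = A + 3) → Function.update v 0 L ∈ Qs A x := by
      intro L hL
      refine ⟨by rw [Function.update_self]; exact hL, fun i hi => ?_⟩
      rw [Function.update_of_ne hi]; exact hd5 i hi
    have hstep : ∀ L : ℤ, (L = A ∨ L = A + 3) → |L - v 0| = 1 →
        ∃ q ∈ Qs A x, v = q ∨ Nb v q := by
      intro L hL hL1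
      refine ⟨Function.update v 0 L, hupd L hL, Or.inr ?_⟩
      have := nb_update v 0 hL1
      rwa [show v 0 + (L - v 0) = L by ring] at this
    have hcases : v 0 = A - 1 ∨ v 0 = A ∨ v 0 = A + 1 ∨ v 0 = A + 2 ∨ v 0 = A + 3 ∨
        v 0 = A + 4 := by omega
    rcases hcases with e | e | e | e | e | e
    · exact hstep A (Or.inl rfl) (by rw [e]; norm_num)
    · exact ⟨v, ⟨Or.inl e, hd5⟩, Or.inl rfl⟩
    · exact hstep A (Or.inl rfl) (by rw [e]; norm_num)
    · exact hstep (A + 3) (Or.inr rfl) (by rw [e]; norm_num)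
    · exact ⟨v, ⟨Or.inr e, hd5⟩, Or.inl rfl⟩
    · exact hstep (A + 3) (Or.inr rfl) (by rw [e]; norm_num)
  obtain ⟨z, hzF, hz⟩ := h1
  have hG0sub : Gs F T0 ⊆ Gs F (T1 ∪ PL) :=
    Gs_mono (Finset.subset_union_left.trans Finset.subset_union_left)
  -- sites of `Gs F (insert x T)` outside `Gs F T0` are in the hole and in `F`
  have hdiff : ∀ v, v ∈ Gs F (insert x T) → v ∉ Gs F T0 → v ∈ hole A x ∧ v ∈ F := by
    intro v hv hv0
    rcases hv with h | h | h
    · exact absurd (Or.inl h) hv0
    · rcases Finset.mem_insert.1 h with h' | h'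
      · by_cases hF : v ∈ F
        · exact ⟨h' ▸ hxh, hF⟩
        · exact absurd (Or.inr (Or.inr hF)) hv0
      · refine ⟨?_, hT h'⟩
        by_contra hh
        exact hv0 (Or.inr (Or.inl (by rw [hT0, Finset.mem_filter]; exact ⟨h', hh⟩)))
    · exact absurd (Or.inr (Or.inr h)) hv0
  -- origin side
  have hb3 : ∃ v, Rch F T0 0 v ∧ ∃ h ∈ hole A x, Nb v h := by
    have hall : ∀ v, Rch F (insert x T) 0 v → Rch F T0 0 v ∨
        ∃ v, Rch F T0 0 v ∧ ∃ h ∈ hole A x, Nb v h := by
      intro v hv
      induction hv with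
      | refl => exact Or.inl Relation.ReflTransGen.refl
      | @tail u v hu huv ih =>
        rcases ih with ih | ih
        · by_cases hv0 : v ∈ Gs F T0
          · exact Or.inl (ih.tail ⟨huv.1, hv0⟩)
          · exact Or.inr ⟨u, ih, v, (hdiff v huv.2 hv0).1, huv.1⟩
        · exact Or.inr ih
    rcases hall z hz with h | h
    · exact absurd ⟨z, hzF, h⟩ hE0
    · exact h
  -- outer side
  have hb4 : ∃ v, v ∈ Gs F T0 ∧ Rch F T0 v z ∧ ∃ h ∈ hole A x, Nb v h := by
    have hall : ∀ u, Rch F (insert x T) u z → Rch F T0 u z ∨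
        ∃ v, v ∈ Gs F T0 ∧ Rch F T0 v z ∧ ∃ h ∈ hole A x, Nb v h := by
      intro u hu
      induction hu using Relation.ReflTransGen.head_induction_on with
      | refl => exact Or.inl Relation.ReflTransGen.refl
      | @head u v huv _ ih =>
        rcases ih with ih | ih
        · by_cases hv0 : v ∈ Gs F T0
          · exact Or.inl (Relation.ReflTransGen.head ⟨huv.1, hv0⟩ ih)
          · obtain ⟨hvh, hvF⟩ := hdiff v huv.2 hv0
            rcases Relation.ReflTransGen.cases_head ih with h | ⟨v1, h, hr⟩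
            · exact absurd (h ▸ hvF) hzF
            · exact Or.inr ⟨v1, h.2, hr, v, hvh, nb_symm h.1⟩
        · exact Or.inr ih
    rcases hall 0 hz with h | h
    · exact absurd ⟨z, hzF, h⟩ hE0
    · exact h
  have hE2 : Esc F (T1 ∪ PL) := by
    obtain ⟨v, hv, hvh⟩ := hb3
    obtain ⟨v', hvG, hv', hvh'⟩ := hb4
    obtain ⟨q, hq, hvq⟩ := hnear v hvh
    obtain ⟨q', hq', hvq'⟩ := hnear v' hvh'
    refine ⟨z, hzF, ?_⟩
    have r1 : Rch F (T1 ∪ PL) 0 q := by
      have := Rch_of_sub hG0sub hv
      rcases hvq with h | h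
      · rwa [← h]
      · exact this.tail ⟨h, hQG hq⟩
    have r2 : Rch F (T1 ∪ PL) q' z := by
      have := Rch_of_sub hG0sub hv'
      rcases hvq' with h | h
      · rwa [← h]
      · exact Relation.ReflTransGen.head ⟨nb_symm h, hG0sub hvG⟩ this
    exact (r1.trans (hQconn q q' hq hq')).trans r2
  -- open the planes site by site
  have hchain : ∀ S : Finset (Site (m + 2)), Esc F (T1 ∪ S) →
      ∃ y ∈ S, ∃ S' ⊆ S, ¬ Esc F (T1 ∪ S') ∧ Esc F (T1 ∪ insert y S') := by
    intro S
    induction S using Finset.induction_on with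
    | empty => intro h; rw [Finset.union_empty] at h; exact absurd h hE1
    | insert y S _ ih =>
      intro h
      by_cases hS : Esc F (T1 ∪ S)
      · obtain ⟨y', hy', S', hS', h3, h4⟩ := ih hS
        exact ⟨y', Finset.mem_insert_of_mem hy', S', hS'.trans (Finset.subset_insert _ _), h3, h4⟩
      · exact ⟨y, Finset.mem_insert_self _ _, S, Finset.subset_insert _ _, hS, h⟩
  obtain ⟨y, hy, S, hS, h3, h4⟩ := hchain PL hE2
  have hy' := hy
  rw [hPL, Finset.mem_filter] at hy'
  refine ⟨y, T1 ∪ S, hy'.1, hy'.2.2, hy'.2.1, ?_, ?_, ?_, ?_⟩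
  · refine Finset.union_subset (Finset.union_subset ((Finset.filter_subset _ _).trans hT) ?_)
      (hS.trans (Finset.filter_subset _ _))
    intro z hz
    exact (Finset.mem_filter.1 hz).2
  · intro z hz
    have hzh : z ∉ hole A x := fun h => hz (hole_sub_loc h)
    have hzS : z ∉ S := fun h => by
      have := hS h
      rw [hPL, Finset.mem_filter] at this
      exact hz this.2.1
    have hzc : z ≠ cp A c x 1 ∧ z ≠ cp A c x 2 := by
      have hcl : ∀ k : ℤ, 0 ≤ k → k ≤ 3 → cp A c x k ∈ loc A x := fun k hk0 hk3 =>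
        ⟨by rw [cp_zero]; omega, by rw [cp_zero]; omega,
          fun i hi => (cp_dist hc k i hi).trans (by norm_num)⟩
      exact ⟨fun h => hz (h ▸ hcl 1 (by norm_num) (by norm_num)),
        fun h => hz (h ▸ hcl 2 (by norm_num) (by norm_num))⟩
    rw [Finset.mem_union, hT1, Finset.mem_union, hT0, Finset.mem_filter, Finset.mem_filter]
    constructor
    · rintro ((h | h) | h)
      · exact h.1
      · exfalso
        have := h.1
        rw [Finset.mem_insert, Finset.mem_singleton] at this
        rcases this with h' | h'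
        · exact hzc.1 h'
        · exact hzc.2 h'
      · exact absurd h hzS
    · intro h
      exact Or.inl (Or.inl ⟨h, hzh⟩)
  · rw [Finset.union_insert] at h4
    exact h4
  · exact fun h => h3 (Esc_mono (Finset.erase_subset _ _) h)

end Surgery

end Pool.Agent.PBP
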