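import Pool.Agent.PBP.AG1
import Pool.Agent.PBP.AG2
import Pool.Agent.Perc.FSC
import Pool.Agent.Perc.Conn

/-!
Strict inequality between the critical densities of a slab and of the whole lattice.
-/

open Finset MeasureTheory Filter Topology

namespace Pool.Agent.PBP

open F368

section Curve

variable {m : ℕ}

open Classical in
/-- indicator of the escape event -/
noncomputable def fE {d : ℕ} (F T : Finset (Site d)) : ℝ := if Esc F T then 1 else 0

theorem fE_mono {d : ℕ} (F : Finset (Site d)) {T T' : Finset (Site d)} (h : T ⊆ T') :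
    fE F T ≤ fE F T' := by
  unfold fE
  by_cases h1 : Esc F T
  · rw [if_pos h1, if_pos (Esc_mono h h1)]
  · rw [if_neg h1]; split_ifs <;> norm_num

theorem fE_nonneg {d : ℕ} (F T : Finset (Site d)) : 0 ≤ fE F T := by
  unfold fE; split_ifs <;> norm_num

theorem fE_le_one {d : ℕ} (F T : Finset (Site d)) : fE F T ≤ 1 := by
  unfold fE; split_ifs <;> norm_num

/-- difference operator -/
noncomputable def dE {d : ℕ} (F : Finset (Site d)) (x : Site d) (s : Finset (Site d)) : ℝ :=
  fE F (insert x s) - fE F (s.erase x)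

theorem dE_nonneg {d : ℕ} (F : Finset (Site d)) (x : Site d) (s : Finset (Site d)) :
    0 ≤ dE F x s :=
  sub_nonneg.2 (fE_mono F ((Finset.erase_subset x s).trans (Finset.subset_insert x s)))

theorem dE_le_one {d : ℕ} (F : Finset (Site d)) (x : Site d) (s : Finset (Site d)) :
    dE F x s ≤ 1 := by
  unfold dE
  have := fE_le_one F (insert x s)
  have := fE_nonneg F (s.erase x)
  linarith

theorem dE_pos {d : ℕ} {F : Finset (Site d)} {x : Site d} {s : Finset (Site d)}
    (h : 0 < dE F x s) : Esc F (insert x s) ∧ ¬ Esc F (s.erase x) := by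
  unfold dE fE at h
  by_cases h1 : Esc F (insert x s)
  · by_cases h2 : Esc F (s.erase x)
    · rw [if_pos h1, if_pos h2] at h; norm_num at h
    · exact ⟨h1, h2⟩
  · rw [if_neg h1] at h
    split_ifs at h <;> norm_num at h

theorem dE_eq_one {d : ℕ} {F : Finset (Site d)} {x : Site d} {s : Finset (Site d)}
    (h1 : Esc F (insert x s)) (h2 : ¬ Esc F (s.erase x)) : dE F x s = 1 := by
  unfold dE fE
  rw [if_pos h1, if_neg h2]; norm_num

theorem card_bx {d : ℕ} (v : Site d) (t : ℕ) : (bx v t).card = (bx (0 : Site d) t).card := by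
  rw [← bx_map v t, Finset.card_map]

/-- the lower plane level next to `x` -/
def lev (x : Site (m + 2)) : ℤ := x 0 - 1 - x 0 % 3

theorem lev_mod (x : Site (m + 2)) : lev x % 3 = 2 := by
  unfold lev; omega

theorem lev_lt {x : Site (m + 2)} : lev x < x 0 := by
  unfold lev; omega

theorem lt_lev {x : Site (m + 2)} (hx : ¬ Pl x) : x 0 < lev x + 3 := by
  unfold lev; unfold Pl at hx; omega

theorem loc_dist {x y : Site (m + 2)} (hx : ¬ Pl x) (hy : y ∈ loc (lev x) x) (i : Fin (m + 2)) :
    |y i - x i| ≤ 5 := by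
  by_cases hi : i = 0
  · subst hi
    have h1 := hy.1
    have h2 := hy.2.1
    have h3 := lev_lt (x := x)
    have h4 := lt_lev hx
    rw [abs_le]; constructor <;> omega
  · exact hy.2.2 i hi

open Classical in
/-- a site outside the planes has an influence bounded by those of the plane sites near it -/
theorem infl_site {F : Finset (Site (m + 2))} {w : Site (m + 2) → ℝ} {ε : ℝ} (hε : 0 < ε)
    (hε1 : ε ≤ 1) (h0 : ∀ i ∈ F, ε ≤ w i) (h1 : ∀ i ∈ F, w i ≤ 1 - ε)
    {x : Site (m + 2)} (hxP : ¬ Pl x) :
    ε ^ (bx (0 : Site (m + 2)) 5).card * ExW F w (dE F x) ≤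
      ∑ y ∈ F.filter (fun y => y ∈ loc (lev x) x ∧ Pl y), ExW F w (dE F y) := by
  set L := F.filter (fun y => y ∈ loc (lev x) x) with hL
  have hLF : L ⊆ F := Finset.filter_subset _ _
  have key := infl_compare (F := F) (L := L)
    (Y := F.filter (fun y => y ∈ loc (lev x) x ∧ Pl y)) (w := w) hε.le hLF h0 h1
    (g := dE F x) (G := dE F) (fun s _ => dE_le_one F x s) (fun y _ s _ => dE_nonneg F y s)
    (fun U hU V hV hpos => by
      obtain ⟨e1, e2⟩ := dE_pos hpos
      have hUV : U ∪ V ⊆ F :=
        Finset.union_subset (hU.trans Finset.sdiff_subset) (hV.trans hLF)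
      obtain ⟨y, T', hy1, hy2, hy3, hT', hloc, e3, e4⟩ :=
        surgery F (U ∪ V) hUV (lev_mod x) lev_lt (lt_lev hxP) e1 e2
      refine ⟨y, ?_, T' ∩ L, Finset.inter_subset_right, ?_⟩
      · rw [Finset.mem_filter]; exact ⟨hy1, hy3, hy2⟩
      · have e5 : U ∪ T' ∩ L = T' := by
          ext z
          rw [Finset.mem_union, Finset.mem_inter]
          constructor
          · rintro (h | h)
            · have h6 := Finset.mem_sdiff.1 (hU h)
              have h7 : z ∉ loc (lev x) x := fun h8 =>
                h6.2 (by rw [hL, Finset.mem_filter]; exact ⟨h6.1, h8⟩)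
              exact (hloc z h7).2 (Finset.mem_union_left _ h)
            · exact h.1
          · intro h
            by_cases h8 : z ∈ loc (lev x) x
            · exact Or.inr ⟨h, by rw [hL, Finset.mem_filter]; exact ⟨hT' h, h8⟩⟩
            · have h9 := (hloc z h8).1 h
              rcases Finset.mem_union.1 h9 with h10 | h10
              · exact Or.inl h10
              · have := hV h10
                rw [hL, Finset.mem_filter] at this
                exact absurd this.2 h8
        rw [e5]
        exact dE_eq_one e3 e4)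
  have hcard : L.card ≤ (bx (0 : Site (m + 2)) 5).card := by
    rw [← card_bx x 5]
    refine Finset.card_le_card fun z hz => ?_
    rw [mem_bx]
    rw [hL, Finset.mem_filter] at hz
    exact fun i => loc_dist hxP hz.2 i
  have hnn : 0 ≤ ExW F w (dE F x) :=
    ExW_nonneg (fun i hi => hε.le.trans (h0 i hi)) (fun i hi => (h1 i hi).trans (by linarith))
      fun s _ => dE_nonneg F x s
  refine le_trans (mul_le_mul_of_nonneg_right ?_ hnn) key
  exact pow_le_pow_of_le_one hε.le hε1 hcard

open Classical in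
/-- the sum of the influences outside the planes is controlled by the sum over the planes -/
theorem infl_sum {F : Finset (Site (m + 2))} {w : Site (m + 2) → ℝ} {ε : ℝ} (hε : 0 < ε)
    (hε1 : ε ≤ 1) (h0 : ∀ i ∈ F, ε ≤ w i) (h1 : ∀ i ∈ F, w i ≤ 1 - ε) :
    ε ^ (bx (0 : Site (m + 2)) 5).card *
      ∑ x ∈ F.filter (fun x => ¬ Pl x), ExW F w (dE F x) ≤
      (bx (0 : Site (m + 2)) 5).card * ∑ y ∈ F.filter (fun y => Pl y), ExW F w (dE F y) := by
  have hnn : ∀ y, 0 ≤ ExW F w (dE F y) := fun y =>
    ExW_nonneg (fun i hi => hε.le.trans (h0 i hi)) (fun i hi => (h1 i hi).trans (by linarith))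
      fun s _ => dE_nonneg F y s
  rw [Finset.mul_sum]
  have s1 : ∑ x ∈ F.filter (fun x => ¬ Pl x),
      ε ^ (bx (0 : Site (m + 2)) 5).card * ExW F w (dE F x) ≤
      ∑ x ∈ F.filter (fun x => ¬ Pl x), ∑ y ∈ F.filter (fun y => Pl y),
        if y ∈ loc (lev x) x then ExW F w (dE F y) else 0 := by
    refine Finset.sum_le_sum fun x hx => ?_
    refine (infl_site hε hε1 h0 h1 (Finset.mem_filter.1 hx).2).trans (le_of_eq ?_)
    rw [← Finset.sum_filter]
    refine Finset.sum_congr ?_ fun _ _ => rfl
    ext y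
    simp only [Finset.mem_filter]
    tauto
  refine s1.trans ?_
  rw [Finset.sum_comm, Finset.mul_sum]
  refine Finset.sum_le_sum fun y hy => ?_
  rw [← Finset.sum_filter, Finset.sum_const, nsmul_eq_mul]
  refine mul_le_mul_of_nonneg_right ?_ (hnn y)
  have : ((F.filter (fun x => ¬ Pl x)).filter (fun x => y ∈ loc (lev x) x)).card ≤
      (bx (0 : Site (m + 2)) 5).card := by
    rw [← card_bx y 5]
    refine Finset.card_le_card fun x hx => ?_
    rw [Finset.mem_filter, Finset.mem_filter] at hx
    rw [mem_bx]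
    intro i
    rw [abs_sub_comm]
    exact loc_dist hx.1.2 hx.2 i
  exact_mod_cast this

open Classical in
/-- moving along a curve of densities -/
theorem curve (F : Finset (Site (m + 2))) {ε κ b0 t1 : ℝ} (hε : 0 < ε) (hκ : 0 ≤ κ)
    (ht1 : 0 ≤ t1) (hb0 : b0 ≤ 1 - ε) (hs : ε ≤ b0 - t1) (hb : b0 + κ * t1 ≤ 1 - ε)
    (hK : κ * (bx (0 : Site (m + 2)) 5).card ≤ ε ^ (bx (0 : Site (m + 2)) 5).card) :
    ExW F (fun z => if Pl z then b0 - t1 else b0 + κ * t1) (fE F) ≤ Ex F b0 (fE F) := by
  have hε1 : ε ≤ 1 := by linarith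
  set w : ℝ → Site (m + 2) → ℝ := fun t z => if Pl z then b0 - t else b0 + κ * t with hw
  set w' : Site (m + 2) → ℝ := fun z => if Pl z then -1 else κ with hw'
  have hder : ∀ t, HasDerivAt (fun t => ExW F (w t) (fE F))
      (∑ i ∈ F, w' i * ExW F (w t) (fun s => fE F (insert i s) - fE F (s.erase i))) t := by
    intro t
    refine hasDerivAt_ExW F w w' t (fun i _ => ?_) (fE F)
    by_cases hi : Pl i
    · simp only [hw, hw', if_pos hi]
      exact (hasDerivAt_id t).const_sub b0
    · simp only [hw, hw', if_neg hi]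
      have := ((hasDerivAt_id t).const_mul κ).const_add b0
      simpa using this
  have hneg : ∀ t ∈ Set.Icc 0 t1,
      (∑ i ∈ F, w' i * ExW F (w t) (fun s => fE F (insert i s) - fE F (s.erase i))) ≤ 0 := by
    intro t ht
    have g0 : ∀ i ∈ F, ε ≤ w t i := by
      intro i _
      simp only [hw]
      split_ifs
      · linarith [ht.2]
      · nlinarith [ht.1, mul_nonneg hκ ht.1]
    have g1 : ∀ i ∈ F, w t i ≤ 1 - ε := by
      intro i _
      simp only [hw]
      split_ifs
      · linarith [ht.1]
      · nlinarith [ht.1, ht.2, mul_le_mul_of_nonneg_left ht.2 hκ]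
    have key := infl_sum (w := w t) hε hε1 g0 g1
    set N := (bx (0 : Site (m + 2)) 5).card with hN
    have hnn : 0 ≤ ∑ y ∈ F.filter (fun y => Pl y), ExW F (w t) (dE F y) :=
      Finset.sum_nonneg fun y _ => ExW_nonneg (fun i hi => hε.le.trans (g0 i hi))
        (fun i hi => (g1 i hi).trans (by linarith)) fun s _ => dE_nonneg F y s
    have e1 : (∑ i ∈ F, w' i * ExW F (w t) (fun s => fE F (insert i s) - fE F (s.erase i))) =
        κ * ∑ x ∈ F.filter (fun x => ¬ Pl x), ExW F (w t) (dE F x) -
        ∑ y ∈ F.filter (fun y => Pl y), ExW F (w t) (dE F y) := by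
      rw [← Finset.sum_filter_add_sum_filter_not F (fun y => Pl y), Finset.mul_sum]
      have a1 : ∑ i ∈ F.filter (fun y => Pl y), w' i *
          ExW F (w t) (fun s => fE F (insert i s) - fE F (s.erase i)) =
          -∑ y ∈ F.filter (fun y => Pl y), ExW F (w t) (dE F y) := by
        rw [← Finset.sum_neg_distrib]
        refine Finset.sum_congr rfl fun i hi => ?_
        simp only [hw', if_pos (Finset.mem_filter.1 hi).2]
        change -1 * ExW F (w t) (dE F i) = _
        ring
      have a2 : ∑ i ∈ F.filter (fun y => ¬ Pl y), w' i *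
          ExW F (w t) (fun s => fE F (insert i s) - fE F (s.erase i)) =
          ∑ x ∈ F.filter (fun x => ¬ Pl x), κ * ExW F (w t) (dE F x) := by
        refine Finset.sum_congr rfl fun i hi => ?_
        simp only [hw', if_neg (Finset.mem_filter.1 hi).2]
        rfl
      rw [a1, a2]; ring
    rw [e1]
    set X := ∑ x ∈ F.filter (fun x => ¬ Pl x), ExW F (w t) (dE F x) with hX
    set Y := ∑ y ∈ F.filter (fun y => Pl y), ExW F (w t) (dE F y) with hY
    have hεN : 0 < ε ^ N := pow_pos hε N
    have hle : ε ^ N * (κ * X) ≤ ε ^ N * Y := by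
      calc ε ^ N * (κ * X) = κ * (ε ^ N * X) := by ring
        _ ≤ κ * (N * Y) := mul_le_mul_of_nonneg_left key hκ
        _ = (κ * N) * Y := by ring
        _ ≤ ε ^ N * Y := mul_le_mul_of_nonneg_right hK hnn
    have := le_of_mul_le_mul_left hle hεN
    linarith
  have hanti : AntitoneOn (fun t => ExW F (w t) (fE F)) (Set.Icc 0 t1) := by
    refine antitoneOn_of_deriv_nonpos (convex_Icc 0 t1) ?_ ?_ ?_
    · exact fun t _ => (hder t).continuousAt.continuousWithinAt
    · exact fun t _ => (hder t).differentiableAt.differentiableWithinAt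
    · intro t ht
      rw [interior_Icc] at ht
      rw [(hder t).deriv]
      exact hneg t ⟨ht.1.le, ht.2.le⟩
  have h := hanti ⟨le_rfl, ht1⟩ ⟨ht1, le_rfl⟩ ht1
  have e0 : ExW F (w 0) (fE F) = Ex F b0 (fE F) := by
    rw [← ExW_const_eq]
    refine ExW_congr (fun i _ => ?_) (fun _ _ => rfl)
    simp [hw]
  simp only at h
  rw [e0] at h
  exact h

end Curve

end Pool.Agent.PBP
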