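import Pool.Agent.PBP.AG3

/-!
The critical density of the slab is larger than that of the lattice.
-/

open Finset MeasureTheory Filter Topology

namespace Pool.Agent.PBP

open F368

section Arms

variable {d : ℕ}

theorem nbr_iff {u v : Site d} : Perc.Nbr u v ↔ Nb u v := Iff.rfl

/-- the arm event in the language of the escape event -/
theorem reach_iff {n : ℕ} {T : Finset (Site d)} (hT : T ⊆ bx (0 : Site d) n) :
    Perc.Reach n T ↔ (0 : Site d) ∈ T ∧ Esc (bx (0 : Site d) n) T := by
  constructor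
  · rintro ⟨y, ⟨i, hi⟩, h0, hp⟩
    refine ⟨h0, ?_⟩
    have hr : Rch (bx (0 : Site d) n) T 0 y := by
      refine Relation.ReflTransGen.mono ?_ _ _ hp
      rintro a b ⟨h1, h2⟩
      exact ⟨h1, Or.inr (Or.inl h2)⟩
    obtain ⟨e, he, hlt⟩ : ∃ e : ℤ, |e| = 1 ∧ (n : ℤ) < |y i + e| := by
      rcases le_or_gt 0 (y i) with h | h
      · refine ⟨1, by norm_num, ?_⟩
        rw [abs_of_nonneg h] at hi
        rw [abs_of_nonneg (by omega)]; omega
      · refine ⟨-1, by norm_num, ?_⟩
        rw [abs_of_neg h] at hi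
        rw [abs_of_neg (by omega)]; omega
    have hout : Function.update y i (y i + e) ∉ bx (0 : Site d) n := by
      rw [mem_bx]
      intro h
      have := h i
      rw [Function.update_self, Pi.zero_apply, sub_zero] at this
      omega
    exact ⟨_, hout, hr.tail ⟨nb_update y i he, Or.inr (Or.inr hout)⟩⟩
  · rintro ⟨h0, z, hz, hr⟩
    have hall : ∀ v, Rch (bx (0 : Site d) n) T 0 v →
        Perc.Jn Perc.Nbr (↑T : Set (Site d)) 0 v ∨ Perc.Reach n T := by
      intro v hv
      induction hv with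
      | refl => exact Or.inl ⟨h0, Relation.ReflTransGen.refl⟩
      | @tail u v _ huv ih =>
        rcases ih with ih | ih
        · rcases huv.2 with h | h | h
          · rw [h]; exact Or.inl ⟨h0, Relation.ReflTransGen.refl⟩
          · exact Or.inl ⟨h0, ih.2.tail ⟨huv.1, h⟩⟩
          · right
            rw [mem_bx] at h
            push Not at h
            obtain ⟨i, hi⟩ := h
            rw [Pi.zero_apply, sub_zero] at hi
            have huT : u ∈ T := by
              rcases Relation.ReflTransGen.cases_tail ih.2 with h5 | ⟨_, _, h5⟩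
              · rw [h5]; exact h0
              · exact h5.2
            have h3 := mem_bx.1 (hT huT) i
            rw [Pi.zero_apply, sub_zero] at h3
            have h4 := Nb.abs_le huv.1 i
            have h6 : |v i| ≤ |u i| + |u i - v i| := by
              have := abs_sub_abs_le_abs_sub (v i) (u i)
              rw [abs_sub_comm] at this
              linarith
            exact ⟨u, ⟨i, by omega⟩, ih⟩
        · exact Or.inr ih
    rcases hall z hr with h | h
    · exfalso
      have hzT : z ∈ T := by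
        rcases Relation.ReflTransGen.cases_tail h.2 with h5 | ⟨_, _, h5⟩
        · rw [h5]; exact h0
        · exact h5.2
      exact hz (hT hzT)
    · exact h

theorem Gs_insert_zero (F T : Finset (Site d)) : Gs F (insert 0 T) = Gs F T := by
  ext v
  show (v = 0 ∨ v ∈ insert 0 T ∨ v ∉ F) ↔ (v = 0 ∨ v ∈ T ∨ v ∉ F)
  rw [Finset.mem_insert]
  tauto

theorem fE_insert_zero (F T : Finset (Site d)) : fE F (insert 0 T) = fE F T := by
  have h1 : Esc F (insert 0 T) ↔ Esc F T :=
    ⟨Esc_of_sub (Gs_insert_zero F T).le, Esc_of_sub (Gs_insert_zero F T).ge⟩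
  unfold fE
  by_cases h : Esc F T
  · rw [if_pos h, if_pos (h1.2 h)]
  · rw [if_neg h, if_neg fun h' => h (h1.1 h')]

theorem arm_eq (n : ℕ) (b : ℝ) :
    Perc.arm d n b = b * Ex (bx (0 : Site d) n) b (fE (bx (0 : Site d) n)) := by
  classical
  set F := bx (0 : Site d) n with hF
  have h0F : (0 : Site d) ∈ F := self_mem_bx 0 n
  have e1 : Perc.arm d n b = Ex F b (fun T => if (0 : Site d) ∈ T then fE F T else 0) := by
    have e0 : Perc.box (0 : Site d) n = F := rfl
    unfold Perc.arm Perc.Pr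
    rw [e0]
    change Ex F b (fun ω => if Perc.Reach n ω then (1 : ℝ) else 0) = _
    refine Ex_congr fun T hT => ?_
    have h := reach_iff hT
    unfold fE
    by_cases h1 : (0 : Site d) ∈ T
    · by_cases h2 : Esc F T
      · rw [if_pos h1, if_pos h2, if_pos (h.2 ⟨h1, h2⟩)]
      · rw [if_pos h1, if_neg h2, if_neg fun h3 => h2 (h.1 h3).2]
    · rw [if_neg h1, if_neg fun h3 => h1 (h.1 h3).1]
  rw [e1, Ex_erase h0F, Ex_erase h0F b (fE F)]
  have e2 : Ex (F.erase 0) b (fun T => if (0 : Site d) ∈ T then fE F T else 0) = 0 := by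
    refine (Ex_congr fun T hT => if_neg fun h => ?_).trans (Ex_const (F.erase 0) b 0)
    exact Finset.notMem_erase _ _ (hT h)
  have e3 : Ex (F.erase 0) b (fun s => if (0 : Site d) ∈ insert 0 s then fE F (insert 0 s)
      else 0) = Ex (F.erase 0) b (fE F) :=
    Ex_congr fun T _ => by rw [if_pos (Finset.mem_insert_self _ _), fE_insert_zero]
  have e4 : Ex (F.erase 0) b (fun s => fE F (insert 0 s)) = Ex (F.erase 0) b (fE F) :=
    Ex_congr fun T _ => fE_insert_zero F T
  rw [e2, e3, e4]; ring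

/-- below the critical density the escape probabilities are small -/
theorem escape_small {b : ℝ} (hb0 : 0 < b) (hb1 : b < (Perc.pc d : ℝ)) {δ : ℝ} (hδ : 0 < δ) :
    ∃ n : ℕ, Ex (bx (0 : Site d) n) b (fE (bx (0 : Site d) n)) < δ := by
  have hpc1 : (Perc.pc d : ℝ) ≤ 1 := (Perc.pc d).2.2
  let p : unitInterval := ⟨b, hb0.le, hb1.le.trans hpc1⟩
  have hp : p < Perc.pc d := by
    rw [← Subtype.coe_lt_coe]; exact hb1
  have h0 := Perc.theta_eq_zero_of_lt_pc hp
  rw [Perc.theta_eq_iInf] at h0
  by_contra hcon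
  push Not at hcon
  have h1 : ENNReal.ofReal (b * δ) ≤ ⨅ n : ℕ, ENNReal.ofReal (Perc.arm d n p) := by
    refine le_iInf fun n => ENNReal.ofReal_le_ofReal ?_
    have : Perc.arm d n (p : ℝ) = b * Ex (bx (0 : Site d) n) b (fE (bx (0 : Site d) n)) :=
      arm_eq n b
    rw [this]
    exact mul_le_mul_of_nonneg_left (hcon n) hb0.le
  rw [h0] at h1
  have h2 : 0 < ENNReal.ofReal (b * δ) := ENNReal.ofReal_pos.2 (mul_pos hb0 hδ)
  exact absurd h1 (not_le.2 h2)

open Classical in
/-- law of the open sites in a finite set -/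
theorem unif_trace {q : ℝ} (hq0 : 0 ≤ q) (hq1 : q ≤ 1) (F : Finset (Site d))
    (Q : Finset (Site d) → Prop) :
    unif d {U | Q (F.filter (fun v => ¬ (U v : ℝ) < q))} =
      ENNReal.ofReal (Ex F (1 - q) (fun T => if Q T then 1 else 0)) := by
  set g : (Site d → unitInterval) → Finset (Site d) :=
    fun U => F.filter (fun v => ¬ (U v : ℝ) < q) with hg
  set s : Finset (Finset (Site d)) := F.powerset.filter Q with hs
  set A : Finset (Site d) → Site d → Set unitInterval :=
    fun T v => {u | v ∈ T ↔ ¬ (u : ℝ) < q} with hA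
  have hvol : ∀ (T : Finset (Site d)) (v : Site d), MeasurableSet (A T v) ∧
      (volume : Measure unitInterval) (A T v) =
        ENNReal.ofReal (if v ∈ T then 1 - q else q) := by
    intro T v
    by_cases hv : v ∈ T
    · have e : A T v = Set.Ici (⟨q, hq0, hq1⟩ : unitInterval) := by
        ext u
        simp only [hA, Set.mem_setOf_eq, hv, true_iff, not_lt, Set.mem_Ici]
        rfl
      rw [e, if_pos hv]
      exact ⟨measurableSet_Ici, unitInterval.volume_Ici _⟩
    · have e : A T v = Set.Iio (⟨q, hq0, hq1⟩ : unitInterval) := by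
        ext u
        simp only [hA, Set.mem_setOf_eq, hv, false_iff, not_not, Set.mem_Iio]
        rfl
      rw [e, if_neg hv]
      exact ⟨measurableSet_Iio, unitInterval.volume_Iio _⟩
  have hfib : ∀ T ∈ s, g ⁻¹' {T} = Set.pi (F : Set (Site d)) (A T) := by
    intro T hT
    have hTF := Finset.mem_powerset.1 (Finset.mem_filter.1 hT).1
    ext U
    rw [Set.mem_preimage, Set.mem_singleton_iff, Set.mem_pi]
    constructor
    · intro h v hv
      simp only [hA, Set.mem_setOf_eq]
      rw [← h, hg, Finset.mem_filter]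
      exact ⟨fun h' => h'.2, fun h' => ⟨hv, h'⟩⟩
    · intro h
      ext v
      rw [hg, Finset.mem_filter]
      constructor
      · rintro ⟨hv, h'⟩
        exact (h v hv).2 h'
      · intro hv
        exact ⟨hTF hv, (h v (hTF hv)).1 hv⟩
  have hfm : ∀ T ∈ s, MeasurableSet (g ⁻¹' {T}) := by
    intro T hT
    rw [hfib T hT]
    exact MeasurableSet.pi F.countable_toSet fun v _ => (hvol T v).1
  have hev : {U : Site d → unitInterval | Q (F.filter (fun v => ¬ (U v : ℝ) < q))} =
      g ⁻¹' (s : Set (Finset (Site d))) := by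
    ext U
    rw [Set.mem_setOf_eq, Set.mem_preimage, Finset.mem_coe, hs, Finset.mem_filter,
      Finset.mem_powerset]
    exact ⟨fun h => ⟨Finset.filter_subset _ _, h⟩, fun h => h.2⟩
  have hmeas : ∀ T ∈ s, unif d (g ⁻¹' {T}) =
      ENNReal.ofReal ((1 - q) ^ T.card * q ^ (F \ T).card) := by
    intro T hT
    have hTF := Finset.mem_powerset.1 (Finset.mem_filter.1 hT).1
    rw [hfib T hT]
    unfold unif
    rw [Measure.infinitePi_pi (μ := fun _ : Site d => (volume : Measure unitInterval))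
      (fun v _ => (hvol T v).1)]
    have e1 : ∀ v ∈ F, (volume : Measure unitInterval) (A T v) =
        ENNReal.ofReal (if v ∈ T then 1 - q else q) := fun v _ => (hvol T v).2
    rw [Finset.prod_congr rfl e1, ← ENNReal.ofReal_prod_of_nonneg (fun v _ => by
      split_ifs <;> linarith)]
    congr 1
    rw [← Finset.prod_sdiff hTF]
    have e2 : ∏ v ∈ F \ T, (if v ∈ T then 1 - q else q) = q ^ (F \ T).card := by
      rw [Finset.prod_congr rfl (g := fun _ => q), Finset.prod_const]
      intro v hv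
      rw [if_neg (Finset.mem_sdiff.1 hv).2]
    have e3 : ∏ v ∈ T, (if v ∈ T then 1 - q else q) = (1 - q) ^ T.card := by
      rw [Finset.prod_congr rfl (g := fun _ => 1 - q), Finset.prod_const]
      intro v hv
      rw [if_pos hv]
    rw [e2, e3]; ring
  rw [hev, ← sum_measure_preimage_singleton s hfm, Finset.sum_congr rfl hmeas,
    ← ENNReal.ofReal_sum_of_nonneg (fun T _ => by
      have : 0 ≤ 1 - q := by linarith
      positivity)]
  congr 1
  unfold Ex
  rw [hs, Finset.sum_filter]
  refine Finset.sum_congr rfl fun T _ => ?_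
  have e4 : (1 : ℝ) - (1 - q) = q := by ring
  rw [e4]
  beta_reduce
  by_cases h : Q T
  · rw [if_pos h, if_pos h]; ring
  · rw [if_neg h, if_neg h]; ring

end Arms

section Slab2

variable {m : ℕ}

open Classical in
/-- percolation in the slab is bounded by escape probabilities without the planes -/
theorem perc_slab_le {b : ℝ} (hb0 : 0 ≤ b) (hb1 : b ≤ 1) (n : ℕ) :
    perc (slab 2 (m + 2)) b ≤ Ex (bx (0 : Site (m + 2)) n) b
      (fun T => fE (bx (0 : Site (m + 2)) n)
        (T \ (bx (0 : Site (m + 2)) n).filter (fun z => Pl z))) := by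
  set F := bx (0 : Site (m + 2)) n with hF
  have hsub : {U : Site (m + 2) → unitInterval |
      (cluster (slab 2 (m + 2) ∩ {v | 1 - b ≤ (U v : ℝ)})).Infinite} ⊆
      {U | Esc F (F.filter (fun v => ¬ (U v : ℝ) < 1 - b) \ F.filter (fun z => Pl z))} := by
    intro U hU
    rw [Set.mem_setOf_eq] at hU ⊢
    obtain ⟨y, hy, hyF⟩ := hU.exists_notMem_finset F
    refine ⟨y, hyF, ?_⟩
    refine Relation.ReflTransGen.mono ?_ _ _ hy.2
    rintro u v ⟨hn, hv1, hv2⟩
    refine ⟨hn, ?_⟩
    by_cases hvF : v ∈ F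
    · refine Or.inr (Or.inl ?_)
      rw [Finset.mem_sdiff, Finset.mem_filter, Finset.mem_filter]
      refine ⟨⟨hvF, not_lt.2 hv2⟩, fun h => ?_⟩
      have h1 := hv1 0 (by simp)
      have h2 := h.2
      unfold Pl at h2
      rcases h1 with h3 | h3 <;> rw [h3] at h2 <;> norm_num at h2
    · exact Or.inr (Or.inr hvF)
  unfold perc
  have h1 := measure_mono (μ := unif (m + 2)) hsub
  have h2 := unif_trace (d := m + 2) (q := 1 - b) (by linarith) (by linarith) F
    (fun T => Esc F (T \ F.filter (fun z => Pl z)))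
  rw [h2] at h1
  have e : (1 : ℝ) - (1 - b) = b := by ring
  rw [e] at h1
  have h3 := ENNReal.toReal_mono ENNReal.ofReal_ne_top h1
  rw [ENNReal.toReal_ofReal (Ex_nonneg hb0 hb1 fun T _ => by split_ifs <;> norm_num)] at h3
  exact h3

/-- there is a density above `p_c(ℤ^d)` without percolation in the slab -/
theorem slab_gap (m : ℕ) : ∃ b : ℝ, (Perc.pc (m + 2) : ℝ) < b ∧ b ≤ 1 ∧
    perc (slab 2 (m + 2)) b = 0 := by
  classical
  have hlt : Perc.pc (m + 2) < 1 := Perc.pc_lt_one (by omega)
  have hc0 : 0 < (Perc.pc (m + 2) : ℝ) := Perc.pc_pos _ hlt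
  have hc1 : (Perc.pc (m + 2) : ℝ) < 1 := by exact_mod_cast hlt
  set c : ℝ := (Perc.pc (m + 2) : ℝ) with hc
  set N := (bx (0 : Site (m + 2)) 5).card with hN
  have hN1 : 1 ≤ N := Finset.card_pos.2 ⟨0, self_mem_bx 0 5⟩
  have hN1' : (1 : ℝ) ≤ N := by exact_mod_cast hN1
  set ε : ℝ := min (c / 4) ((1 - c) / 2) with hε
  have hε0 : 0 < ε := lt_min (by linarith) (by linarith)
  have hε1 : ε ≤ c / 4 := min_le_left _ _
  have hε2 : ε ≤ (1 - c) / 2 := min_le_right _ _
  set κ : ℝ := min (ε ^ N / N) ((1 - c) / 2) with hκ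
  have hκ0 : 0 < κ := lt_min (by positivity) (by linarith)
  have hκ1 : κ * N ≤ ε ^ N := by
    have : κ ≤ ε ^ N / N := min_le_left _ _
    rwa [le_div_iff₀ (by linarith)] at this
  have hκ2 : κ ≤ (1 - c) / 2 := min_le_right _ _
  set b0 : ℝ := c * (1 + κ / 4) / (1 + κ / 2) with hb0
  have hden : 0 < 1 + κ / 2 := by linarith
  have hb0c : b0 < c := by
    rw [hb0, div_lt_iff₀ hden]; nlinarith
  have hb0h : c / 2 ≤ b0 := by
    rw [hb0, le_div_iff₀ hden]; nlinarith
  have hb0p : 0 < b0 := by linarith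
  set b : ℝ := b0 + κ * (b0 / 2) with hb
  have hbe : b = c * (1 + κ / 4) := by
    have : b = b0 * (1 + κ / 2) := by rw [hb]; ring
    rw [this, hb0]; field_simp
  have hbc : c < b := by rw [hbe]; nlinarith
  have hb1 : b ≤ 1 - ε := by
    rw [hbe]
    have : c * (κ / 4) ≤ κ / 4 := mul_le_of_le_one_left (by linarith) hc1.le
    nlinarith
  refine ⟨b, hbc, by linarith, ?_⟩
  refine le_antisymm ?_ (perc_nonneg _ _)
  refine le_of_forall_pos_lt_add fun δ hδ => ?_
  obtain ⟨n, hn⟩ := escape_small (d := m + 2) hb0p hb0c hδ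
  set F := bx (0 : Site (m + 2)) n with hF
  have h1 := perc_slab_le (m := m) (b := b) (by linarith) (by linarith) n
  have h2 : Ex F b (fun T => fE F (T \ F.filter (fun z => Pl z))) =
      ExW F (fun z => if Pl z then 0 else b) (fE F) := by
    refine Ex_sdiff_eq F (F.filter (fun z => Pl z)) b (fE F) _ fun i hi => ?_
    by_cases h : Pl i
    · rw [if_pos h, if_pos (Finset.mem_filter.2 ⟨hi, h⟩)]
    · rw [if_neg h, if_neg fun h' => h (Finset.mem_filter.1 h').2]
  have h3 : ExW F (fun z => if Pl z then 0 else b) (fE F) ≤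
      ExW F (fun z => if Pl z then b0 - b0 / 2 else b0 + κ * (b0 / 2)) (fE F) := by
    refine ExW_mono_w (fun i _ => ?_) (fun i _ => ?_) (fun i _ => ?_)
      fun s t hst => fE_mono F hst
    · split_ifs <;> linarith
    · by_cases h : Pl i
      · rw [if_pos h, if_pos h]; linarith
      · rw [if_neg h, if_neg h]
    · by_cases h : Pl i
      · rw [if_pos h]; linarith
      · rw [if_neg h]; linarith
  have h4 := curve F (ε := ε) (κ := κ) (b0 := b0) (t1 := b0 / 2) hε0 hκ0.le (by linarith)
    (by linarith) (by linarith) hb1 hκ1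
  have h5 : perc (slab 2 (m + 2)) b ≤ Ex F b0 (fE F) := by
    refine h1.trans ?_
    rw [h2]
    exact h3.trans h4
  linarith

end Slab2

theorem perc_mono_set {d : ℕ} {H H' : Set (Site d)} (h : H ⊆ H') (b : ℝ) :
    perc H b ≤ perc H' b := by
  unfold perc
  refine ENNReal.toReal_mono (measure_ne_top _ _) (measure_mono fun U hU => ?_)
  refine Set.Infinite.mono ?_ hU
  rintro y ⟨h0, hp⟩
  refine ⟨⟨h h0.1, h0.2⟩, Relation.ReflTransGen.mono ?_ _ _ hp⟩
  rintro u w ⟨hn, hw⟩
  exact ⟨hn, h hw.1, hw.2⟩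

theorem slab_anti {d r r' : ℕ} (h : r ≤ r') : slab r' d ⊆ slab r d :=
  fun _ hx i hi => hx i (hi.trans_le h)

/-- **strict inequality** -/
theorem pc_lt_slab {r d : ℕ} (hr : 2 ≤ r) (hd : 2 ≤ d) :
    (Perc.pc d : ℝ) < pcSite (slab r d) := by
  obtain ⟨m, rfl⟩ : ∃ m, d = m + 2 := ⟨d - 2, by omega⟩
  obtain ⟨b, h1, h2, h3⟩ := slab_gap m
  have h4 : perc (slab r (m + 2)) b = 0 :=
    le_antisymm ((perc_mono_set (slab_anti hr) b).trans h3.le) (perc_nonneg _ _)
  have hb0 : 0 ≤ b := (Perc.pc (m + 2)).2.1.trans h1.le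
  exact h1.trans_le (le_csSup ⟨1, fun _ h => h.2.1⟩ ⟨hb0, h2, h4⟩)

end Pool.Agent.PBP
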