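import Pool.Agent.PBP.Oss

/-!
Integration of the differential inequality in the plane `(log a, log q)`.
-/

open Finset MeasureTheory

namespace Pool.Agent.PBP

open F368

variable {d : ℕ}

theorem Psi_pos (r t : ℕ) {a b : ℝ}
    (ha : 0 < a) (ha' : a ≤ 1) (hb : 0 < b) (hb' : b ≤ 1) : 0 < Psi r d t a b :=
  (mul_pos ha hb).trans_le (Psi_lower r t ha.le ha' hb.le hb')

theorem E2_le_one {F : Finset (Site d)} {K : Finset (Site d) → Finset (Site d) → ℝ} {a b : ℝ}
    (ha : 0 ≤ a) (ha' : a ≤ 1) (hb : 0 ≤ b) (hb' : b ≤ 1)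
    (h : ∀ S T, K S T ≤ 1) : E2 F K a b ≤ 1 :=
  Ex_le_const ha ha' fun S _ => Ex_le_const hb hb' fun T _ => h S T

theorem PsiA_nonneg (r t : ℕ) {a b : ℝ}
    (ha : 0 ≤ a) (ha' : a ≤ 1) (hb : 0 ≤ b) (hb' : b ≤ 1) : 0 ≤ PsiA r d t a b := by
  unfold PsiA
  refine Finset.sum_nonneg fun x _ => E2_nonneg ha ha' hb hb' fun S T _ _ => ?_
  exact sub_nonneg.2 (ind_mono ((Finset.erase_subset x S).trans (Finset.subset_insert x S))
    subset_rfl)

theorem PsiA_le (r t : ℕ) {a b : ℝ}
    (ha : 0 ≤ a) (ha' : a ≤ 1) (hb : 0 ≤ b) (hb' : b ≤ 1) :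
    PsiA r d t a b ≤ (bx (0 : Site d) t).card := by
  unfold PsiA
  refine (Finset.sum_le_card_nsmul _ _ 1 fun x _ => E2_le_one ha ha' hb hb' fun S T => ?_).trans
    (by simp)
  have h1 := ind_le_one r t (0 : Site d) (insert x S) T
  have h2 := ind_nonneg r t (0 : Site d) (S.erase x) T
  linarith

/-- the basic functional -/
noncomputable def logI (r d t : ℕ) (q1 q2 a : ℝ) : ℝ :=
  ∫ q in q1..q2, Real.log (Psi r d t a (1 - q)) / q

theorem cont_q (r d t : ℕ) (a : ℝ) : Continuous (fun q : ℝ => Psi r d t a (1 - q)) :=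
  (Psi_continuous r d t).comp (by fun_prop : Continuous fun q : ℝ => ((a, 1 - q) : ℝ × ℝ))

theorem cont_qA (r d t : ℕ) (a : ℝ) : Continuous (fun q : ℝ => PsiA r d t a (1 - q)) :=
  (PsiA_continuous r d t).comp (by fun_prop : Continuous fun q : ℝ => ((a, 1 - q) : ℝ × ℝ))

theorem cont_qB (r d t : ℕ) (a : ℝ) : Continuous (fun q : ℝ => PsiB r d t a (1 - q)) :=
  (PsiB_continuous r d t).comp (by fun_prop : Continuous fun q : ℝ => ((a, 1 - q) : ℝ × ℝ))

theorem contOn_log (r t : ℕ) {a q1 q2 : ℝ} (ha : 0 < a) (ha' : a ≤ 1) (h1 : 0 < q1)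
    (h12 : q1 ≤ q2) (h2 : q2 < 1) :
    ContinuousOn (fun q => Real.log (Psi r d t a (1 - q)) / q) (Set.uIcc q1 q2) := by
  rw [Set.uIcc_of_le h12]
  refine ContinuousOn.div (ContinuousOn.log (cont_q r d t a).continuousOn fun q hq => ?_)
    continuousOn_id fun q hq => ?_
  · exact (Psi_pos r t ha ha' (by linarith [hq.2]) (by linarith [hq.1])).ne'
  · exact (h1.trans_le hq.1).ne'

theorem logI_le_zero (r t : ℕ) {a q1 q2 : ℝ} (ha : 0 < a) (ha' : a ≤ 1) (h1 : 0 < q1)
    (h12 : q1 ≤ q2) (h2 : q2 < 1) : logI r d t q1 q2 a ≤ 0 := by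
  unfold logI
  rw [← neg_nonneg, ← intervalIntegral.integral_neg]
  refine intervalIntegral.integral_nonneg h12 fun q hq => ?_
  have hp := Psi_pos (d := d) r t ha ha' (b := 1 - q) (by linarith [hq.2]) (by linarith [hq.1])
  have hl := Psi_le_one (d := d) r t ha.le ha' (b := 1 - q) (by linarith [hq.2])
    (by linarith [hq.1])
  have := Real.log_nonpos hp.le hl
  have hq0 : 0 < q := h1.trans_le hq.1
  rw [neg_nonneg]
  exact div_nonpos_of_nonpos_of_nonneg this hq0.le

theorem logI_ge (r t : ℕ) {a q1 q2 : ℝ} (ha : 0 < a) (ha' : a ≤ 1) (h1 : 0 < q1)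
    (h12 : q1 ≤ q2) (h2 : q2 < 1) :
    Real.log (q2 / q1) * Real.log (Psi r d t a (1 - q2)) ≤ logI r d t q1 q2 a := by
  have e : Real.log (q2 / q1) * Real.log (Psi r d t a (1 - q2)) =
      ∫ q in q1..q2, Real.log (Psi r d t a (1 - q2)) * q⁻¹ := by
    rw [intervalIntegral.integral_const_mul, integral_inv_of_pos h1 (h1.trans_le h12)]
    ring
  rw [e]
  unfold logI
  refine intervalIntegral.integral_mono_on h12 ?_ ?_ fun q hq => ?_
  · refine ContinuousOn.intervalIntegrable ?_
    rw [Set.uIcc_of_le h12]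
    exact continuousOn_const.mul (continuousOn_id.inv₀ fun q hq => (h1.trans_le hq.1).ne')
  · exact (contOn_log r t ha ha' h1 h12 h2).intervalIntegrable
  · have hq0 : 0 < q := h1.trans_le hq.1
    rw [div_eq_mul_inv]
    refine mul_le_mul_of_nonneg_right ?_ (inv_nonneg.2 hq0.le)
    refine Real.log_le_log (Psi_pos r t ha ha' (by linarith) (by linarith)) ?_
    exact Psi_mono_b r t ha.le ha' (by linarith) (by linarith [hq.2]) (by linarith)

theorem logI_hasDeriv (r t : ℕ) {a q1 q2 : ℝ} (ha : 0 < a) (ha' : a < 1) (h1 : 0 < q1)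
    (h12 : q1 ≤ q2) (h2 : q2 < 1) :
    ∃ D, HasDerivAt (fun a => logI r d t q1 q2 a) D a ∧
      (1 / a) * ((1 - Psi r d t a (1 - q1)) * Real.log (q2 / q1) - Psi r d t a (1 - q1) +
        Psi r d t a (1 - q2)) ≤ D := by
  have hq2 : 0 < q2 := h1.trans_le h12
  set F : ℝ → ℝ → ℝ := fun x q => Real.log (Psi r d t x (1 - q)) / q with hF
  set F' : ℝ → ℝ → ℝ := fun x q => PsiA r d t x (1 - q) / Psi r d t x (1 - q) / q with hF'
  have hm : ∀ x, Measurable (F x) := fun x =>
    (Real.measurable_log.comp (cont_q r d t x).measurable).div measurable_id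
  have hm' : ∀ x, Measurable (F' x) := fun x =>
    ((cont_qA r d t x).measurable.div (cont_q r d t x).measurable).div measurable_id
  set C : ℝ := (bx (0 : Site d) t).card / ((a / 2) * (1 - q2)) / q1 with hC
  have key := intervalIntegral.hasDerivAt_integral_of_dominated_loc_of_deriv_le
    (μ := volume) (a := q1) (b := q2) (F := F) (F' := F') (x₀ := a) (s := Set.Ioo (a / 2) 1)
    (bound := fun _ => C) (Ioo_mem_nhds (by linarith) ha')
    (Filter.Eventually.of_forall fun x => (hm x).aestronglyMeasurable)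
    ((contOn_log r t ha ha'.le h1 h12 h2).intervalIntegrable)
    ((hm' a).aestronglyMeasurable)
    (Filter.Eventually.of_forall fun q hq x hx => by
      rw [Set.uIoc_of_le h12] at hq
      have hq0 : 0 < q := h1.trans hq.1
      have hx0 : 0 < x := by linarith [hx.1]
      have b0 : 0 < 1 - q := by linarith [hq.2]
      have hp := Psi_pos (d := d) r t hx0 hx.2.le (b := 1 - q) b0 (by linarith)
      have hA := PsiA_nonneg (d := d) r t hx0.le hx.2.le (b := 1 - q) b0.le (by linarith)
      have hA' := PsiA_le (d := d) r t hx0.le hx.2.le (b := 1 - q) b0.le (by linarith)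
      have hlow := Psi_lower (d := d) r t hx0.le hx.2.le (b := 1 - q) b0.le (by linarith)
      have hlow2 : (a / 2) * (1 - q2) ≤ Psi r d t x (1 - q) := by
        refine le_trans ?_ hlow
        exact mul_le_mul hx.1.le (by linarith [hq.2]) (by linarith) hx0.le
      have hc : 0 < (a / 2) * (1 - q2) := mul_pos (by linarith) (by linarith)
      have e0 : 0 ≤ F' x q := div_nonneg (div_nonneg hA hp.le) hq0.le
      rw [Real.norm_of_nonneg e0]
      exact div_le_div₀ (div_nonneg (Nat.cast_nonneg _) hc.le)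
        (div_le_div₀ (Nat.cast_nonneg _) hA' hc hlow2) h1 hq.1.le)
    (intervalIntegrable_const)
    (Filter.Eventually.of_forall fun q hq x hx => by
      rw [Set.uIoc_of_le h12] at hq
      have hx0 : 0 < x := by linarith [hx.1]
      have b0 : 0 < 1 - q := by linarith [hq.2]
      have hp := Psi_pos (d := d) r t hx0 hx.2.le (b := 1 - q) b0 (by linarith [hq.1])
      exact ((hasDerivAt_Psi_a r t x (1 - q)).log hp.ne').div_const q)
  refine ⟨_, key.2, ?_⟩
  -- the lower bound for the derivative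
  set P1 := Psi r d t a (1 - q1) with hP1
  have hint : ∫ q in q1..q2, PsiB r d t a (1 - q) =
      Psi r d t a (1 - q1) - Psi r d t a (1 - q2) := by
    have := intervalIntegral.integral_eq_sub_of_hasDerivAt (a := q1) (b := q2)
      (f := fun q => -Psi r d t a (1 - q)) (f' := fun q => PsiB r d t a (1 - q))
      (fun q _ => by
        have h := (hasDerivAt_Psi_b (d := d) r t a (1 - q)).comp q
          ((hasDerivAt_id q).const_sub 1)
        have h' := h.neg
        refine (h'.congr_deriv (by ring))) ((cont_qB r d t a).intervalIntegrable _ _)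
    rw [this]; ring
  have e : (1 / a) * ((1 - P1) * Real.log (q2 / q1) - P1 + Psi r d t a (1 - q2)) =
      ∫ q in q1..q2, (1 / a) * ((1 - P1) * q⁻¹ - PsiB r d t a (1 - q)) := by
    have ii : IntervalIntegrable (fun q : ℝ => (1 - P1) * q⁻¹) volume q1 q2 := by
      refine ContinuousOn.intervalIntegrable ?_
      rw [Set.uIcc_of_le h12]
      exact continuousOn_const.mul (continuousOn_id.inv₀ fun q hq => (h1.trans_le hq.1).ne')
    rw [intervalIntegral.integral_const_mul, intervalIntegral.integral_sub ii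
      ((cont_qB r d t a).intervalIntegrable _ _), intervalIntegral.integral_const_mul,
      integral_inv_of_pos h1 hq2, hint]
    ring
  rw [e]
  refine intervalIntegral.integral_mono_on h12 ?_ key.1 fun q hq => ?_
  · refine ContinuousOn.intervalIntegrable ?_
    rw [Set.uIcc_of_le h12]
    refine continuousOn_const.mul (ContinuousOn.sub ?_ (cont_qB r d t a).continuousOn)
    exact continuousOn_const.mul (continuousOn_id.inv₀ fun q hq => (h1.trans_le hq.1).ne')
  · have hq0 : 0 < q := h1.trans_le hq.1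
    have b0 : 0 < 1 - q := by linarith [hq.2]
    have hp := Psi_pos (d := d) r t ha ha'.le (b := 1 - q) b0 (by linarith)
    have hA := PsiA_nonneg (d := d) r t ha.le ha'.le (b := 1 - q) b0.le (by linarith)
    have hs := star r d t ha.le ha'.le b0 (by linarith : 1 - q ≤ 1)
    have hmono : Psi r d t a (1 - q) ≤ P1 :=
      Psi_mono_b r t ha.le ha'.le b0.le (by linarith [hq.1]) (by linarith)
    change (1 / a) * ((1 - P1) * q⁻¹ - PsiB r d t a (1 - q)) ≤
      PsiA r d t a (1 - q) / Psi r d t a (1 - q) / q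
    set P := Psi r d t a (1 - q) with hP
    set A := PsiA r d t a (1 - q) with hAdef
    set B := PsiB r d t a (1 - q) with hB
    have e1 : (1 / a) * ((1 - P1) * q⁻¹ - B) = ((1 - P1) - q * B) / (a * q) := by
      field_simp
    have e2 : A / P / q = (a * A / P) / (a * q) := by
      field_simp
    rw [e1, e2]
    refine div_le_div_of_nonneg_right ?_ (mul_pos ha hq0).le
    rw [le_div_iff₀ hp]
    have k1 : (1 - P1 - q * B) * P ≤ P * (1 - P) - q * (P * B) := by
      nlinarith [mul_nonneg hp.le (sub_nonneg.2 hmono)]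
    have k2 : a * (1 - a) * A ≤ a * A := by
      nlinarith [mul_nonneg (mul_nonneg ha.le ha.le) hA]
    have k3 : (1 - (1 - q)) * (P * B) = q * (P * B) := by ring
    linarith [k1, k2, k3, hs]

end Pool.Agent.PBP
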