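import Pool.Agent.PBP.An1

/-!
The infinite volume limit.
-/

open Finset MeasureTheory Filter Topology

namespace Pool.Agent.PBP

open F368

variable {d : ℕ}

/-- integrated form of the differential inequality -/
theorem ineqC (r t : ℕ) {a1 a2 q1 q2 : ℝ} (ha1 : 0 < a1) (ha12 : a1 ≤ a2) (ha2 : a2 < 1)
    (h1 : 0 < q1) (h12 : q1 ≤ q2) (h2 : q2 < 1) :
    Real.log (a2 / a1) * ((1 - Psi r d t a2 (1 - q1)) * Real.log (q2 / q1) -
      Psi r d t a2 (1 - q1) + Psi r d t a1 (1 - q2)) ≤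
      -(Real.log (q2 / q1) * Real.log (Psi r d t a1 (1 - q2))) := by
  set K : ℝ := (1 - Psi r d t a2 (1 - q1)) * Real.log (q2 / q1) -
      Psi r d t a2 (1 - q1) + Psi r d t a1 (1 - q2) with hK
  have hL : 0 ≤ Real.log (q2 / q1) := Real.log_nonneg ((one_le_div h1).2 h12)
  have hder : ∀ a ∈ Set.Icc a1 a2, ∃ D, HasDerivAt (fun a => logI r d t q1 q2 a) D a ∧
      K / a ≤ D := by
    intro a ha
    have ha0 : 0 < a := ha1.trans_le ha.1
    have ha' : a < 1 := ha.2.trans_lt ha2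
    obtain ⟨D, hD, hle⟩ := logI_hasDeriv (d := d) r t ha0 ha' h1 h12 h2
    refine ⟨D, hD, le_trans ?_ hle⟩
    rw [div_eq_inv_mul, one_div]
    refine mul_le_mul_of_nonneg_left ?_ (inv_nonneg.2 ha0.le)
    have m1 : Psi r d t a (1 - q1) ≤ Psi r d t a2 (1 - q1) :=
      Psi_mono_a r t ha0.le ha.2 ha2.le (by linarith) (by linarith)
    have m2 : Psi r d t a1 (1 - q2) ≤ Psi r d t a (1 - q2) :=
      Psi_mono_a r t ha1.le ha.1 ha'.le (by linarith) (by linarith)
    have m3 := mul_le_mul_of_nonneg_right m1 hL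
    rw [hK]
    linarith [m1, m2, m3]
  have hmono : MonotoneOn (fun a => logI r d t q1 q2 a - K * Real.log a) (Set.Icc a1 a2) := by
    refine monotoneOn_of_deriv_nonneg (convex_Icc a1 a2) ?_ ?_ ?_
    · intro a ha
      obtain ⟨D, hD, -⟩ := hder a ha
      have ha0 : 0 < a := ha1.trans_le ha.1
      exact (hD.sub ((Real.hasDerivAt_log ha0.ne').const_mul K)).continuousAt.continuousWithinAt
    · intro a ha
      rw [interior_Icc] at ha
      obtain ⟨D, hD, -⟩ := hder a ⟨ha.1.le, ha.2.le⟩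
      have ha0 : 0 < a := ha1.trans ha.1
      exact (hD.sub ((Real.hasDerivAt_log
        ha0.ne').const_mul K)).differentiableAt.differentiableWithinAt
    · intro a ha
      rw [interior_Icc] at ha
      obtain ⟨D, hD, hle⟩ := hder a ⟨ha.1.le, ha.2.le⟩
      have ha0 : 0 < a := ha1.trans ha.1
      have h := (hD.sub ((Real.hasDerivAt_log ha0.ne').const_mul K)).deriv
      have h' : deriv (fun a => logI r d t q1 q2 a - K * Real.log a) a = D - K * a⁻¹ := h
      rw [h']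
      have : K * a⁻¹ = K / a := (div_eq_mul_inv _ _).symm
      linarith
  have h3 := hmono ⟨le_rfl, ha12⟩ ⟨ha12, le_rfl⟩ ha12
  simp only at h3
  have h4 := logI_le_zero (d := d) r t (ha1.trans_le ha12) ha2.le h1 h12 h2
  have h5 := logI_ge (d := d) r t ha1 (ha12.trans ha2.le) h1 h12 h2
  rw [Real.log_div (ha1.trans_le ha12).ne' ha1.ne']
  nlinarith [h3, h4, h5]

/-- if the occupation probability decays like a square root at `q1`, it decays linearly at
`q2 > q1` -/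
theorem linear_of_sqrt (r t : ℕ) {a0 q1 q2 : ℝ} (ha0 : 0 < a0) (ha0' : a0 < 1)
    (h1 : 0 < q1) (h12 : q1 < q2) (h2 : q2 < 1)
    (H : ∀ a, 0 < a → a ≤ a0 → Psi r d t a (1 - q1) ≤ Real.sqrt (a / a0))
    {a : ℝ} (ha : 0 < a) (haa : a ≤ a0) :
    Psi r d t a (1 - q2) ≤
      (a / a0) * Real.exp (2 * (1 + Real.log (q2 / q1)) / Real.log (q2 / q1)) := by
  set L : ℝ := Real.log (q2 / q1) with hLdef
  have hL : 0 < L := Real.log_pos ((one_lt_div h1).2 h12)
  have hs : ∀ x, 0 < x → HasDerivAt (fun x => Real.sqrt (x / a0))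
      (Real.sqrt (x / a0) / (2 * x)) x := by
    intro x hx
    have hxa : 0 < x / a0 := div_pos hx ha0
    have h := ((hasDerivAt_id x).div_const a0).sqrt hxa.ne'
    refine h.congr_deriv ?_
    simp only [id]
    have hsq : Real.sqrt (x / a0) * Real.sqrt (x / a0) = x / a0 := Real.mul_self_sqrt hxa.le
    have hspos : 0 < Real.sqrt (x / a0) := Real.sqrt_pos.2 hxa
    rw [div_eq_div_iff (by positivity) (by positivity)]
    have : Real.sqrt (x / a0) * (2 * Real.sqrt (x / a0)) = 2 * (x / a0) := by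
      linear_combination 2 * hsq
    rw [this]
    field_simp
  have hmono : MonotoneOn (fun a => logI r d t q1 q2 a - L * Real.log a +
      2 * (1 + L) * Real.sqrt (a / a0)) (Set.Icc a a0) := by
    have hder : ∀ x ∈ Set.Icc a a0, ∃ D, HasDerivAt (fun a => logI r d t q1 q2 a -
        L * Real.log a + 2 * (1 + L) * Real.sqrt (a / a0)) D x ∧ 0 ≤ D := by
      intro x hx
      have hx0 : 0 < x := ha.trans_le hx.1
      have hx1 : x < 1 := hx.2.trans_lt ha0'
      obtain ⟨D, hD, hle⟩ := logI_hasDeriv (d := d) r t hx0 hx1 h1 h12.le h2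
      refine ⟨_, (hD.sub ((Real.hasDerivAt_log hx0.ne').const_mul L)).add
        ((hs x hx0).const_mul (2 * (1 + L))), ?_⟩
      have hH := H x hx0 hx.2
      have hn : 0 ≤ Psi r d t x (1 - q2) :=
        Psi_nonneg r t hx0.le hx1.le (by linarith) (by linarith)
      have k : (1 / x) * (L - (1 + L) * Real.sqrt (x / a0)) ≤ D := by
        refine le_trans (mul_le_mul_of_nonneg_left ?_ (by positivity)) hle
        nlinarith [mul_nonneg (by linarith : (0 : ℝ) ≤ 1 + L) (sub_nonneg.2 hH)]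
      have e1 : L * x⁻¹ = (1 / x) * L := by rw [one_div]; ring
      have e2 : 2 * (1 + L) * (Real.sqrt (x / a0) / (2 * x)) =
          (1 / x) * ((1 + L) * Real.sqrt (x / a0)) := by
        field_simp
      rw [e1, e2]
      nlinarith [k]
    refine monotoneOn_of_deriv_nonneg (convex_Icc a a0) ?_ ?_ ?_
    · intro x hx
      obtain ⟨D, hD, -⟩ := hder x hx
      exact hD.continuousAt.continuousWithinAt
    · intro x hx
      rw [interior_Icc] at hx
      obtain ⟨D, hD, -⟩ := hder x ⟨hx.1.le, hx.2.le⟩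
      exact hD.differentiableAt.differentiableWithinAt
    · intro x hx
      rw [interior_Icc] at hx
      obtain ⟨D, hD, hD0⟩ := hder x ⟨hx.1.le, hx.2.le⟩
      rw [hD.deriv]; exact hD0
  have h3 := hmono ⟨le_rfl, haa⟩ ⟨haa, le_rfl⟩ haa
  simp only at h3
  have h4 := logI_le_zero (d := d) r t ha0 ha0'.le h1 h12.le h2
  have h5 := logI_ge (d := d) r t ha (haa.trans ha0'.le) h1 h12.le h2
  have hp := Psi_pos (d := d) r t ha (haa.trans ha0'.le) (b := 1 - q2) (by linarith)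
    (by linarith)
  rw [div_self ha0.ne', Real.sqrt_one] at h3
  have h6 : 0 ≤ Real.sqrt (a / a0) := Real.sqrt_nonneg _
  have h7 : L * Real.log (Psi r d t a (1 - q2)) ≤
      L * Real.log (a / a0) + 2 * (1 + L) := by
    rw [Real.log_div ha.ne' ha0.ne']
    nlinarith [h3, h4, h5, mul_nonneg (by linarith : (0 : ℝ) ≤ 2 * (1 + L)) h6]
  have h8 : Real.log (Psi r d t a (1 - q2)) ≤ Real.log (a / a0) + 2 * (1 + L) / L := by
    have e : L * (Real.log (a / a0) + 2 * (1 + L) / L) =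
        L * Real.log (a / a0) + 2 * (1 + L) := by
      field_simp
    rw [← e] at h7
    exact le_of_mul_le_mul_left h7 hL
  have haa0 : 0 < a / a0 := div_pos ha ha0
  calc Psi r d t a (1 - q2) = Real.exp (Real.log (Psi r d t a (1 - q2))) :=
        (Real.exp_log hp).symm
    _ ≤ Real.exp (Real.log (a / a0) + 2 * (1 + L) / L) := Real.exp_le_exp.2 h8
    _ = (a / a0) * Real.exp (2 * (1 + L) / L) := by rw [Real.exp_add, Real.exp_log haa0]

/-- the infinite volume occupation probability -/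
noncomputable def Pinf (r d : ℕ) (a q : ℝ) : ℝ := ⨆ t, Psi r d t a (1 - q)

theorem Pinf_tendsto (r d : ℕ) {a q : ℝ} (ha : 0 ≤ a) (ha' : a ≤ 1) (hq : 0 ≤ q)
    (hq' : q ≤ 1) : Tendsto (fun t => Psi r d t a (1 - q)) atTop (𝓝 (Pinf r d a q)) :=
  tendsto_atTop_ciSup (fun _ _ h => Psi_mono_t r h ha ha' (by linarith) (by linarith))
    ⟨1, by rintro _ ⟨t, rfl⟩; exact Psi_le_one r t ha ha' (by linarith) (by linarith)⟩

theorem Psi_le_Pinf (r d t : ℕ) {a q : ℝ} (ha : 0 ≤ a) (ha' : a ≤ 1) (hq : 0 ≤ q)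
    (hq' : q ≤ 1) : Psi r d t a (1 - q) ≤ Pinf r d a q :=
  le_ciSup (f := fun t => Psi r d t a (1 - q))
    ⟨1, by rintro _ ⟨t, rfl⟩; exact Psi_le_one r t ha ha' (by linarith) (by linarith)⟩ t

theorem Pinf_le (r d : ℕ) {a q c : ℝ} (h : ∀ t, Psi r d t a (1 - q) ≤ c) :
    Pinf r d a q ≤ c := ciSup_le h

theorem Pinf_mono_a (r d : ℕ) {a a' q : ℝ} (ha : 0 ≤ a) (haa : a ≤ a') (ha' : a' ≤ 1)
    (hq : 0 ≤ q) (hq' : q ≤ 1) : Pinf r d a q ≤ Pinf r d a' q :=
  Pinf_le r d fun t => (Psi_mono_a r t ha haa ha' (by linarith) (by linarith)).trans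
    (Psi_le_Pinf r d t (ha.trans haa) ha' hq hq')

theorem Pinf_anti_q (r d : ℕ) {a q q' : ℝ} (ha : 0 ≤ a) (ha' : a ≤ 1)
    (hq : 0 ≤ q) (hqq : q ≤ q') (hq' : q' ≤ 1) : Pinf r d a q' ≤ Pinf r d a q :=
  Pinf_le r d fun t => (Psi_mono_b r t ha ha' (by linarith) (by linarith) (by linarith)).trans
    (Psi_le_Pinf r d t ha ha' hq (hqq.trans hq'))

theorem Pinf_le_one (r d : ℕ) {a q : ℝ} (ha : 0 ≤ a) (ha' : a ≤ 1) (hq : 0 ≤ q)
    (hq' : q ≤ 1) : Pinf r d a q ≤ 1 :=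
  Pinf_le r d fun t => Psi_le_one r t ha ha' (by linarith) (by linarith)

theorem Pinf_pos (r d : ℕ) {a q : ℝ} (ha : 0 < a) (ha' : a ≤ 1) (hq : 0 ≤ q)
    (hq' : q < 1) : 0 < Pinf r d a q :=
  (Psi_pos r 0 ha ha' (by linarith) (by linarith)).trans_le
    (Psi_le_Pinf r d 0 ha.le ha' hq hq'.le)

/-- the integrated inequality in infinite volume -/
theorem limC (r d : ℕ) {a1 a2 q1 q2 : ℝ} (ha1 : 0 < a1) (ha12 : a1 ≤ a2) (ha2 : a2 < 1)
    (h1 : 0 < q1) (h12 : q1 ≤ q2) (h2 : q2 < 1) :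
    Real.log (a2 / a1) * ((1 - Pinf r d a2 q1) * Real.log (q2 / q1) -
      Pinf r d a2 q1 + Pinf r d a1 q2) ≤
      -(Real.log (q2 / q1) * Real.log (Pinf r d a1 q2)) := by
  have t1 := Pinf_tendsto r d (ha1.le.trans ha12) ha2.le h1.le (h12.trans h2.le)
  have t2 := Pinf_tendsto r d ha1.le (ha12.trans ha2.le) (h1.le.trans h12) h2.le
  have hp := Pinf_pos r d ha1 (ha12.trans ha2.le) (h1.le.trans h12) h2
  have t3 := (t2.log hp.ne').const_mul (Real.log (q2 / q1))
  have t4 := ((((t1.const_sub 1).mul_const (Real.log (q2 / q1))).sub t1).add t2).const_mul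
    (Real.log (a2 / a1))
  exact le_of_tendsto_of_tendsto' t4 t3.neg fun t => ineqC r t ha1 ha12 ha2 h1 h12 h2

section Plus

variable {r : ℕ} {Pp : ℝ → ℝ}

theorem Pp_le (h : ∀ q, 0 ≤ q → q < 1 →
      Tendsto (fun a => Pinf r d a q) (𝓝[>] 0) (𝓝 (Pp q)))
    {a q : ℝ} (ha : 0 < a) (ha' : a ≤ 1) (hq : 0 ≤ q) (hq' : q < 1) :
    Pp q ≤ Pinf r d a q := by
  refine le_of_tendsto (h q hq hq') ?_
  filter_upwards [Ioo_mem_nhdsGT ha] with x hx
  exact Pinf_mono_a r d hx.1.le hx.2.le ha' hq hq'.le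

theorem Pp_nonneg (h : ∀ q, 0 ≤ q → q < 1 →
      Tendsto (fun a => Pinf r d a q) (𝓝[>] 0) (𝓝 (Pp q)))
    {q : ℝ} (hq : 0 ≤ q) (hq' : q < 1) : 0 ≤ Pp q := by
  refine ge_of_tendsto (h q hq hq') ?_
  filter_upwards [Ioo_mem_nhdsGT (zero_lt_one (α := ℝ))] with x hx
  exact (Pinf_pos r d hx.1 hx.2.le hq hq').le

theorem Pp_le_one (h : ∀ q, 0 ≤ q → q < 1 →
      Tendsto (fun a => Pinf r d a q) (𝓝[>] 0) (𝓝 (Pp q)))
    {q : ℝ} (hq : 0 ≤ q) (hq' : q < 1) : Pp q ≤ 1 :=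
  (Pp_le h one_pos le_rfl hq hq').trans (Pinf_le_one r d zero_le_one le_rfl hq hq'.le)

theorem Pp_anti (h : ∀ q, 0 ≤ q → q < 1 →
      Tendsto (fun a => Pinf r d a q) (𝓝[>] 0) (𝓝 (Pp q)))
    {q q' : ℝ} (hq : 0 ≤ q) (hqq : q ≤ q') (hq' : q' < 1) : Pp q' ≤ Pp q := by
  refine le_of_tendsto_of_tendsto (h q' (hq.trans hqq) hq') (h q hq (hqq.trans_lt hq')) ?_
  filter_upwards [Ioo_mem_nhdsGT (zero_lt_one (α := ℝ))] with x hx
  exact Pinf_anti_q r d hx.1.le hx.2.le hq hqq hq'.le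

theorem step1 (h : ∀ q, 0 ≤ q → q < 1 →
      Tendsto (fun a => Pinf r d a q) (𝓝[>] 0) (𝓝 (Pp q)))
    {q1 q2 : ℝ} (h1 : 0 < q1) (h12 : q1 ≤ q2) (h2 : q2 < 1) (hpos : 0 < Pp q2) :
    (1 - Pp q1) * Real.log (q2 / q1) ≤ Pp q1 - Pp q2 := by
  set L := Real.log (q2 / q1) with hLdef
  have hL : 0 ≤ L := Real.log_nonneg ((one_le_div h1).2 h12)
  by_contra hcon
  push Not at hcon
  set c : ℝ := ((1 - Pp q1) * L - Pp q1 + Pp q2) / 2 with hc
  have hc0 : 0 < c := by rw [hc]; linarith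
  have hq1 : q1 < 1 := h12.trans_lt h2
  have hq2 : 0 < q2 := h1.trans_le h12
  -- choose `a2`
  have t1 : Tendsto (fun a => (1 - Pinf r d a q1) * L - Pinf r d a q1 + Pp q2) (𝓝[>] 0)
      (𝓝 ((1 - Pp q1) * L - Pp q1 + Pp q2)) :=
    ((((h q1 h1.le hq1).const_sub 1).mul_const L).sub (h q1 h1.le hq1)).add_const _
  have hev : ∀ᶠ a in 𝓝[>] (0 : ℝ), c < (1 - Pinf r d a q1) * L - Pinf r d a q1 + Pp q2 :=
    t1.eventually_const_lt (by linarith)
  obtain ⟨a2, hca, ha2, ha2'⟩ :=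
    (hev.and (Ioo_mem_nhdsGT (zero_lt_one (α := ℝ)))).exists
  -- choose `a1`
  set M : ℝ := (-(L * Real.log (Pp q2)) + 1) / c with hM
  have hlog : Real.log (Pp q2) ≤ 0 :=
    Real.log_nonpos hpos.le (Pp_le_one h hq2.le h2)
  have hM0 : 0 ≤ M := by
    refine div_nonneg ?_ hc0.le
    nlinarith [mul_nonneg hL (neg_nonneg.2 hlog)]
  set a1 : ℝ := a2 * Real.exp (-M) with ha1
  have ha10 : 0 < a1 := mul_pos ha2 (Real.exp_pos _)
  have ha12 : a1 ≤ a2 := by
    rw [ha1]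
    refine mul_le_of_le_one_right ha2.le ?_
    rw [Real.exp_le_one_iff]; linarith
  have key := limC r d ha10 ha12 ha2' h1 h12 h2
  have e1 : Real.log (a2 / a1) = M := by
    rw [ha1, div_mul_eq_div_div, div_self ha2.ne', one_div, ← Real.exp_neg, neg_neg,
      Real.log_exp]
  rw [e1] at key
  have hP : Pp q2 ≤ Pinf r d a1 q2 := Pp_le h ha10 (ha12.trans ha2'.le) hq2.le h2
  have k1 : c ≤ (1 - Pinf r d a2 q1) * L - Pinf r d a2 q1 + Pinf r d a1 q2 := by linarith
  have k2 := mul_le_mul_of_nonneg_left k1 hM0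
  have k3 : M * c = -(L * Real.log (Pp q2)) + 1 := by
    rw [hM]; field_simp
  have k4 : Real.log (Pp q2) ≤ Real.log (Pinf r d a1 q2) := Real.log_le_log hpos hP
  have k5 := mul_le_mul_of_nonneg_left k4 hL
  linarith

theorem step2 (h : ∀ q, 0 ≤ q → q < 1 →
      Tendsto (fun a => Pinf r d a q) (𝓝[>] 0) (𝓝 (Pp q)))
    {q1 q2 : ℝ} (h1 : 0 < q1) (h12 : q1 ≤ q2) (h2 : q2 < 1) (hpos : 0 < Pp q2) :
    (1 - Pp q1) / q1 ≤ (1 - Pp q2) / q2 := by
  set L := Real.log (q2 / q1) with hLdef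
  have hL : 0 ≤ L := Real.log_nonneg ((one_le_div h1).2 h12)
  have hq2 : 0 < q2 := h1.trans_le h12
  have hexp : Real.exp L = q2 / q1 := Real.exp_log (div_pos hq2 h1)
  have hiter : ∀ n : ℕ, 0 < n → ∀ k ≤ n, (1 - Pp q1) * (1 + L / n) ^ k ≤
      1 - Pp (q1 * Real.exp (k * (L / n))) := by
    intro n hn k
    have hn' : (0 : ℝ) < n := by exact_mod_cast hn
    have hLn : 0 ≤ L / n := div_nonneg hL hn'.le
    induction k with
    | zero => intro _; simp
    | succ k ih =>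
      intro hk
      have ih' := ih (Nat.le_of_succ_le hk)
      set x := q1 * Real.exp (k * (L / n)) with hx
      set y := q1 * Real.exp (((k + 1 : ℕ) : ℝ) * (L / n)) with hy
      have hx0 : 0 < x := mul_pos h1 (Real.exp_pos _)
      have hxy : x ≤ y := by
        refine mul_le_mul_of_nonneg_left (Real.exp_le_exp.2 ?_) h1.le
        refine mul_le_mul_of_nonneg_right ?_ hLn
        push_cast; linarith
      have hyq : y ≤ q2 := by
        have : y ≤ q1 * Real.exp L := by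
          refine mul_le_mul_of_nonneg_left (Real.exp_le_exp.2 ?_) h1.le
          have hk' : ((k + 1 : ℕ) : ℝ) ≤ n := by exact_mod_cast hk
          calc ((k + 1 : ℕ) : ℝ) * (L / n) ≤ n * (L / n) :=
                mul_le_mul_of_nonneg_right hk' hLn
            _ = L := by field_simp
        rw [hexp] at this
        refine this.trans (le_of_eq ?_)
        field_simp
      have hy1 : y < 1 := hyq.trans_lt h2
      have hypos : 0 < Pp y := hpos.trans_le (Pp_anti h (hx0.le.trans hxy) hyq h2)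
      have hs := step1 h hx0 hxy hy1 hypos
      have e : Real.log (y / x) = L / n := by
        have e1 : y / x = Real.exp (L / n) := by
          rw [hx, hy, div_eq_iff (by positivity)]
          rw [show Real.exp (L / n) * (q1 * Real.exp (k * (L / n))) =
            q1 * (Real.exp (L / n) * Real.exp (k * (L / n))) by ring, ← Real.exp_add]
          congr 2
          push_cast; ring
        rw [e1, Real.log_exp]
      rw [e] at hs
      rw [pow_succ, ← mul_assoc]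
      have k1 := mul_le_mul_of_nonneg_right ih' (by linarith : (0 : ℝ) ≤ 1 + L / n)
      linarith [k1, hs]
  have hlim : Tendsto (fun n : ℕ => (1 - Pp q1) * (1 + L / n) ^ n) atTop
      (𝓝 ((1 - Pp q1) * Real.exp L)) :=
    (Real.tendsto_one_add_div_pow_exp L).const_mul _
  have hfin : (1 - Pp q1) * Real.exp L ≤ 1 - Pp q2 := by
    refine le_of_tendsto hlim ?_
    filter_upwards [eventually_gt_atTop 0] with n hn
    have h3 := hiter n hn n le_rfl
    have hn' : (0 : ℝ) < n := by exact_mod_cast hn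
    have e : q1 * Real.exp ((n : ℝ) * (L / n)) = q2 := by
      have : (n : ℝ) * (L / n) = L := by field_simp
      rw [this, hexp]; field_simp
    rwa [e] at h3
  rw [hexp] at hfin
  rw [div_le_div_iff₀ h1 hq2]
  have : (1 - Pp q1) * (q2 / q1) * q1 ≤ (1 - Pp q2) * q1 :=
    mul_le_mul_of_nonneg_right hfin h1.le
  have e : (1 - Pp q1) * (q2 / q1) * q1 = (1 - Pp q1) * q2 := by field_simp
  linarith

theorem step3 (h : ∀ q, 0 ≤ q → q < 1 →
      Tendsto (fun a => Pinf r d a q) (𝓝[>] 0) (𝓝 (Pp q)))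
    {q1 q2 : ℝ} (h1 : 0 < q1) (h12 : q1 < q2) (h2 : q2 < 1) (hz : Pp q1 = 0) :
    ∃ a0, 0 < a0 ∧ a0 < 1 ∧ ∀ a, 0 < a → a ≤ a0 → Pinf r d a q2 ≤ Real.sqrt (a / a0) := by
  set L := Real.log (q2 / q1) with hLdef
  have hL : 0 < L := Real.log_pos ((one_lt_div h1).2 h12)
  have hq1 : q1 < 1 := h12.trans h2
  have hq2 : 0 < q2 := h1.trans h12
  have t1 : Tendsto (fun a => (1 - Pinf r d a q1) * L - Pinf r d a q1) (𝓝[>] 0)
      (𝓝 ((1 - Pp q1) * L - Pp q1)) :=
    (((h q1 h1.le hq1).const_sub 1).mul_const L).sub (h q1 h1.le hq1)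
  rw [hz] at t1
  have hev : ∀ᶠ a in 𝓝[>] (0 : ℝ), L / 2 < (1 - Pinf r d a q1) * L - Pinf r d a q1 :=
    t1.eventually_const_lt (by linarith)
  obtain ⟨a0, hca, ha0, ha0'⟩ :=
    (hev.and (Ioo_mem_nhdsGT (zero_lt_one (α := ℝ)))).exists
  refine ⟨a0, ha0, ha0', fun a ha haa => ?_⟩
  have key := limC r d ha haa ha0' h1 h12.le h2
  have hp := Pinf_pos r d ha (haa.trans ha0'.le) hq2.le h2
  have hlog : 0 ≤ Real.log (a0 / a) := Real.log_nonneg ((one_le_div ha).2 haa)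
  have k1 : L / 2 ≤ (1 - Pinf r d a0 q1) * L - Pinf r d a0 q1 + Pinf r d a q2 := by linarith
  have k2 := mul_le_mul_of_nonneg_left k1 hlog
  have k3 : Real.log (Pinf r d a q2) ≤ -(Real.log (a0 / a) / 2) := by
    have : L * Real.log (Pinf r d a q2) ≤ L * (-(Real.log (a0 / a) / 2)) := by nlinarith
    exact le_of_mul_le_mul_left this hL
  have haa0 : 0 < a / a0 := div_pos ha ha0
  have k4 : -(Real.log (a0 / a) / 2) = Real.log (Real.sqrt (a / a0)) := by
    rw [Real.log_sqrt haa0.le, Real.log_div ha0.ne' ha.ne', Real.log_div ha.ne' ha0.ne']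
    ring
  rw [k4] at k3
  exact (Real.log_le_log_iff hp (Real.sqrt_pos.2 haa0)).1 k3

theorem step4 (h : ∀ q, 0 ≤ q → q < 1 →
      Tendsto (fun a => Pinf r d a q) (𝓝[>] 0) (𝓝 (Pp q)))
    {q1 q2 : ℝ} (h1 : 0 < q1) (h12 : q1 < q2) (h2 : q2 < 1) (hz : Pp q1 = 0) :
    ∃ C, 0 ≤ C ∧ ∀ a, 0 < a → a ≤ 1 → Pinf r d a q2 ≤ C * a := by
  set q' := (q1 + q2) / 2 with hq'
  have hq1' : q1 < q' := by rw [hq']; linarith
  have hq2' : q' < q2 := by rw [hq']; linarith
  obtain ⟨a0, ha0, ha0', H⟩ := step3 h h1 hq1' (hq2'.trans h2) hz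
  set E := Real.exp (2 * (1 + Real.log (q2 / q')) / Real.log (q2 / q')) with hE
  have hE0 : 0 < E := Real.exp_pos _
  refine ⟨E / a0 + 1 / a0, by positivity, fun a ha ha' => ?_⟩
  rcases le_or_gt a a0 with haa | haa
  · have h3 : Pinf r d a q2 ≤ (a / a0) * E := by
      refine Pinf_le r d fun t => ?_
      refine linear_of_sqrt r t ha0 ha0' (h1.trans hq1') hq2' h2 (fun x hx hxa => ?_) ha haa
      exact (Psi_le_Pinf r d t hx.le (hxa.trans ha0'.le) (h1.trans hq1').le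
        (hq2'.trans h2).le).trans (H x hx hxa)
    have h4 : 0 ≤ 1 / a0 * a := by positivity
    have e : (E / a0 + 1 / a0) * a = (a / a0) * E + 1 / a0 * a := by ring
    rw [e]; linarith
  · have h3 : Pinf r d a q2 ≤ 1 := Pinf_le_one r d ha.le ha' (h1.trans h12).le h2.le
    have h4 : 1 ≤ 1 / a0 * a := by
      rw [one_div, inv_mul_eq_div]; exact (one_le_div ha0).2 haa.le
    have h5 : 0 ≤ E / a0 * a := by positivity
    have e : (E / a0 + 1 / a0) * a = E / a0 * a + 1 / a0 * a := by ring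
    rw [e]; linarith

end Plus

end Pool.Agent.PBP
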