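import Mathlib
import Pool.Agent.F368.OSSS

/-!
Polluted bootstrap percolation on `ℤ^d` with threshold `r`: definitions.
-/

open MeasureTheory Filter Topology

namespace Pool.Agent.PBP

/-- the sites of `ℤ^d` -/
abbrev Site (d : ℕ) := Fin d → ℤ

/-- the possible states of a site: closed, open and initially not occupied, open and initially
occupied -/
inductive St
  | closed
  | empty
  | occ
  deriving DecidableEq

/-- nearest neighbours: `‖u - v‖₁ = 1` -/
def Nb {d : ℕ} (u v : Site d) : Prop := ∑ i, |u i - v i| = 1

/-- the set of sites occupied at time `t` when the initial configuration is `ω`: an open site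
becomes occupied as soon as at least `r` of its neighbours are occupied -/
def Occ (r : ℕ) {d : ℕ} (ω : Site d → St) : ℕ → Set (Site d)
  | 0 => {v | ω v = St.occ}
  | t + 1 => {v | v ∈ Occ r ω t ∨
      (ω v ≠ St.closed ∧ r ≤ {u | Nb u v ∧ u ∈ Occ r ω t}.ncard)}

/-- the initial state of a site whose uniform variable is `u`: closed with probability `q`,
occupied with probability `p`, empty with probability `1 - p - q` (for `p, q ≥ 0`,
`p + q ≤ 1`) -/
noncomputable def init (p q : ℝ) (u : unitInterval) : St :=
  open Classical in
  if (u : ℝ) < q then St.closed else if 1 - p ≤ (u : ℝ) then St.occ else St.empty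

/-- the law of independent uniform variables attached to the sites -/
noncomputable def unif (d : ℕ) : Measure (Site d → unitInterval) :=
  Measure.infinitePi (fun _ : Site d => (volume : Measure unitInterval))

/-- the probability `φ(p, q)` that the origin is eventually occupied -/
noncomputable def phi (r d : ℕ) (p q : ℝ) : ℝ :=
  (unif d {U | ∃ t, (0 : Site d) ∈ Occ r (fun v => init p q (U v)) t}).toReal

/-- `φ⁺(q)`, the limit of `φ(p, q)` as `p → 0+` -/
noncomputable def phiPlus (r d : ℕ) (q : ℝ) : ℝ :=
  limUnder (𝓝[>] (0 : ℝ)) (fun p => phi r d p q)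

/-- the critical value `q_c = inf {q : φ⁺(q) = 0}` -/
noncomputable def qc (r d : ℕ) : ℝ := sInf {q : ℝ | 0 ≤ q ∧ q ≤ 1 ∧ phiPlus r d q = 0}

/-! ### Finite volume objects used in the proof -/

/-- the configuration whose set of open sites is `T` and whose set of initially occupied sites
is `S ∩ T` -/
def cfg {d : ℕ} (S T : Finset (Site d)) (v : Site d) : St :=
  if v ∈ T then (if v ∈ S then St.occ else St.empty) else St.closed

/-- the box of radius `t` around `v` -/
noncomputable def bx {d : ℕ} (v : Site d) (t : ℕ) : Finset (Site d) :=
  Finset.Icc (fun i => v i - (t : ℤ)) (fun i => v i + (t : ℤ))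

open Classical in
/-- indicator of the event that `v` is occupied at time `t` -/
noncomputable def ind (r t : ℕ) {d : ℕ} (v : Site d) (S T : Finset (Site d)) : ℝ :=
  if v ∈ Occ r (cfg S T) t then 1 else 0

/-- probability that `v` is occupied at time `t` when only the sites of `F` may be open; sites
are open with probability `b`, open sites are occupied with probability `a` -/
noncomputable def PF (r t : ℕ) {d : ℕ} (F : Finset (Site d)) (v : Site d) (a b : ℝ) : ℝ :=
  F368.Ex F a (fun S => F368.Ex F b (fun T => ind r t v S T))

/-- probability that the origin is occupied at time `t` -/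
noncomputable def Psi (r d t : ℕ) (a b : ℝ) : ℝ := PF r t (bx (0 : Site d) t) 0 a b

end Pool.Agent.PBP
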