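import Pool.Agent.PBP.Defs

/-!
Elementary facts about the deterministic dynamics.
-/

open Finset

namespace Pool.Agent.PBP

variable {d : ℕ}

theorem mem_bx {v u : Site d} {t : ℕ} : u ∈ bx v t ↔ ∀ i, |u i - v i| ≤ (t : ℤ) := by
  unfold bx
  rw [Finset.mem_Icc]
  constructor
  · rintro ⟨h1, h2⟩ i
    have a := h1 i
    have b := h2 i
    simp only at a b
    rw [abs_le]; constructor <;> linarith
  · intro h
    constructor <;> intro i <;> have := abs_le.1 (h i) <;> simp only <;> linarith [this.1, this.2]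

theorem self_mem_bx (v : Site d) (t : ℕ) : v ∈ bx v t := by
  rw [mem_bx]; intro i; simp

theorem Nb.abs_le {u v : Site d} (h : Nb u v) (i : Fin d) : |u i - v i| ≤ 1 := by
  unfold Nb at h
  rw [← h]
  exact Finset.single_le_sum (f := fun i => |u i - v i|) (fun j _ => abs_nonneg _)
    (Finset.mem_univ i)

theorem nb_finite (v : Site d) : {u | Nb u v}.Finite := by
  refine (bx v 1).finite_toSet.subset fun u hu => ?_
  rw [Finset.mem_coe, mem_bx]
  intro i
  simpa using Nb.abs_le hu i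

theorem nbA_finite (v : Site d) (A : Set (Site d)) : {u | Nb u v ∧ u ∈ A}.Finite :=
  (nb_finite v).subset fun _ h => h.1

theorem bx_nb {u v : Site d} (h : Nb u v) (t : ℕ) : bx u t ⊆ bx v (t + 1) := by
  intro w hw
  rw [mem_bx] at hw ⊢
  intro i
  have a := hw i
  have b := Nb.abs_le h i
  have c : |w i - v i| ≤ |w i - u i| + |u i - v i| := abs_sub_le _ _ _
  push_cast
  linarith

theorem bx_mono {v : Site d} {s t : ℕ} (h : s ≤ t) : bx v s ⊆ bx v t := by
  intro w hw
  rw [mem_bx] at hw ⊢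
  intro i
  exact (hw i).trans (by exact_mod_cast h)

theorem Occ_open {r : ℕ} {ω : Site d → St} {v : Site d} :
    ∀ {t : ℕ}, v ∈ Occ r ω t → ω v ≠ St.closed
  | 0, h => by
    have : ω v = St.occ := h
    rw [this]; exact St.noConfusion
  | t + 1, h => by
    rcases h with h | h
    · exact Occ_open h
    · exact h.1

theorem Occ_succ {r : ℕ} {ω : Site d → St} (t : ℕ) : Occ r ω t ⊆ Occ r ω (t + 1) :=
  fun _ h => Or.inl h

theorem Occ_mono_time {r : ℕ} {ω : Site d → St} {s t : ℕ} (h : s ≤ t) :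
    Occ r ω s ⊆ Occ r ω t := by
  induction h with
  | refl => exact subset_rfl
  | step _ ih => exact ih.trans (Occ_succ _)

/-- monotonicity in the initial configuration -/
theorem Occ_mono {r : ℕ} {ω ω' : Site d → St} (h1 : ∀ v, ω v = St.occ → ω' v = St.occ)
    (h2 : ∀ v, ω v ≠ St.closed → ω' v ≠ St.closed) : ∀ t, Occ r ω t ⊆ Occ r ω' t
  | 0 => fun v hv => h1 v hv
  | t + 1 => by
    have ih := Occ_mono (r := r) h1 h2 t
    rintro v (hv | ⟨hv, hc⟩)
    · exact Or.inl (ih hv)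
    · refine Or.inr ⟨h2 v hv, hc.trans ?_⟩
      exact Set.ncard_le_ncard (fun u hu => ⟨hu.1, ih hu.2⟩) (nbA_finite v _)

/-- the state of `v` at time `t` depends on the initial configuration in the box of radius `t`
around `v` -/
theorem Occ_local {r : ℕ} {ω ω' : Site d → St} : ∀ (t : ℕ) (v : Site d),
    (∀ u ∈ bx v t, ω u = ω' u) → (v ∈ Occ r ω t ↔ v ∈ Occ r ω' t)
  | 0, v, h => by
    change ω v = St.occ ↔ ω' v = St.occ
    rw [h v (self_mem_bx v 0)]
  | t + 1, v, h => by
    have h0 : v ∈ Occ r ω t ↔ v ∈ Occ r ω' t :=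
      Occ_local t v fun u hu => h u (bx_mono (Nat.le_succ t) hu)
    have h1 : {u | Nb u v ∧ u ∈ Occ r ω t} = {u | Nb u v ∧ u ∈ Occ r ω' t} := by
      ext u
      constructor
      · rintro ⟨hn, hu⟩
        exact ⟨hn, (Occ_local t u fun w hw => h w (bx_nb hn t hw)).1 hu⟩
      · rintro ⟨hn, hu⟩
        exact ⟨hn, (Occ_local t u fun w hw => h w (bx_nb hn t hw)).2 hu⟩
    change (v ∈ Occ r ω t ∨ (ω v ≠ St.closed ∧ r ≤ {u | Nb u v ∧ u ∈ Occ r ω t}.ncard)) ↔
      (v ∈ Occ r ω' t ∨ (ω' v ≠ St.closed ∧ r ≤ {u | Nb u v ∧ u ∈ Occ r ω' t}.ncard))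
    rw [h0, h1, h v (self_mem_bx v _)]

/-- translation invariance -/
theorem Occ_shift {r : ℕ} {ω : Site d → St} (w : Site d) : ∀ (t : ℕ) (v : Site d),
    (v ∈ Occ r (fun u => ω (u + w)) t ↔ v + w ∈ Occ r ω t)
  | 0, v => Iff.rfl
  | t + 1, v => by
    have h0 := Occ_shift (r := r) (ω := ω) w t v
    have h1 : {u | Nb u (v + w) ∧ u ∈ Occ r ω t} =
        (fun u => u + w) '' {u | Nb u v ∧ u ∈ Occ r (fun u => ω (u + w)) t} := by
      ext u
      constructor
      · rintro ⟨hn, hu⟩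
        refine ⟨u - w, ⟨?_, ?_⟩, by simp⟩
        · unfold Nb at hn ⊢
          rw [← hn]
          refine Finset.sum_congr rfl fun i _ => ?_
          congr 1
          simp only [Pi.sub_apply, Pi.add_apply]; ring
        · rw [Occ_shift w t (u - w)]
          simpa using hu
      · rintro ⟨u', ⟨hn, hu⟩, rfl⟩
        refine ⟨?_, (Occ_shift w t u').1 hu⟩
        unfold Nb at hn ⊢
        rw [← hn]
        refine Finset.sum_congr rfl fun i _ => ?_
        congr 1
        simp only [Pi.add_apply]; ring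
    have h2 : {u | Nb u (v + w) ∧ u ∈ Occ r ω t}.ncard =
        {u | Nb u v ∧ u ∈ Occ r (fun u => ω (u + w)) t}.ncard := by
      rw [h1, Set.ncard_image_of_injective _ (add_left_injective w)]
    change (v ∈ Occ r (fun u => ω (u + w)) t ∨ (ω (v + w) ≠ St.closed ∧
      r ≤ {u | Nb u v ∧ u ∈ Occ r (fun u => ω (u + w)) t}.ncard)) ↔
      (v + w ∈ Occ r ω t ∨ (ω (v + w) ≠ St.closed ∧
        r ≤ {u | Nb u (v + w) ∧ u ∈ Occ r ω t}.ncard))
    rw [h0, h2]

/-! ### configurations given by finite sets -/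

theorem cfg_eq_occ {S T : Finset (Site d)} {v : Site d} :
    cfg S T v = St.occ ↔ v ∈ T ∧ v ∈ S := by
  unfold cfg; split_ifs <;> simp_all

theorem cfg_ne_closed {S T : Finset (Site d)} {v : Site d} :
    cfg S T v ≠ St.closed ↔ v ∈ T := by
  unfold cfg; split_ifs <;> simp_all

theorem ind_nonneg (r t : ℕ) (v : Site d) (S T : Finset (Site d)) : 0 ≤ ind r t v S T := by
  unfold ind; split_ifs <;> norm_num

theorem ind_le_one (r t : ℕ) (v : Site d) (S T : Finset (Site d)) : ind r t v S T ≤ 1 := by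
  unfold ind; split_ifs <;> norm_num

theorem ind_sq (r t : ℕ) (v : Site d) (S T : Finset (Site d)) :
    ind r t v S T * ind r t v S T = ind r t v S T := by
  unfold ind; split_ifs <;> norm_num

theorem ind_congr {r t t' : ℕ} {v v' : Site d} {S T S' T' : Finset (Site d)}
    (h : v ∈ Occ r (cfg S T) t ↔ v' ∈ Occ r (cfg S' T') t') :
    ind r t v S T = ind r t' v' S' T' := by
  unfold ind
  by_cases h' : v ∈ Occ r (cfg S T) t
  · rw [if_pos h', if_pos (h.1 h')]
  · rw [if_neg h', if_neg fun hh => h' (h.2 hh)]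

theorem ind_le_ind {r t t' : ℕ} {v v' : Site d} {S T S' T' : Finset (Site d)}
    (h : v ∈ Occ r (cfg S T) t → v' ∈ Occ r (cfg S' T') t') :
    ind r t v S T ≤ ind r t' v' S' T' := by
  unfold ind
  by_cases h' : v ∈ Occ r (cfg S T) t
  · rw [if_pos h', if_pos (h h')]
  · rw [if_neg h']; split_ifs <;> norm_num

theorem Occ_cfg_mono {r t : ℕ} {S S' T T' : Finset (Site d)} (hS : S ⊆ S') (hT : T ⊆ T') :
    Occ r (cfg S T) t ⊆ Occ r (cfg S' T') t :=
  Occ_mono (fun v hv => cfg_eq_occ.2 ⟨hT (cfg_eq_occ.1 hv).1, hS (cfg_eq_occ.1 hv).2⟩)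
    (fun v hv => cfg_ne_closed.2 (hT (cfg_ne_closed.1 hv))) t

theorem ind_mono {r t : ℕ} {v : Site d} {S S' T T' : Finset (Site d)} (hS : S ⊆ S')
    (hT : T ⊆ T') : ind r t v S T ≤ ind r t v S' T' :=
  ind_le_ind fun h => Occ_cfg_mono hS hT h

/-- only the box of radius `t` around `v` matters -/
theorem ind_inter {r t : ℕ} {v : Site d} {G : Finset (Site d)} (hG : bx v t ⊆ G)
    (S T : Finset (Site d)) : ind r t v (S ∩ G) (T ∩ G) = ind r t v S T := by
  refine ind_congr (Occ_local t v fun u hu => ?_)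
  have hu' := hG hu
  unfold cfg
  simp [hu']

end Pool.Agent.PBP
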