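import Pool.Agent.PBP.Dyn

/-!
Facts about the finite volume probabilities.
-/

open Finset

namespace Pool.Agent.PBP

open F368

variable {d : ℕ}

/-- double expectation -/
noncomputable def E2 (F : Finset (Site d)) (K : Finset (Site d) → Finset (Site d) → ℝ)
    (a b : ℝ) : ℝ := Ex F a (fun S => Ex F b (fun T => K S T))

theorem E2_comm (F : Finset (Site d)) (K : Finset (Site d) → Finset (Site d) → ℝ) (a b : ℝ) :
    E2 F K a b = Ex F b (fun T => Ex F a (fun S => K S T)) := by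
  unfold E2 Ex
  simp only [Finset.mul_sum]
  rw [Finset.sum_comm]
  refine Finset.sum_congr rfl fun T _ => Finset.sum_congr rfl fun S _ => ?_
  ring

theorem E2_mono {F : Finset (Site d)} {K K' : Finset (Site d) → Finset (Site d) → ℝ} {a b : ℝ}
    (ha : 0 ≤ a) (ha' : a ≤ 1) (hb : 0 ≤ b) (hb' : b ≤ 1)
    (h : ∀ S T, S ⊆ F → T ⊆ F → K S T ≤ K' S T) : E2 F K a b ≤ E2 F K' a b :=
  Ex_mono ha ha' fun S hS => Ex_mono hb hb' fun T hT => h S T hS hT

theorem E2_congr {F : Finset (Site d)} {K K' : Finset (Site d) → Finset (Site d) → ℝ} {a b : ℝ}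
    (h : ∀ S T, S ⊆ F → T ⊆ F → K S T = K' S T) : E2 F K a b = E2 F K' a b :=
  Ex_congr fun S hS => Ex_congr fun T hT => h S T hS hT

theorem E2_nonneg {F : Finset (Site d)} {K : Finset (Site d) → Finset (Site d) → ℝ} {a b : ℝ}
    (ha : 0 ≤ a) (ha' : a ≤ 1) (hb : 0 ≤ b) (hb' : b ≤ 1)
    (h : ∀ S T, S ⊆ F → T ⊆ F → 0 ≤ K S T) : 0 ≤ E2 F K a b :=
  Ex_nonneg ha ha' fun S hS => Ex_nonneg hb hb' fun T hT => h S T hS hT

theorem E2_continuous (F : Finset (Site d)) (K : Finset (Site d) → Finset (Site d) → ℝ) :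
    Continuous (fun z : ℝ × ℝ => E2 F K z.1 z.2) := by
  unfold E2 Ex
  fun_prop

theorem E2_sub (F : Finset (Site d)) (K K' : Finset (Site d) → Finset (Site d) → ℝ) (a b : ℝ) :
    E2 F (fun S T => K S T - K' S T) a b = E2 F K a b - E2 F K' a b := by
  unfold E2
  rw [← Ex_sub]
  exact Ex_congr fun S _ => Ex_sub _ _ _ _

theorem E2_of_subset {F G : Finset (Site d)} (hFG : F ⊆ G)
    (K : Finset (Site d) → Finset (Site d) → ℝ) (a b : ℝ) :
    E2 G (fun S T => K (S ∩ F) (T ∩ F)) a b = E2 F K a b := by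
  unfold E2
  rw [Ex_of_subset hFG a (fun S => Ex G b (fun T => K (S ∩ F) (T ∩ F)))
    (fun s _ => by rw [Finset.inter_assoc, Finset.inter_self])]
  refine Ex_congr fun S hS => ?_
  rw [Ex_of_subset hFG b (fun T => K (S ∩ F) (T ∩ F))
    (fun s _ => by rw [Finset.inter_assoc, Finset.inter_self])]
  refine Ex_congr fun T hT => ?_
  rw [Finset.inter_eq_left.2 hS, Finset.inter_eq_left.2 hT]

theorem PF_eq (r t : ℕ) (F : Finset (Site d)) (v : Site d) (a b : ℝ) :
    PF r t F v a b = E2 F (ind r t v) a b := rfl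

theorem PF_nonneg (r t : ℕ) (F : Finset (Site d)) (v : Site d) {a b : ℝ}
    (ha : 0 ≤ a) (ha' : a ≤ 1) (hb : 0 ≤ b) (hb' : b ≤ 1) : 0 ≤ PF r t F v a b :=
  E2_nonneg ha ha' hb hb' fun _ _ _ _ => ind_nonneg _ _ _ _ _

theorem PF_le_one (r t : ℕ) (F : Finset (Site d)) (v : Site d) {a b : ℝ}
    (ha : 0 ≤ a) (ha' : a ≤ 1) (hb : 0 ≤ b) (hb' : b ≤ 1) : PF r t F v a b ≤ 1 :=
  Ex_le_const ha ha' fun _ _ => Ex_le_const hb hb' fun _ _ => ind_le_one _ _ _ _ _

theorem PF_mono_set (r t : ℕ) {F G : Finset (Site d)} (hFG : F ⊆ G) (v : Site d) {a b : ℝ}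
    (ha : 0 ≤ a) (ha' : a ≤ 1) (hb : 0 ≤ b) (hb' : b ≤ 1) : PF r t F v a b ≤ PF r t G v a b := by
  rw [PF_eq, PF_eq, ← E2_of_subset hFG]
  exact E2_mono ha ha' hb hb' fun S T _ _ =>
    ind_mono Finset.inter_subset_left Finset.inter_subset_left

theorem PF_of_bx (r t : ℕ) {G : Finset (Site d)} (v : Site d) (hG : bx v t ⊆ G) (a b : ℝ) :
    PF r t G v a b = PF r t (bx v t) v a b := by
  rw [PF_eq, PF_eq, ← E2_of_subset hG]
  exact E2_congr fun S T _ _ => (ind_inter subset_rfl S T).symm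

theorem bx_map (v : Site d) (t : ℕ) :
    (bx (0 : Site d) t).map (addRightEmbedding v) = bx v t := by
  ext u
  rw [Finset.mem_map, mem_bx]
  constructor
  · rintro ⟨w, hw, rfl⟩ i
    rw [mem_bx] at hw
    simpa using hw i
  · intro h
    refine ⟨u - v, ?_, by simp⟩
    rw [mem_bx]
    intro i
    simpa using h i

theorem cfg_map (S T : Finset (Site d)) (v u : Site d) :
    cfg (S.map (addRightEmbedding v)) (T.map (addRightEmbedding v)) (u + v) = cfg S T u := by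
  unfold cfg
  have h1 : u + v ∈ T.map (addRightEmbedding v) ↔ u ∈ T := by
    rw [Finset.mem_map]; simp
  have h2 : u + v ∈ S.map (addRightEmbedding v) ↔ u ∈ S := by
    rw [Finset.mem_map]; simp
  simp only [h1, h2]

theorem ind_map (r t : ℕ) (S T : Finset (Site d)) (v : Site d) :
    ind r t v (S.map (addRightEmbedding v)) (T.map (addRightEmbedding v)) = ind r t 0 S T := by
  refine ind_congr ?_
  have h := Occ_shift (r := r)
    (ω := cfg (S.map (addRightEmbedding v)) (T.map (addRightEmbedding v))) v t 0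
  rw [zero_add] at h
  rw [← h]
  have e : (fun u => cfg (S.map (addRightEmbedding v)) (T.map (addRightEmbedding v)) (u + v)) =
      cfg S T := by
    funext u; exact cfg_map S T v u
  rw [e]

theorem PF_shift (r t : ℕ) (v : Site d) (a b : ℝ) :
    PF r t (bx v t) v a b = Psi r d t a b := by
  unfold Psi PF
  rw [← bx_map v t, Ex_map]
  refine Ex_congr fun S _ => ?_
  rw [Ex_map]
  exact Ex_congr fun T _ => ind_map r t S T v

/-- in every finite set of sites the occupation probability of every site is at most `Psi` -/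
theorem PF_le_Psi (r t : ℕ) (F : Finset (Site d)) (v : Site d) {a b : ℝ}
    (ha : 0 ≤ a) (ha' : a ≤ 1) (hb : 0 ≤ b) (hb' : b ≤ 1) :
    PF r t F v a b ≤ Psi r d t a b := by
  rw [← PF_shift r t v, ← PF_of_bx r t v (Finset.subset_union_right (s₁ := F))]
  exact PF_mono_set r t Finset.subset_union_left v ha ha' hb hb'

theorem Psi_eq (r t : ℕ) {G : Finset (Site d)} (hG : bx (0 : Site d) t ⊆ G) (a b : ℝ) :
    Psi r d t a b = PF r t G 0 a b := (PF_of_bx r t 0 hG a b).symm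

theorem Psi_nonneg (r t : ℕ) {a b : ℝ}
    (ha : 0 ≤ a) (ha' : a ≤ 1) (hb : 0 ≤ b) (hb' : b ≤ 1) : 0 ≤ Psi r d t a b :=
  PF_nonneg _ _ _ _ ha ha' hb hb'

theorem Psi_le_one (r t : ℕ) {a b : ℝ}
    (ha : 0 ≤ a) (ha' : a ≤ 1) (hb : 0 ≤ b) (hb' : b ≤ 1) : Psi r d t a b ≤ 1 :=
  PF_le_one _ _ _ _ ha ha' hb hb'

theorem Psi_mono_t (r : ℕ) {s t : ℕ} (hst : s ≤ t) {a b : ℝ}
    (ha : 0 ≤ a) (ha' : a ≤ 1) (hb : 0 ≤ b) (hb' : b ≤ 1) :
    Psi r d s a b ≤ Psi r d t a b := by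
  rw [Psi_eq r s (bx_mono hst)]
  exact E2_mono ha ha' hb hb' fun S T _ _ => ind_le_ind fun h => Occ_mono_time hst h

theorem Ex_mono_p {F : Finset (Site d)} {p q : ℝ} (h0 : 0 ≤ p) (hpq : p ≤ q) (h1 : q ≤ 1)
    {f : Finset (Site d) → ℝ} (hf : ∀ s t, s ⊆ t → t ⊆ F → f s ≤ f t) :
    Ex F p f ≤ Ex F q f := by
  have h := Ex_anti_p (F := F) h0 hpq h1 (f := fun s => (-1) * f s)
    (fun s t hst ht => by have := hf s t hst ht; linarith)
  rw [Ex_smul, Ex_smul] at h
  linarith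

theorem Psi_mono_a (r t : ℕ) {a a' b : ℝ}
    (ha : 0 ≤ a) (haa : a ≤ a') (ha' : a' ≤ 1) (hb : 0 ≤ b) (hb' : b ≤ 1) :
    Psi r d t a b ≤ Psi r d t a' b :=
  Ex_mono_p ha haa ha' fun _ _ hst _ => Ex_mono hb hb' fun _ _ => ind_mono hst subset_rfl

theorem Psi_mono_b (r t : ℕ) {a b b' : ℝ}
    (ha : 0 ≤ a) (ha' : a ≤ 1) (hb : 0 ≤ b) (hbb : b ≤ b') (hb' : b' ≤ 1) :
    Psi r d t a b ≤ Psi r d t a b' :=
  Ex_mono ha ha' fun _ _ => Ex_mono_p hb hbb hb' fun _ _ hst _ => ind_mono subset_rfl hst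

theorem Psi_lower (r t : ℕ) {a b : ℝ}
    (ha : 0 ≤ a) (ha' : a ≤ 1) (hb : 0 ≤ b) (hb' : b ≤ 1) : a * b ≤ Psi r d t a b := by
  refine le_trans ?_ (Psi_mono_t r (Nat.zero_le t) ha ha' hb hb')
  have e : bx (0 : Site d) 0 = insert 0 ∅ := by
    ext u
    rw [mem_bx, Finset.mem_insert]
    constructor
    · intro h
      left
      funext i
      have := h i
      rw [Pi.zero_apply, sub_zero, Nat.cast_zero] at this
      exact abs_eq_zero.1 (le_antisymm this (abs_nonneg _))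
    · rintro (rfl | h)
      · intro i; simp
      · exact absurd h (Finset.notMem_empty _)
  unfold Psi PF
  rw [e, Ex_insert (by simp)]
  simp only [Ex_empty, Ex_insert (Finset.notMem_empty (0 : Site d))]
  have h1 : ∀ S T : Finset (Site d), 0 ≤ ind r 0 0 S T := fun S T => ind_nonneg _ _ _ _ _
  have h2 : ind r 0 (0 : Site d) (insert 0 ∅) (insert 0 ∅) = 1 := by
    unfold ind
    rw [if_pos]
    change cfg _ _ _ = St.occ
    rw [cfg_eq_occ]; simp
  have h3 := h1 ∅ ∅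
  have h4 := h1 ∅ (insert 0 ∅)
  have h5 := h1 (insert 0 ∅) ∅
  rw [h2]
  have a1 : 0 ≤ 1 - a := by linarith
  have b1 : 0 ≤ 1 - b := by linarith
  nlinarith [mul_nonneg a1 (mul_nonneg b1 h3), mul_nonneg a1 (mul_nonneg hb h4),
    mul_nonneg ha (mul_nonneg b1 h5)]

/-! ### derivatives -/

/-- derivative of `Psi` with respect to `a` -/
noncomputable def PsiA (r d t : ℕ) (a b : ℝ) : ℝ :=
  ∑ x ∈ bx (0 : Site d) t, E2 (bx (0 : Site d) t)
    (fun S T => ind r t 0 (insert x S) T - ind r t 0 (S.erase x) T) a b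

/-- derivative of `Psi` with respect to `b` -/
noncomputable def PsiB (r d t : ℕ) (a b : ℝ) : ℝ :=
  ∑ x ∈ bx (0 : Site d) t, E2 (bx (0 : Site d) t)
    (fun S T => ind r t 0 S (insert x T) - ind r t 0 S (T.erase x)) a b

theorem hasDerivAt_Psi_a (r t : ℕ) (a b : ℝ) :
    HasDerivAt (fun a => Psi r d t a b) (PsiA r d t a b) a := by
  have h := hasDerivAt_Ex (bx (0 : Site d) t) a
    (fun S => Ex (bx (0 : Site d) t) b (fun T => ind r t 0 S T))
  refine h.congr_deriv ?_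
  unfold PsiA
  refine Finset.sum_congr rfl fun x _ => ?_
  unfold E2
  refine Ex_congr fun S _ => ?_
  rw [Ex_sub]

theorem hasDerivAt_Psi_b (r t : ℕ) (a b : ℝ) :
    HasDerivAt (fun b => Psi r d t a b) (PsiB r d t a b) b := by
  have e : (fun b => Psi r d t a b) = fun b => Ex (bx (0 : Site d) t) b
      (fun T => Ex (bx (0 : Site d) t) a (fun S => ind r t 0 S T)) := by
    funext b
    exact E2_comm _ _ _ _
  rw [e]
  have h := hasDerivAt_Ex (bx (0 : Site d) t) b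
    (fun T => Ex (bx (0 : Site d) t) a (fun S => ind r t 0 S T))
  refine h.congr_deriv ?_
  unfold PsiB
  refine Finset.sum_congr rfl fun x _ => ?_
  rw [E2_comm]
  refine Ex_congr fun T _ => ?_
  rw [Ex_sub]

theorem Psi_continuous (r d t : ℕ) : Continuous (fun z : ℝ × ℝ => Psi r d t z.1 z.2) :=
  E2_continuous _ _

theorem PsiA_continuous (r d t : ℕ) : Continuous (fun z : ℝ × ℝ => PsiA r d t z.1 z.2) := by
  unfold PsiA
  exact continuous_finsetSum _ fun x _ => E2_continuous _ _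

theorem PsiB_continuous (r d t : ℕ) : Continuous (fun z : ℝ × ℝ => PsiB r d t z.1 z.2) := by
  unfold PsiB
  exact continuous_finsetSum _ fun x _ => E2_continuous _ _

end Pool.Agent.PBP
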