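import Pool.Agent.PBP.Surg

/-!
Trading closed sites against initially occupied sites: the comparison inequality and the left
continuity of `φ⁺`.
-/

open Finset MeasureTheory Filter Topology

namespace Pool.Agent.PBP

open F368

variable {d : ℕ}

/-- one of the two layers of a configuration -/
noncomputable def lay (c : Bool) (s : Finset (Site d × Bool)) : Finset (Site d) :=
  s.preimage (fun v => (v, c))
    (Function.Injective.injOn (f := fun v : Site d => (v, c)) fun _ _ h => (Prod.mk.inj h).1)

theorem mem_lay {c : Bool} {s : Finset (Site d × Bool)} {v : Site d} :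
    v ∈ lay c s ↔ (v, c) ∈ s := by
  unfold lay; rw [Finset.mem_preimage]

/-- densities of the two layers -/
def wab (a b : ℝ) (i : Site d × Bool) : ℝ := if i.2 then a else b

open Classical in
/-- indicator of the eventual occupation of the origin -/
noncomputable def indI (r : ℕ) (S T : Finset (Site d)) : ℝ :=
  if (0 : Site d) ∈ Cl r S T then 1 else 0

/-- the same as a function of the two layers -/
noncomputable def fI (r : ℕ) (s : Finset (Site d × Bool)) : ℝ := indI r (lay true s) (lay false s)

/-- the two layers over `F` -/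
def FF (F : Finset (Site d)) : Finset (Site d × Bool) := F ×ˢ (Finset.univ : Finset Bool)

theorem mem_FF {F : Finset (Site d)} {i : Site d × Bool} : i ∈ FF F ↔ i.1 ∈ F := by
  unfold FF; rw [Finset.mem_product]; simp

theorem indI_nonneg (r : ℕ) (S T : Finset (Site d)) : 0 ≤ indI r S T := by
  unfold indI; split_ifs <;> norm_num

theorem indI_le_one (r : ℕ) (S T : Finset (Site d)) : indI r S T ≤ 1 := by
  unfold indI; split_ifs <;> norm_num

theorem indI_mono {r : ℕ} {S S' T T' : Finset (Site d)} (hS : S ⊆ S') (hT : T ⊆ T') :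
    indI r S T ≤ indI r S' T' := by
  unfold indI
  by_cases h : (0 : Site d) ∈ Cl r S T
  · rw [if_pos h, if_pos (Cl_mono hS hT h)]
  · rw [if_neg h]; split_ifs <;> norm_num

theorem lay_mono {c : Bool} {s t : Finset (Site d × Bool)} (h : s ⊆ t) : lay c s ⊆ lay c t :=
  fun _ hv => mem_lay.2 (h (mem_lay.1 hv))

theorem fI_mono {r : ℕ} {s t : Finset (Site d × Bool)} (h : s ⊆ t) : fI r s ≤ fI r t :=
  indI_mono (lay_mono h) (lay_mono h)

theorem lay_insert_same (c : Bool) (s : Finset (Site d × Bool)) (x : Site d) :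
    lay c (insert (x, c) s) = insert x (lay c s) := by
  ext v
  rw [mem_lay, Finset.mem_insert, Finset.mem_insert, mem_lay]
  simp

theorem lay_insert_diff {c c' : Bool} (hc : c ≠ c') (s : Finset (Site d × Bool)) (x : Site d) :
    lay c (insert (x, c') s) = lay c s := by
  ext v
  rw [mem_lay, Finset.mem_insert, mem_lay]
  simp [hc]

theorem lay_erase_same (c : Bool) (s : Finset (Site d × Bool)) (x : Site d) :
    lay c (s.erase (x, c)) = (lay c s).erase x := by
  ext v
  rw [mem_lay, Finset.mem_erase, Finset.mem_erase, mem_lay]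
  simp

theorem lay_erase_diff {c c' : Bool} (hc : c ≠ c') (s : Finset (Site d × Bool)) (x : Site d) :
    lay c (s.erase (x, c')) = lay c s := by
  ext v
  rw [mem_lay, Finset.mem_erase, mem_lay]
  simp [hc]

/-- expectation over one layer -/
theorem ExW_map_lay (F : Finset (Site d)) (c : Bool) (w : Site d × Bool → ℝ) (p : ℝ)
    (hw : ∀ v, w (v, c) = p) (f : Finset (Site d × Bool) → ℝ) :
    ExW (F.map ⟨fun v => (v, c), fun _ _ h => (Prod.mk.inj h).1⟩) w f =
      Ex F p (fun S => f (S.map ⟨fun v => (v, c), fun _ _ h => (Prod.mk.inj h).1⟩)) := by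
  induction F using Finset.induction_on generalizing f with
  | empty => rw [Finset.map_empty, ExW_empty, Ex_empty, Finset.map_empty]
  | insert x F hx ih =>
    rw [Finset.map_insert]
    change ExW (insert (x, c) _) w f = _
    rw [ExW_insert, Ex_insert hx, ih f, ih (fun s => f (insert (x, c) s)), hw x]
    · congr 1
      congr 1
      refine Ex_congr fun S _ => ?_
      rw [Finset.map_insert]
      rfl
    · rw [Finset.mem_map]
      rintro ⟨y, hy, he⟩
      exact hx ((Prod.mk.inj he).1 ▸ hy)

/-- link with the double expectation -/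
theorem ExW_FF (F : Finset (Site d)) (K : Finset (Site d) → Finset (Site d) → ℝ) (a b : ℝ) :
    ExW (FF F) (wab a b) (fun s => K (lay true s) (lay false s)) = E2 F K a b := by
  set e1 : Site d ↪ Site d × Bool := ⟨fun v => (v, true), fun _ _ h => (Prod.mk.inj h).1⟩
    with he1
  set e0 : Site d ↪ Site d × Bool := ⟨fun v => (v, false), fun _ _ h => (Prod.mk.inj h).1⟩
    with he0
  have hun : FF F = F.map e1 ∪ F.map e0 := by
    ext ⟨v, c⟩
    rw [mem_FF, Finset.mem_union, Finset.mem_map, Finset.mem_map]
    constructor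
    · intro h
      cases c
      · exact Or.inr ⟨v, h, rfl⟩
      · exact Or.inl ⟨v, h, rfl⟩
    · rintro (⟨u, hu, he⟩ | ⟨u, hu, he⟩)
      · rw [← (Prod.mk.inj he).1]; exact hu
      · rw [← (Prod.mk.inj he).1]; exact hu
  have hdis : Disjoint (F.map e1) (F.map e0) := by
    rw [Finset.disjoint_left]
    rintro i hi hi'
    rw [Finset.mem_map] at hi hi'
    obtain ⟨u, -, rfl⟩ := hi
    obtain ⟨u', -, he⟩ := hi'
    exact absurd (Prod.mk.inj he).2 (by simp)
  have l1 : ∀ S T : Finset (Site d), lay true (S.map e1 ∪ T.map e0) = S := by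
    intro S T
    ext v
    rw [mem_lay, Finset.mem_union, Finset.mem_map, Finset.mem_map]
    constructor
    · rintro (⟨u, hu, he⟩ | ⟨u, hu, he⟩)
      · rw [← (Prod.mk.inj he).1]; exact hu
      · exact absurd (Prod.mk.inj he).2 (by simp)
    · exact fun h => Or.inl ⟨v, h, rfl⟩
  have l0 : ∀ S T : Finset (Site d), lay false (S.map e1 ∪ T.map e0) = T := by
    intro S T
    ext v
    rw [mem_lay, Finset.mem_union, Finset.mem_map, Finset.mem_map]
    constructor
    · rintro (⟨u, hu, he⟩ | ⟨u, hu, he⟩)
      · exact absurd (Prod.mk.inj he).2 (by simp)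
      · rw [← (Prod.mk.inj he).1]; exact hu
    · exact fun h => Or.inr ⟨v, h, rfl⟩
  rw [hun, ExW_union hdis, ExW_map_lay F true (wab a b) a (fun v => by simp [wab])]
  unfold E2
  refine Ex_congr fun S _ => ?_
  rw [ExW_map_lay F false (wab a b) b (fun v => by simp [wab])]
  refine Ex_congr fun T _ => ?_
  change K (lay true (S.map e1 ∪ T.map e0)) (lay false (S.map e1 ∪ T.map e0)) = K S T
  rw [l1, l0]

/-- discrete derivative -/
noncomputable def DI (r : ℕ) (i : Site d × Bool) (s : Finset (Site d × Bool)) : ℝ :=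
  fI r (insert i s) - fI r (s.erase i)

theorem DI_nonneg (r : ℕ) (i : Site d × Bool) (s : Finset (Site d × Bool)) : 0 ≤ DI r i s :=
  sub_nonneg.2 (fI_mono ((Finset.erase_subset i s).trans (Finset.subset_insert i s)))

theorem DI_le_one (r : ℕ) (i : Site d × Bool) (s : Finset (Site d × Bool)) : DI r i s ≤ 1 := by
  unfold DI
  have h1 : fI r (insert i s) ≤ 1 := indI_le_one _ _ _
  have h2 : 0 ≤ fI r (s.erase i) := indI_nonneg _ _ _
  linarith

theorem DI_pos_closed {r : ℕ} {x : Site d} {s : Finset (Site d × Bool)}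
    (h : 0 < DI r (x, false) s) :
    (0 : Site d) ∈ Cl r (lay true s) (insert x (lay false s)) ∧
      (0 : Site d) ∉ Cl r (lay true s) ((lay false s).erase x) := by
  unfold DI fI at h
  rw [lay_insert_diff (by simp), lay_insert_same, lay_erase_diff (by simp),
    lay_erase_same] at h
  unfold indI at h
  by_cases h1 : (0 : Site d) ∈ Cl r (lay true s) (insert x (lay false s))
  · by_cases h2 : (0 : Site d) ∈ Cl r (lay true s) ((lay false s).erase x)
    · rw [if_pos h1, if_pos h2] at h; norm_num at h
    · exact ⟨h1, h2⟩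
  · rw [if_neg h1] at h
    split_ifs at h <;> norm_num at h

theorem DI_seed_one {r : ℕ} {z : Site d} {s : Finset (Site d × Bool)}
    (h1 : (0 : Site d) ∈ Cl r (insert z (lay true s)) (lay false s))
    (h2 : (0 : Site d) ∉ Cl r ((lay true s).erase z) (lay false s)) :
    DI r (z, true) s = 1 := by
  unfold DI fI
  rw [lay_insert_same, lay_insert_diff (by simp), lay_erase_same, lay_erase_diff (by simp)]
  unfold indI
  rw [if_pos h1, if_neg h2]; norm_num

theorem card_bx' (v : Site d) (t : ℕ) : (bx v t).card = (bx (0 : Site d) t).card := by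
  rw [← bx_map v t, Finset.card_map]

section Compare

variable {F : Finset (Site d)} {a b ε : ℝ}

theorem wab_ge (ha : ε ≤ a) (hb : ε ≤ b) (i : Site d × Bool) : ε ≤ wab a b i := by
  unfold wab; split_ifs <;> assumption

theorem wab_le (ha : a ≤ 1 - ε) (hb : b ≤ 1 - ε) (i : Site d × Bool) :
    wab a b i ≤ 1 - ε := by
  unfold wab; split_ifs <;> assumption

open Classical in
/-- the influence of the opening of a site is controlled by the influences of the seeds near
it -/
theorem infl_open_seed {r : ℕ} (hr : 1 ≤ r) (hε : 0 < ε) (hε1 : ε ≤ 1) (ha : ε ≤ a)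
    (ha' : a ≤ 1 - ε) (hb : ε ≤ b) (hb' : b ≤ 1 - ε) {x : Site d} (hx : x ∈ F) :
    ε ^ (2 * (bx (0 : Site d) 1).card) * ExW (FF F) (wab a b) (DI r (x, false)) ≤
      ∑ z ∈ F.filter (fun z => z ∈ bx x 1), ExW (FF F) (wab a b) (DI r (z, true)) := by
  set L : Finset (Site d × Bool) := FF (F.filter (fun z => z ∈ bx x 1)) with hL
  have hLF : L ⊆ FF F := fun i hi => mem_FF.2 (Finset.mem_filter.1 (mem_FF.1 hi)).1
  set e1 : Site d ↪ Site d × Bool := ⟨fun v => (v, true), fun _ _ h => (Prod.mk.inj h).1⟩
    with he1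
  have key := infl_compare (F := FF F) (L := L)
    (Y := (F.filter (fun z => z ∈ bx x 1)).map e1) (w := wab a b) hε.le hLF
    (fun i _ => wab_ge ha hb i) (fun i _ => wab_le ha' hb' i)
    (g := DI r (x, false)) (G := DI r) (fun s _ => DI_le_one r _ s)
    (fun y _ s _ => DI_nonneg r y s)
    (fun U hU V hV hpos => by
      obtain ⟨k1, k2⟩ := DI_pos_closed hpos
      have hUV : U ∪ V ⊆ FF F :=
        Finset.union_subset (hU.trans Finset.sdiff_subset) (hV.trans hLF)
      have hlF : ∀ c, lay c (U ∪ V) ⊆ F := fun c v hv => mem_FF.1 (hUV (mem_lay.1 hv))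
      obtain ⟨z, hz1, hz2, S', T', hS', hT', hag, k3, k4⟩ :=
        seed_surgery hr (hlF true) (hlF false) hx k1 k2
      have hlayU : ∀ (c : Bool) (v : Site d), v ∉ bx x 1 →
          (v ∈ lay c (U ∪ V) ↔ (v, c) ∈ U) := by
        intro c v hv
        rw [mem_lay, Finset.mem_union]
        constructor
        · rintro (h | h)
          · exact h
          · exact absurd (Finset.mem_filter.1 (mem_FF.1 (hV h))).2 hv
        · exact Or.inl
      have hUb : ∀ (c : Bool) (v : Site d), (v, c) ∈ U → v ∉ bx x 1 := by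
        intro c v h hv
        have h' := Finset.mem_sdiff.1 (hU h)
        exact h'.2 (mem_FF.2 (Finset.mem_filter.2 ⟨mem_FF.1 h'.1, hv⟩))
      set V' : Finset (Site d × Bool) :=
        L.filter (fun i => if i.2 then i.1 ∈ S' else i.1 ∈ T') with hV'
      have e1' : lay true (U ∪ V') = S' := by
        ext v
        rw [mem_lay, Finset.mem_union]
        constructor
        · rintro (h | h)
          · have hv := hUb true v h
            exact ((hag v hv).1).2 ((hlayU true v hv).2 h)
          · have h' := (Finset.mem_filter.1 h).2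
            simpa using h'
        · intro h
          by_cases hv : v ∈ bx x 1
          · refine Or.inr (Finset.mem_filter.2 ⟨mem_FF.2 (Finset.mem_filter.2 ⟨hS' h, hv⟩), ?_⟩)
            simpa using h
          · exact Or.inl ((hlayU true v hv).1 (((hag v hv).1).1 h))
      have e0' : lay false (U ∪ V') = T' := by
        ext v
        rw [mem_lay, Finset.mem_union]
        constructor
        · rintro (h | h)
          · have hv := hUb false v h
            exact ((hag v hv).2).2 ((hlayU false v hv).2 h)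
          · have h' := (Finset.mem_filter.1 h).2
            simpa using h'
        · intro h
          by_cases hv : v ∈ bx x 1
          · refine Or.inr (Finset.mem_filter.2 ⟨mem_FF.2 (Finset.mem_filter.2 ⟨hT' h, hv⟩), ?_⟩)
            simpa using h
          · exact Or.inl ((hlayU false v hv).1 (((hag v hv).2).1 h))
      refine ⟨(z, true), ?_, V', Finset.filter_subset _ _, ?_⟩
      · rw [Finset.mem_map]
        exact ⟨z, Finset.mem_filter.2 ⟨hz1, hz2⟩, rfl⟩
      · refine DI_seed_one ?_ ?_
        · rw [e1', e0']; exact k3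
        · rw [e1', e0']; exact k4)
  rw [Finset.sum_map] at key
  have hcard : L.card ≤ 2 * (bx (0 : Site d) 1).card := by
    have h1 : L.card = (F.filter (fun z => z ∈ bx x 1)).card * 2 := by
      rw [hL]; unfold FF; rw [Finset.card_product]; simp
    have h2 : (F.filter (fun z => z ∈ bx x 1)).card ≤ (bx (0 : Site d) 1).card := by
      rw [← card_bx' x 1]
      exact Finset.card_le_card fun z hz => (Finset.mem_filter.1 hz).2
    omega
  have hnn : 0 ≤ ExW (FF F) (wab a b) (DI r (x, false)) :=
    ExW_nonneg (fun i _ => hε.le.trans (wab_ge ha hb i))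
      (fun i _ => (wab_le ha' hb' i).trans (by linarith)) fun s _ => DI_nonneg r _ s
  exact le_trans (mul_le_mul_of_nonneg_right (pow_le_pow_of_le_one hε.le hε1 hcard) hnn) key

open Classical in
/-- sum over the sites -/
theorem infl_open_seed_sum {r : ℕ} (hr : 1 ≤ r) (hε : 0 < ε) (hε1 : ε ≤ 1) (ha : ε ≤ a)
    (ha' : a ≤ 1 - ε) (hb : ε ≤ b) (hb' : b ≤ 1 - ε) :
    ε ^ (2 * (bx (0 : Site d) 1).card) *
      ∑ x ∈ F, ExW (FF F) (wab a b) (DI r (x, false)) ≤
      (bx (0 : Site d) 1).card * ∑ z ∈ F, ExW (FF F) (wab a b) (DI r (z, true)) := by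
  have hnn : ∀ z, 0 ≤ ExW (FF F) (wab a b) (DI r (z, true)) := fun z =>
    ExW_nonneg (fun i _ => hε.le.trans (wab_ge ha hb i))
      (fun i _ => (wab_le ha' hb' i).trans (by linarith)) fun s _ => DI_nonneg r _ s
  rw [Finset.mul_sum]
  have s1 : ∑ x ∈ F, ε ^ (2 * (bx (0 : Site d) 1).card) *
      ExW (FF F) (wab a b) (DI r (x, false)) ≤
      ∑ x ∈ F, ∑ z ∈ F, if z ∈ bx x 1 then ExW (FF F) (wab a b) (DI r (z, true)) else 0 := by
    refine Finset.sum_le_sum fun x hx => ?_
    refine (infl_open_seed hr hε hε1 ha ha' hb hb' hx).trans (le_of_eq ?_)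
    rw [Finset.sum_filter]
  refine s1.trans ?_
  rw [Finset.sum_comm, Finset.mul_sum]
  refine Finset.sum_le_sum fun z hz => ?_
  rw [← Finset.sum_filter, Finset.sum_const, nsmul_eq_mul]
  refine mul_le_mul_of_nonneg_right ?_ (hnn z)
  have : (F.filter (fun x => z ∈ bx x 1)).card ≤ (bx (0 : Site d) 1).card := by
    rw [← card_bx' z 1]
    refine Finset.card_le_card fun x hx => ?_
    have hx' := mem_bx.1 (Finset.mem_filter.1 hx).2
    rw [mem_bx]
    intro i
    rw [abs_sub_comm]
    exact hx' i
  exact_mod_cast this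

end Compare

/-- the comparison constant -/
noncomputable def Ccmp (d : ℕ) (ε : ℝ) : ℝ :=
  (bx (0 : Site d) 1).card / ε ^ (2 * (bx (0 : Site d) 1).card)

theorem Ccmp_nonneg (d : ℕ) {ε : ℝ} (hε : 0 < ε) : 0 ≤ Ccmp d ε := by
  unfold Ccmp; positivity

/-- moving along a line in the plane of the two densities -/
theorem trade_finite {r : ℕ} (hr : 1 ≤ r) (F : Finset (Site d)) {ε a b η : ℝ} (hε : 0 < ε)
    (hη : 0 ≤ η) (ha : ε ≤ a) (ha' : a + Ccmp d ε * η ≤ 1 - ε) (hb : ε ≤ b)
    (hb' : b + η ≤ 1 - ε) :
    E2 F (indI r) a (b + η) ≤ E2 F (indI r) (a + Ccmp d ε * η) b := by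
  have hε1 : ε ≤ 1 := by linarith
  set C := Ccmp d ε with hC
  have hC0 : 0 ≤ C := Ccmp_nonneg d hε
  set w : ℝ → Site d × Bool → ℝ := fun t => wab (a + C * (η - t)) (b + t) with hw
  set w' : Site d × Bool → ℝ := fun i => if i.2 then -C else 1 with hw'
  have hder : ∀ t, HasDerivAt (fun t => ExW (FF F) (w t) (fI r))
      (∑ i ∈ FF F, w' i * ExW (FF F) (w t)
        (fun s => fI r (insert i s) - fI r (s.erase i))) t := by
    intro t
    refine hasDerivAt_ExW (FF F) w w' t (fun i _ => ?_) (fI r)
    obtain ⟨v, c⟩ := i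
    cases c
    · simp only [hw, hw', wab, Bool.false_eq_true, if_false]
      exact (hasDerivAt_id t).const_add b
    · simp only [hw, hw', wab, if_true]
      have h1 := ((hasDerivAt_id t).const_sub η).const_mul C
      have h2 := h1.const_add a
      refine h2.congr_deriv ?_
      ring
  have hanti : AntitoneOn (fun t => ExW (FF F) (w t) (fI r)) (Set.Icc 0 η) := by
    refine antitoneOn_of_deriv_nonpos (convex_Icc 0 η)
      (fun t _ => (hder t).continuousAt.continuousWithinAt)
      (fun t _ => (hder t).differentiableAt.differentiableWithinAt) ?_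
    intro t ht
    rw [interior_Icc] at ht
    rw [(hder t).deriv]
    have t0 : 0 ≤ t := ht.1.le
    have t1 : t ≤ η := ht.2.le
    have q1 : 0 ≤ C * (η - t) := mul_nonneg hC0 (by linarith)
    have q2 : C * (η - t) ≤ C * η := mul_le_mul_of_nonneg_left (by linarith) hC0
    have hsum := infl_open_seed_sum (F := F) (a := a + C * (η - t)) (b := b + t) hr hε hε1
      (by linarith) (by linarith) (by linarith) (by linarith)
    have hsplit : ∑ i ∈ FF F, w' i * ExW (FF F) (w t)
        (fun s => fI r (insert i s) - fI r (s.erase i)) =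
        ∑ x ∈ F, ExW (FF F) (w t) (DI r (x, false)) -
          C * ∑ x ∈ F, ExW (FF F) (w t) (DI r (x, true)) := by
      unfold FF
      rw [Finset.sum_product, Finset.mul_sum, ← Finset.sum_sub_distrib]
      refine Finset.sum_congr rfl fun x _ => ?_
      rw [Fintype.sum_bool]
      simp only [hw', if_true, Bool.false_eq_true, if_false]
      change -C * ExW _ (w t) (DI r (x, true)) + 1 * ExW _ (w t) (DI r (x, false)) = _
      ring
    rw [hsplit]
    have hpow : 0 < ε ^ (2 * (bx (0 : Site d) 1).card) := pow_pos hε _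
    have hCe : C * ε ^ (2 * (bx (0 : Site d) 1).card) = (bx (0 : Site d) 1).card := by
      rw [hC]; unfold Ccmp
      exact div_mul_cancel₀ _ hpow.ne'
    rw [← hCe] at hsum
    have h3 : ε ^ (2 * (bx (0 : Site d) 1).card) *
        ∑ x ∈ F, ExW (FF F) (w t) (DI r (x, false)) ≤
        ε ^ (2 * (bx (0 : Site d) 1).card) *
        (C * ∑ x ∈ F, ExW (FF F) (w t) (DI r (x, true))) := by
      refine hsum.trans (le_of_eq ?_)
      ring
    have h4 := le_of_mul_le_mul_left h3 hpow
    linarith
  have h := hanti (Set.left_mem_Icc.2 hη) (Set.right_mem_Icc.2 hη) hη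
  simp only [hw] at h
  rw [sub_self, mul_zero, add_zero, sub_zero, add_zero] at h
  have l1 := ExW_FF F (indI r) a (b + η)
  have l2 := ExW_FF F (indI r) (a + C * η) b
  rw [← l1, ← l2]
  exact h

/-- the eventual occupation probability in a finite set is at most the infinite volume one -/
theorem E2_indI_le (r : ℕ) (F : Finset (Site d)) {a q : ℝ} (ha : 0 ≤ a) (ha' : a ≤ 1)
    (hq : 0 ≤ q) (hq' : q ≤ 1) : E2 F (indI r) a (1 - q) ≤ Pinf r d a q := by
  have hpt : ∀ S T : Finset (Site d),
      Tendsto (fun t => ind r t (0 : Site d) S T) atTop (𝓝 (indI r S T)) := by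
    intro S T
    by_cases h : (0 : Site d) ∈ Cl r S T
    · obtain ⟨t0, ht0⟩ := h
      have e : indI r S T = 1 := by unfold indI; rw [if_pos ⟨t0, ht0⟩]
      rw [e]
      refine tendsto_const_nhds.congr' ?_
      filter_upwards [eventually_ge_atTop t0] with t ht
      unfold ind
      rw [if_pos (Occ_mono_time ht ht0)]
    · have e : indI r S T = 0 := by unfold indI; rw [if_neg h]
      rw [e]
      refine tendsto_const_nhds.congr fun t => ?_
      unfold ind
      rw [if_neg fun hh => h ⟨t, hh⟩]
  have hlim : Tendsto (fun t => E2 F (ind r t (0 : Site d)) a (1 - q)) atTop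
      (𝓝 (E2 F (indI r) a (1 - q))) := by
    unfold E2 Ex
    refine tendsto_finsetSum _ fun S _ => ?_
    refine Tendsto.const_mul _ ?_
    refine tendsto_finsetSum _ fun T _ => ?_
    exact (hpt S T).const_mul _
  refine le_of_tendsto' hlim fun t => ?_
  have h1 : PF r t F (0 : Site d) a (1 - q) ≤ Psi r d t a (1 - q) :=
    PF_le_Psi r t F 0 ha ha' (by linarith) (by linarith)
  exact h1.trans (Psi_le_Pinf r d t ha ha' hq hq')

/-- **comparison inequality** in infinite volume -/
theorem trade {r : ℕ} (hr : 1 ≤ r) {ε a q η : ℝ} (hε : 0 < ε) (hη : 0 ≤ η) (ha : ε ≤ a)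
    (ha' : a + Ccmp d ε * η ≤ 1 - ε) (hq : ε ≤ q - η) (hq' : q ≤ 1 - ε) :
    Pinf r d a (q - η) ≤ Pinf r d (a + Ccmp d ε * η) q := by
  have hC0 : 0 ≤ Ccmp d ε * η := mul_nonneg (Ccmp_nonneg d hε) hη
  refine Pinf_le r d fun t => ?_
  have h1 : Psi r d t a (1 - (q - η)) ≤ E2 (bx (0 : Site d) t) (indI r) a (1 - (q - η)) := by
    refine E2_mono (by linarith) (by linarith) (by linarith) (by linarith) fun S T _ _ => ?_
    unfold ind indI
    by_cases h : (0 : Site d) ∈ Occ r (cfg S T) t
    · rw [if_pos h, if_pos ⟨t, h⟩]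
    · rw [if_neg h]; split_ifs <;> norm_num
  have e : 1 - (q - η) = (1 - q) + η := by ring
  have h2 := trade_finite hr (bx (0 : Site d) t) (ε := ε) (a := a) (b := 1 - q) (η := η) hε hη ha
    ha' (by linarith) (by linarith)
  rw [e] at h1 ⊢
  refine h1.trans (h2.trans ?_)
  exact E2_indI_le r _ (by linarith) (by linarith) (by linarith) (by linarith)

end Pool.Agent.PBP
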