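import Pool.Agent.PBP.LCont

/-!
Left continuity of `φ⁺`.
-/

open Finset MeasureTheory Filter Topology

namespace Pool.Agent.PBP

open F368

/-- the comparison inequality for `φ` -/
theorem phi_trade {r d : ℕ} (hr : 1 ≤ r) {δ : ℝ} (hδ : 0 < δ) {p q η : ℝ} (hη : 0 ≤ η)
    (hp : δ ≤ p) (hq : δ ≤ q - η) (hpq : p + q + Ccmp d δ * η ≤ 1 - δ) :
    phi r d p (q - η) ≤ phi r d (p + Ccmp d δ * η) q := by
  set C := Ccmp d δ with hC
  have hC0 : 0 ≤ C := Ccmp_nonneg d hδ
  have hCη : 0 ≤ C * η := mul_nonneg hC0 hη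
  have hq0 : 0 < q := by linarith
  have hb : 0 < 1 - q := by linarith
  have hb1 : 1 - q ≤ 1 := by linarith
  set a := p / (1 - q) with ha
  have hap : a * (1 - q) = p := div_mul_cancel₀ p hb.ne'
  have ha0 : δ ≤ a := by
    rw [ha, le_div_iff₀ hb]
    nlinarith
  have ha1 : a + C * η ≤ 1 - δ := by
    have h1 : (a + C * η) * (1 - q) ≤ (1 - δ) * (1 - q) := by
      rw [add_mul, hap]
      nlinarith [mul_nonneg hCη hq0.le, mul_nonneg hδ.le hq0.le]
    exact le_of_mul_le_mul_right h1 hb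
  have hkey := trade (d := d) hr hδ hη ha0 ha1 hq (by linarith)
  have e1 : phi r d (a * (1 - (q - η))) (q - η) = Pinf r d a (q - η) := by
    have hb' : 0 < 1 - (q - η) := by linarith
    rw [phi_eq r d (mul_nonneg (by linarith) hb'.le) (by linarith)
      (by nlinarith [mul_nonneg (show (0 : ℝ) ≤ 1 - a by linarith) hb'.le]) (by linarith),
      mul_div_assoc, div_self hb'.ne', mul_one]
  have e2 : phi r d ((a + C * η) * (1 - q)) q = Pinf r d (a + C * η) q := by
    rw [phi_eq r d (mul_nonneg (by linarith) hb.le) hq0.le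
      (by nlinarith [mul_nonneg (show (0 : ℝ) ≤ 1 - (a + C * η) by linarith) hb.le])
      (by linarith), mul_div_assoc, div_self hb.ne', mul_one]
  have s1 : phi r d p (q - η) ≤ phi r d (a * (1 - (q - η))) (q - η) := by
    refine phi_mono ?_ le_rfl
    rw [← hap]
    exact mul_le_mul_of_nonneg_left (by linarith) (by linarith)
  have s2 : phi r d ((a + C * η) * (1 - q)) q ≤ phi r d (p + C * η) q := by
    refine phi_mono ?_ le_rfl
    rw [add_mul, hap]
    nlinarith [mul_nonneg hCη hq0.le]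
  rw [e1] at s1
  rw [e2] at s2
  exact s1.trans (hkey.trans s2)

theorem phiPlus_le_Pinf (r d : ℕ) {a q : ℝ} (ha : 0 < a) (ha' : a ≤ 1) (hq : 0 ≤ q)
    (hq' : q < 1) : phiPlus r d q ≤ Pinf r d a q :=
  Pp_le (Pinf_plus r d) ha ha' hq hq'

theorem phi_of_nonpos (r d : ℕ) (p : ℝ) {q : ℝ} (hq : q ≤ 0) : phi r d p q = phi r d p 0 := by
  unfold phi
  have e : ∀ U : Site d → unitInterval,
      (fun v => init p q (U v)) = fun v => init p 0 (U v) := by
    intro U
    funext v
    have h1 : ¬ ((U v : unitInterval) : ℝ) < q := not_lt.2 (hq.trans (U v).2.1)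
    have h2 : ¬ ((U v : unitInterval) : ℝ) < 0 := not_lt.2 (U v).2.1
    unfold init
    rw [if_neg h1, if_neg h2]
  simp only [e]

theorem phiPlus_of_nonpos (r d : ℕ) {q : ℝ} (hq : q ≤ 0) :
    phiPlus r d q = phiPlus r d 0 := by
  have h := phiPlus_tendsto r d q
  have h' : Tendsto (fun p => phi r d p q) (𝓝[>] 0) (𝓝 (phiPlus r d 0)) := by
    simp only [phi_of_nonpos r d _ hq]; exact phiPlus_tendsto r d 0
  exact tendsto_nhds_unique h h'

theorem phi_le_one_sub (r d : ℕ) {p q : ℝ} (hp : 0 ≤ p) (hq : 0 ≤ q) (hpq : p + q ≤ 1)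
    (hq1 : q < 1) : phi r d p q ≤ 1 - q := by
  rw [phi_eq r d hp hq hpq hq1]
  refine Pinf_le r d fun t => ?_
  have hb : 0 < 1 - q := by linarith
  have ha : 0 ≤ p / (1 - q) := div_nonneg hp hb.le
  have ha' : p / (1 - q) ≤ 1 := by rw [div_le_one hb]; linarith
  have h1 := (event_meas r d t hp hq hpq hq1)
  have h2 : unif d {U | (0 : Site d) ∈ Occ r (fun v => init p q (U v)) t} ≤
      unif d {U : Site d → unitInterval | ∀ v ∈ ({0} : Finset (Site d)),
        init p q (U v) = St.closed}ᶜ := by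
    refine measure_mono fun U hU hc => ?_
    exact Occ_open hU (hc 0 (by simp))
  have h3 := unif_cyl (d := d) hp hq hpq {0} (fun _ => St.closed)
  rw [prob_compl_eq_one_sub h3.1, h3.2, h1.2] at h2
  have h4 : ∏ v ∈ ({0} : Finset (Site d)), wt p q ((fun _ => St.closed) v) = q := by simp [wt]
  rw [h4] at h2
  have h5 : ENNReal.ofReal (Psi r d t (p / (1 - q)) (1 - q)) ≤ ENNReal.ofReal (1 - q) := by
    refine h2.trans (le_of_eq ?_)
    rw [ENNReal.ofReal_sub _ hq, ENNReal.ofReal_one]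
  exact (ENNReal.ofReal_le_ofReal_iff hb.le).1 h5

theorem phiPlus_le_one_sub (r d : ℕ) {q : ℝ} (hq : 0 ≤ q) (hq1 : q < 1) :
    phiPlus r d q ≤ 1 - q := by
  refine le_of_tendsto (phiPlus_tendsto r d q) ?_
  filter_upwards [Ioo_mem_nhdsGT (show (0 : ℝ) < 1 - q by linarith)] with p hp
  exact phi_le_one_sub r d hp.1.le hq (by linarith [hp.2]) hq1

theorem phiPlus_of_gt_one (r d : ℕ) {q : ℝ} (hq : 1 ≤ q) : phiPlus r d q = 0 := by
  refine le_antisymm ?_ (phiPlus_nonneg r d q)
  rw [← phiPlus_one r d]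
  exact phiPlus_anti r d hq

/-- an upper bound near `q` from the left -/
theorem phiPlus_left_aux {r : ℕ} (hr : 1 ≤ r) (d : ℕ) {q x : ℝ} (hq : 0 < q) (hq1 : q < 1)
    (hx : phiPlus r d q < x) : ∃ q0 < q, ∀ q', q0 < q' → q' ≤ q → phiPlus r d q' < x := by
  have h1 : ∀ᶠ a in 𝓝[>] (0 : ℝ), Pinf r d a q < x :=
    (Pinf_plus r d q hq.le hq1).eventually (Iio_mem_nhds hx)
  have h2 : ∀ᶠ a in 𝓝[>] (0 : ℝ), a ∈ Set.Ioo (0 : ℝ) (1 / 2) :=
    Ioo_mem_nhdsGT (by norm_num)
  obtain ⟨a, ha1, ha2, ha3⟩ := (h1.and h2).exists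
  set ε : ℝ := min (a / 2) (min (q / 2) (1 - q)) with hεdef
  have hε : 0 < ε := lt_min (by linarith) (lt_min (by linarith) (by linarith))
  have e1 : ε ≤ a / 2 := min_le_left _ _
  have e2 : ε ≤ q / 2 := (min_le_right _ _).trans (min_le_left _ _)
  have e3 : ε ≤ 1 - q := (min_le_right _ _).trans (min_le_right _ _)
  set C := Ccmp d ε with hC
  have hC0 : 0 ≤ C := Ccmp_nonneg d hε
  have hη0 : 0 < min (q / 2) (a / 2 / (C + 1)) :=
    lt_min (by linarith) (div_pos (by linarith) (by linarith))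
  refine ⟨q - min (q / 2) (a / 2 / (C + 1)), by linarith, fun q' hq1' hq2' => ?_⟩
  set η := q - q' with hη
  have n0 : 0 ≤ η := by linarith
  have n1 : η ≤ q / 2 := by linarith [min_le_left (q / 2) (a / 2 / (C + 1))]
  have n2 : η ≤ a / 2 / (C + 1) := by linarith [min_le_right (q / 2) (a / 2 / (C + 1))]
  have n3 : C * η ≤ a / 2 := by
    have h3 : (C + 1) * η ≤ a / 2 := by
      have := mul_le_mul_of_nonneg_left n2 (show (0 : ℝ) ≤ C + 1 by linarith)
      rwa [mul_div_cancel₀ _ (by linarith : (C + 1) ≠ 0)] at this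
    linarith
  have e : q' = q - η := by rw [hη]; ring
  have k1 : phiPlus r d q' ≤ Pinf r d (a / 2) q' :=
    phiPlus_le_Pinf r d (by linarith) (by linarith) (by linarith) (by linarith)
  have k2 : Pinf r d (a / 2) (q - η) ≤ Pinf r d (a / 2 + C * η) q :=
    trade (d := d) hr hε n0 e1 (by linarith) (by linarith) (by linarith)
  have k3 : Pinf r d (a / 2 + C * η) q ≤ Pinf r d a q :=
    Pinf_mono_a r d (by linarith [mul_nonneg hC0 n0]) (by linarith) (by linarith) hq.le hq1.le
  rw [← e] at k2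
  exact (k1.trans (k2.trans k3)).trans_lt ha1

/-- `φ⁺` is left continuous -/
theorem phiPlus_left_cont {r : ℕ} (hr : 1 ≤ r) (d : ℕ) (q : ℝ) :
    ContinuousWithinAt (phiPlus r d) (Set.Iic q) q := by
  rcases le_or_gt q 0 with hq | hq
  · have h : ContinuousWithinAt (fun _ : ℝ => phiPlus r d 0) (Set.Iic q) q :=
      continuousWithinAt_const
    exact h.congr (fun y hy => phiPlus_of_nonpos r d (le_trans hy hq)) (phiPlus_of_nonpos r d hq)
  · have haux : ∀ x, phiPlus r d q < x →
        ∃ q0 < q, ∀ q', q0 < q' → q' ≤ q → phiPlus r d q' < x := by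
      intro x hx
      rcases lt_or_ge q 1 with hq1 | hq1
      · exact phiPlus_left_aux hr d hq hq1 hx
      · rcases hq1.eq_or_lt with h | h
        · subst h
          rw [phiPlus_one] at hx
          refine ⟨max 0 (1 - x), max_lt one_pos (by linarith), fun q' h1 h2 => ?_⟩
          rcases h2.lt_or_eq with h3 | h3
          · have := phiPlus_le_one_sub r d ((le_max_left 0 (1 - x)).trans h1.le) h3
            linarith [le_max_right 0 (1 - x)]
          · rw [h3, phiPlus_one]; exact hx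
        · refine ⟨1, h, fun q' h1 _ => ?_⟩
          rw [phiPlus_of_gt_one r d hq1] at hx
          rw [phiPlus_of_gt_one r d h1.le]; exact hx
    rw [ContinuousWithinAt, tendsto_order]
    constructor
    · intro x hx
      filter_upwards [self_mem_nhdsWithin] with q' hq'
      exact hx.trans_le (phiPlus_anti r d hq')
    · intro x hx
      obtain ⟨q0, h1, h2⟩ := haux x hx
      filter_upwards [self_mem_nhdsWithin, mem_nhdsWithin_of_mem_nhds (Ioi_mem_nhds h1)] with
        q' k1 k2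
      exact h2 q' k2 k1

/-- continuity at the critical point is equivalent to the vanishing of `φ⁺` there -/
theorem cont_iff {r : ℕ} (hr : 1 ≤ r) (d : ℕ) :
    ContinuousAt (phiPlus r d) (qc r d) ↔ phiPlus r d (qc r d) = 0 := by
  constructor
  · intro h
    have h1 : Tendsto (phiPlus r d) (𝓝[>] (qc r d)) (𝓝 (phiPlus r d (qc r d))) :=
      h.tendsto.mono_left nhdsWithin_le_nhds
    have h2 : Tendsto (phiPlus r d) (𝓝[>] (qc r d)) (𝓝 0) := by
      refine tendsto_const_nhds.congr' ?_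
      filter_upwards [self_mem_nhdsWithin] with q hq
      exact (phiPlus_zero_of_lt r d hq).symm
    exact tendsto_nhds_unique h1 h2
  · intro h
    rw [continuousAt_iff_continuous_left_right]
    refine ⟨phiPlus_left_cont hr d _, ?_⟩
    have h2 : ContinuousWithinAt (fun _ : ℝ => (0 : ℝ)) (Set.Ici (qc r d)) (qc r d) :=
      continuousWithinAt_const
    refine h2.congr (fun y hy => ?_) h
    rcases (show qc r d ≤ y from hy).eq_or_lt with h3 | h3
    · rw [← h3]; exact h
    · exact phiPlus_zero_of_lt r d h3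

end Pool.Agent.PBP
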