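import Pool.Agent.PBP.An2

/-!
The link between the measure on configurations and the finite volume probabilities.
-/

open Finset MeasureTheory Filter Topology

namespace Pool.Agent.PBP

open F368

variable {d : ℕ}

/-- weights of the three states -/
noncomputable def wt (p q : ℝ) : St → ℝ
  | St.closed => q
  | St.empty => 1 - p - q
  | St.occ => p

theorem init_closed_iff {p q : ℝ} {u : unitInterval} : init p q u = St.closed ↔ (u : ℝ) < q := by
  unfold init
  split_ifs with h1 h2 <;> simp [h1]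

theorem init_occ_iff {p q : ℝ} {u : unitInterval} :
    init p q u = St.occ ↔ ¬ (u : ℝ) < q ∧ 1 - p ≤ (u : ℝ) := by
  unfold init
  by_cases h1 : (u : ℝ) < q
  · simp [h1]
  · by_cases h2 : 1 - p ≤ (u : ℝ)
    · simp [h1, h2]
    · simp [h1, h2]

theorem init_empty_iff {p q : ℝ} {u : unitInterval} :
    init p q u = St.empty ↔ ¬ (u : ℝ) < q ∧ ¬ 1 - p ≤ (u : ℝ) := by
  unfold init
  by_cases h1 : (u : ℝ) < q
  · simp [h1]
  · by_cases h2 : 1 - p ≤ (u : ℝ)
    · simp [h1, h2]
    · simp [h1, h2]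

theorem init_meas_vol {p q : ℝ} (hp : 0 ≤ p) (hq : 0 ≤ q) (hpq : p + q ≤ 1) (x : St) :
    MeasurableSet {u : unitInterval | init p q u = x} ∧
      (volume : Measure unitInterval) {u : unitInterval | init p q u = x} =
        ENNReal.ofReal (wt p q x) := by
  have hq1 : q ≤ 1 := by linarith
  have hp1 : p ≤ 1 := by linarith
  cases x with
  | closed =>
    have e : {u : unitInterval | init p q u = St.closed} =
        Set.Iio (⟨q, hq, hq1⟩ : unitInterval) := by
      ext u
      rw [Set.mem_setOf_eq, init_closed_iff, Set.mem_Iio]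
      rfl
    rw [e]
    exact ⟨measurableSet_Iio, unitInterval.volume_Iio _⟩
  | empty =>
    have e : {u : unitInterval | init p q u = St.empty} =
        Set.Ico (⟨q, hq, hq1⟩ : unitInterval) ⟨1 - p, by linarith, by linarith⟩ := by
      ext u
      rw [Set.mem_setOf_eq, init_empty_iff, Set.mem_Ico, not_lt, not_le]
      rfl
    rw [e]
    exact ⟨measurableSet_Ico, unitInterval.volume_Ico _ _⟩
  | occ =>
    have e : {u : unitInterval | init p q u = St.occ} =
        Set.Ici (⟨1 - p, by linarith, by linarith⟩ : unitInterval) := by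
      ext u
      rw [Set.mem_setOf_eq, init_occ_iff, Set.mem_Ici]
      constructor
      · exact fun h => h.2
      · intro h
        have h' : 1 - p ≤ (u : ℝ) := h
        exact ⟨by linarith, h'⟩
    rw [e]
    refine ⟨measurableSet_Ici, ?_⟩
    rw [unitInterval.volume_Ici]
    congr 1
    change 1 - (1 - p) = p
    ring

theorem wt_nonneg {p q : ℝ} (hp : 0 ≤ p) (hq : 0 ≤ q) (hpq : p + q ≤ 1) (x : St) :
    0 ≤ wt p q x := by
  cases x
  · exact hq
  · change 0 ≤ 1 - p - q; linarith
  · exact hp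

/-- probability of a cylinder -/
theorem unif_cyl {p q : ℝ} (hp : 0 ≤ p) (hq : 0 ≤ q) (hpq : p + q ≤ 1)
    (F : Finset (Site d)) (c : Site d → St) :
    MeasurableSet {U : Site d → unitInterval | ∀ v ∈ F, init p q (U v) = c v} ∧
    unif d {U | ∀ v ∈ F, init p q (U v) = c v} = ENNReal.ofReal (∏ v ∈ F, wt p q (c v)) := by
  have e : {U : Site d → unitInterval | ∀ v ∈ F, init p q (U v) = c v} =
      Set.pi (F : Set (Site d)) (fun v => {u | init p q u = c v}) := by
    ext U
    simp [Set.mem_pi]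
  rw [e]
  refine ⟨MeasurableSet.pi F.countable_toSet fun v _ => (init_meas_vol hp hq hpq (c v)).1, ?_⟩
  unfold unif
  rw [Measure.infinitePi_pi (μ := fun _ : Site d => (volume : Measure unitInterval))
    (fun v _ => (init_meas_vol hp hq hpq (c v)).1),
    ENNReal.ofReal_prod_of_nonneg (fun v _ => wt_nonneg hp hq hpq (c v))]
  exact Finset.prod_congr rfl fun v _ => (init_meas_vol hp hq hpq (c v)).2

/-- open sites and seeds in `F` -/
noncomputable def gset (p q : ℝ) (F : Finset (Site d)) (U : Site d → unitInterval) :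
    Finset (Site d) × Finset (Site d) :=
  (F.filter (fun v => init p q (U v) = St.occ), F.filter (fun v => init p q (U v) ≠ St.closed))

theorem gset_eq_iff {p q : ℝ} {F S T : Finset (Site d)} (hST : S ⊆ T) (hT : T ⊆ F)
    (U : Site d → unitInterval) :
    gset p q F U = (S, T) ↔ ∀ v ∈ F, init p q (U v) = cfg S T v := by
  unfold gset
  rw [Prod.mk.injEq]
  constructor
  · rintro ⟨rfl, rfl⟩ v hv
    unfold cfg
    cases h : init p q (U v) <;> simp [h, hv]
  · intro h
    constructor
    · ext v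
      rw [Finset.mem_filter]
      constructor
      · rintro ⟨hv, ho⟩
        rw [h v hv, cfg_eq_occ] at ho
        exact ho.2
      · intro hv
        have hv' := hT (hST hv)
        exact ⟨hv', by rw [h v hv', cfg_eq_occ]; exact ⟨hST hv, hv⟩⟩
    · ext v
      rw [Finset.mem_filter]
      constructor
      · rintro ⟨hv, ho⟩
        rw [h v hv, cfg_ne_closed] at ho
        exact ho
      · intro hv
        have hv' := hT hv
        exact ⟨hv', by rw [h v hv', cfg_ne_closed]; exact hv⟩

theorem prod_wt (p q : ℝ) {F S T : Finset (Site d)} (hST : S ⊆ T) (hT : T ⊆ F) :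
    ∏ v ∈ F, wt p q (cfg S T v) =
      p ^ S.card * (1 - p - q) ^ (T \ S).card * q ^ (F \ T).card := by
  rw [← Finset.prod_sdiff hT, ← Finset.prod_sdiff hST]
  have e1 : ∏ v ∈ F \ T, wt p q (cfg S T v) = q ^ (F \ T).card := by
    rw [Finset.prod_congr rfl (g := fun _ => q), Finset.prod_const]
    intro v hv
    have hv' := (Finset.mem_sdiff.1 hv).2
    unfold cfg
    rw [if_neg hv']
    rfl
  have e2 : ∏ v ∈ T \ S, wt p q (cfg S T v) = (1 - p - q) ^ (T \ S).card := by
    rw [Finset.prod_congr rfl (g := fun _ => 1 - p - q), Finset.prod_const]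
    intro v hv
    have hv' := Finset.mem_sdiff.1 hv
    unfold cfg
    rw [if_pos hv'.1, if_neg hv'.2]
    rfl
  have e3 : ∏ v ∈ S, wt p q (cfg S T v) = p ^ S.card := by
    rw [Finset.prod_congr rfl (g := fun _ => p), Finset.prod_const]
    intro v hv
    unfold cfg
    rw [if_pos (hST hv), if_pos hv]
    rfl
  rw [e1, e2, e3]
  ring

/-- the finite volume probability as a sum -/
theorem Psi_sum (r d t : ℕ) {p q : ℝ} (hq : q < 1) :
    Psi r d t (p / (1 - q)) (1 - q) = ∑ T ∈ (bx (0 : Site d) t).powerset, ∑ S ∈ T.powerset,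
      ind r t 0 S T *
        (p ^ S.card * (1 - p - q) ^ (T \ S).card * q ^ (bx (0 : Site d) t \ T).card) := by
  set F := bx (0 : Site d) t with hF
  have hb : (1 - q) ≠ 0 := by linarith
  have e1 : Psi r d t (p / (1 - q)) (1 - q) =
      Ex F (1 - q) (fun T => Ex F (p / (1 - q)) (fun S => ind r t 0 S T)) := E2_comm _ _ _ _
  rw [e1]
  have e2 : Ex F (1 - q) (fun T => Ex F (p / (1 - q)) (fun S => ind r t 0 S T)) =
      Ex F (1 - q) (fun T => Ex T (p / (1 - q)) (fun S => ind r t 0 S T)) := by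
    refine Ex_congr fun T hT => Ex_of_subset hT _ _ fun S _ => ?_
    refine ind_congr ?_
    have : cfg S T = cfg (S ∩ T) T := by
      funext v
      unfold cfg
      by_cases h : v ∈ T <;> simp [h]
    rw [this]
  rw [e2]
  unfold Ex
  refine Finset.sum_congr rfl fun T hT => ?_
  rw [Finset.mul_sum]
  refine Finset.sum_congr rfl fun S hS => ?_
  have hST := Finset.mem_powerset.1 hS
  have ecard : T.card = S.card + (T \ S).card := by
    rw [Finset.card_sdiff_of_subset hST]
    have := Finset.card_le_card hST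
    omega
  have e3 : (1 - q) ^ T.card * ((p / (1 - q)) ^ S.card * (1 - p / (1 - q)) ^ (T \ S).card) =
      p ^ S.card * (1 - p - q) ^ (T \ S).card := by
    rw [ecard, pow_add]
    have a1 : (1 - q) ^ S.card * (p / (1 - q)) ^ S.card = p ^ S.card := by
      rw [← mul_pow]; congr 1; field_simp
    have a2 : (1 - q) ^ (T \ S).card * (1 - p / (1 - q)) ^ (T \ S).card =
        (1 - p - q) ^ (T \ S).card := by
      rw [← mul_pow]; congr 1; field_simp; ring
    rw [← a1, ← a2]; ring
  have e4 : (1 : ℝ) - (1 - q) = q := by ring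
  rw [e4, ← e3]
  ring

/-- the event that the origin is occupied at time `t` -/
theorem event_meas (r d t : ℕ) {p q : ℝ} (hp : 0 ≤ p) (hq : 0 ≤ q) (hpq : p + q ≤ 1)
    (hq1 : q < 1) :
    MeasurableSet {U : Site d → unitInterval |
      (0 : Site d) ∈ Occ r (fun v => init p q (U v)) t} ∧
    unif d {U | (0 : Site d) ∈ Occ r (fun v => init p q (U v)) t} =
      ENNReal.ofReal (Psi r d t (p / (1 - q)) (1 - q)) := by
  classical
  set F := bx (0 : Site d) t with hF
  set s : Finset (Finset (Site d) × Finset (Site d)) :=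
    (F.powerset ×ˢ F.powerset).filter
      (fun x => x.1 ⊆ x.2 ∧ (0 : Site d) ∈ Occ r (cfg x.1 x.2) t) with hs
  have hmem : ∀ x ∈ s, x.1 ⊆ x.2 ∧ x.2 ⊆ F ∧ (0 : Site d) ∈ Occ r (cfg x.1 x.2) t := by
    intro x hx
    rw [hs, Finset.mem_filter, Finset.mem_product, Finset.mem_powerset,
      Finset.mem_powerset] at hx
    exact ⟨hx.2.1, hx.1.2, hx.2.2⟩
  have hev : {U : Site d → unitInterval | (0 : Site d) ∈ Occ r (fun v => init p q (U v)) t} =
      gset p q F ⁻¹' (s : Set (Finset (Site d) × Finset (Site d))) := by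
    ext U
    rw [Set.mem_setOf_eq, Set.mem_preimage, Finset.mem_coe, hs, Finset.mem_filter,
      Finset.mem_product, Finset.mem_powerset, Finset.mem_powerset]
    have h1 : (gset p q F U).1 ⊆ (gset p q F U).2 := by
      intro v hv
      unfold gset at hv ⊢
      rw [Finset.mem_filter] at hv ⊢
      refine ⟨hv.1, ?_⟩
      rw [hv.2]; exact St.noConfusion
    have h2 : (gset p q F U).2 ⊆ F := Finset.filter_subset _ _
    have h3 : ∀ u ∈ bx (0 : Site d) t, (fun v => init p q (U v)) u =
        cfg (gset p q F U).1 (gset p q F U).2 u := by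
      intro u hu
      exact (gset_eq_iff h1 h2 U).1 rfl u hu
    rw [Occ_local t 0 h3]
    exact ⟨fun h => ⟨⟨h1.trans h2, h2⟩, h1, h⟩, fun h => h.2.2⟩
  have hfib : ∀ x ∈ s, gset p q F ⁻¹' {x} =
      {U : Site d → unitInterval | ∀ v ∈ F, init p q (U v) = cfg x.1 x.2 v} := by
    intro x hx
    obtain ⟨h1, h2, -⟩ := hmem x hx
    ext U
    rw [Set.mem_preimage, Set.mem_singleton_iff, Set.mem_setOf_eq, ← gset_eq_iff h1 h2]
  have hfm : ∀ x ∈ s, MeasurableSet (gset p q F ⁻¹' {x}) := by
    intro x hx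
    rw [hfib x hx]
    exact (unif_cyl hp hq hpq F _).1
  have hset : gset p q F ⁻¹' (s : Set (Finset (Site d) × Finset (Site d))) =
      ⋃ x ∈ s, gset p q F ⁻¹' {x} := by
    ext U; simp
  constructor
  · rw [hev, hset]
    exact s.measurableSet_biUnion hfm
  · rw [hev, ← sum_measure_preimage_singleton s hfm]
    have e1 : ∀ x ∈ s, unif d (gset p q F ⁻¹' {x}) = ENNReal.ofReal
        (p ^ x.1.card * (1 - p - q) ^ (x.2 \ x.1).card * q ^ (F \ x.2).card) := by
      intro x hx
      obtain ⟨h1, h2, -⟩ := hmem x hx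
      rw [hfib x hx, (unif_cyl hp hq hpq F _).2, prod_wt p q h1 h2]
    have hnn : ∀ x : Finset (Site d) × Finset (Site d),
        0 ≤ p ^ x.1.card * (1 - p - q) ^ (x.2 \ x.1).card * q ^ (F \ x.2).card := fun x => by
      have : 0 ≤ 1 - p - q := by linarith
      positivity
    rw [Finset.sum_congr rfl e1, ← ENNReal.ofReal_sum_of_nonneg (fun x _ => hnn x),
      Psi_sum r d t hq1]
    congr 1
    rw [hs, Finset.sum_filter, Finset.sum_product_right]
    refine Finset.sum_congr rfl fun T hT => ?_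
    have hT' := Finset.mem_powerset.1 hT
    have e2 : T.powerset = F.powerset.filter (fun S => S ⊆ T) := by
      ext S
      rw [Finset.mem_filter, Finset.mem_powerset, Finset.mem_powerset]
      exact ⟨fun h => ⟨h.trans hT', h⟩, fun h => h.2⟩
    rw [e2, Finset.sum_filter]
    refine Finset.sum_congr rfl fun S _ => ?_
    by_cases h1 : S ⊆ T
    · by_cases h2 : (0 : Site d) ∈ Occ r (cfg S T) t
      · have e3 : ind r t (0 : Site d) S T = 1 := by unfold ind; rw [if_pos h2]
        rw [if_pos ⟨h1, h2⟩, if_pos h1, e3, one_mul]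
      · have e3 : ind r t (0 : Site d) S T = 0 := by unfold ind; rw [if_neg h2]
        rw [if_neg (fun h => h2 h.2), if_pos h1, e3, zero_mul]
    · rw [if_neg (fun h => h1 h.1), if_neg h1]

/-- the link -/
theorem phi_eq (r d : ℕ) {p q : ℝ} (hp : 0 ≤ p) (hq : 0 ≤ q) (hpq : p + q ≤ 1)
    (hq1 : q < 1) : phi r d p q = Pinf r d (p / (1 - q)) q := by
  have ha : 0 ≤ p / (1 - q) := div_nonneg hp (by linarith)
  have ha' : p / (1 - q) ≤ 1 := by rw [div_le_one (by linarith)]; linarith
  have hmono : Monotone (fun t : ℕ => {U : Site d → unitInterval |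
      (0 : Site d) ∈ Occ r (fun v => init p q (U v)) t}) :=
    fun s t hst U hU => Occ_mono_time hst hU
  have h1 := tendsto_measure_iUnion_atTop (μ := unif d) hmono
  have e : (⋃ t : ℕ, {U : Site d → unitInterval |
      (0 : Site d) ∈ Occ r (fun v => init p q (U v)) t}) =
      {U | ∃ t, (0 : Site d) ∈ Occ r (fun v => init p q (U v)) t} := by
    ext U; simp
  rw [e] at h1
  have h2 : Tendsto (fun t : ℕ => ENNReal.ofReal (Psi r d t (p / (1 - q)) (1 - q))) atTop
      (𝓝 (ENNReal.ofReal (Pinf r d (p / (1 - q)) q))) :=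
    ENNReal.tendsto_ofReal (Pinf_tendsto r d ha ha' hq hq1.le)
  have h3 : unif d {U | ∃ t, (0 : Site d) ∈ Occ r (fun v => init p q (U v)) t} =
      ENNReal.ofReal (Pinf r d (p / (1 - q)) q) := by
    refine tendsto_nhds_unique h1 ?_
    refine h2.congr fun t => ?_
    exact ((event_meas r d t hp hq hpq hq1).2).symm
  unfold phi
  rw [h3, ENNReal.toReal_ofReal]
  exact (Psi_nonneg r 0 ha ha' (by linarith) (by linarith)).trans
    (Psi_le_Pinf r d 0 ha ha' hq hq1.le)

instance (d : ℕ) : IsProbabilityMeasure (unif d) := by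
  unfold unif; infer_instance

theorem phi_nonneg (r d : ℕ) (p q : ℝ) : 0 ≤ phi r d p q := ENNReal.toReal_nonneg

theorem phi_le_one (r d : ℕ) (p q : ℝ) : phi r d p q ≤ 1 := by
  unfold phi
  have h : unif d {U | ∃ t, (0 : Site d) ∈ Occ r (fun v => init p q (U v)) t} ≤ 1 := prob_le_one
  have := ENNReal.toReal_mono ENNReal.one_ne_top h
  simpa using this

theorem phi_mono {r d : ℕ} {p p' q q' : ℝ} (hp : p ≤ p') (hq : q' ≤ q) :
    phi r d p q ≤ phi r d p' q' := by
  unfold phi
  refine ENNReal.toReal_mono (measure_ne_top _ _) (measure_mono ?_)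
  rintro U ⟨t, ht⟩
  refine ⟨t, Occ_mono ?_ ?_ t ht⟩
  · intro v hv
    rw [init_occ_iff] at hv ⊢
    exact ⟨fun h => hv.1 (h.trans_le hq), by linarith [hv.2]⟩
  · intro v hv
    rw [Ne, init_closed_iff] at hv ⊢
    exact fun h => hv (h.trans_le hq)

theorem phiPlus_tendsto (r d : ℕ) (q : ℝ) :
    Tendsto (fun p => phi r d p q) (𝓝[>] 0) (𝓝 (phiPlus r d q)) := by
  have hm : Monotone (fun p => phi r d p q) := fun p p' h => phi_mono h le_rfl
  exact tendsto_nhds_limUnder ⟨_, hm.tendsto_nhdsGT 0⟩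

theorem phiPlus_anti (r d : ℕ) {q q' : ℝ} (h : q ≤ q') : phiPlus r d q' ≤ phiPlus r d q :=
  le_of_tendsto_of_tendsto' (phiPlus_tendsto r d q') (phiPlus_tendsto r d q)
    fun _ => phi_mono le_rfl h

theorem phiPlus_nonneg (r d : ℕ) (q : ℝ) : 0 ≤ phiPlus r d q :=
  ge_of_tendsto' (phiPlus_tendsto r d q) fun _ => phi_nonneg _ _ _ _

theorem phiPlus_le_one (r d : ℕ) (q : ℝ) : phiPlus r d q ≤ 1 :=
  le_of_tendsto' (phiPlus_tendsto r d q) fun _ => phi_le_one _ _ _ _

/-- the same limit in the other parametrization -/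
theorem Pinf_plus (r d : ℕ) : ∀ q, 0 ≤ q → q < 1 →
    Tendsto (fun a => Pinf r d a q) (𝓝[>] 0) (𝓝 (phiPlus r d q)) := by
  intro q hq hq'
  have hb : 0 < 1 - q := by linarith
  have h1 : Tendsto (fun a : ℝ => a * (1 - q)) (𝓝[>] 0) (𝓝[>] 0) := by
    refine tendsto_nhdsWithin_iff.2 ⟨?_, ?_⟩
    · have : Tendsto (fun a : ℝ => a * (1 - q)) (𝓝 0) (𝓝 (0 * (1 - q))) :=
        (tendsto_id.mul_const _)
      rw [zero_mul] at this
      exact this.mono_left nhdsWithin_le_nhds
    · filter_upwards [self_mem_nhdsWithin] with a ha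
      exact mul_pos ha hb
  have h2 := (phiPlus_tendsto r d q).comp h1
  refine h2.congr' ?_
  filter_upwards [Ioo_mem_nhdsGT (zero_lt_one (α := ℝ))] with a ha
  have e := phi_eq r d (p := a * (1 - q)) (q := q) (mul_nonneg ha.1.le hb.le) hq
    (by nlinarith [ha.2]) hq'
  change phi r d (a * (1 - q)) q = Pinf r d a q
  rw [e, mul_div_assoc, div_self hb.ne', mul_one]

end Pool.Agent.PBP
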