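import Pool.Agent.PBP.Link

/-!
Sharpness of the phase transition.
-/

open Finset MeasureTheory Filter Topology

namespace Pool.Agent.PBP

open F368

theorem phi_one (r d : ℕ) (p : ℝ) : phi r d p 1 = 0 := by
  have h1 := (unif_cyl (d := d) (p := 0) (q := 1) le_rfl zero_le_one (by norm_num)
    {0} (fun _ => St.closed))
  have h2 : unif d {U : Site d → unitInterval | ∀ v ∈ ({0} : Finset (Site d)),
      init 0 1 (U v) = St.closed} = 1 := by
    rw [h1.2]; simp [wt]
  have h3 : unif d {U : Site d → unitInterval | ∀ v ∈ ({0} : Finset (Site d)),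
      init 0 1 (U v) = St.closed}ᶜ = 0 := (prob_compl_eq_zero_iff h1.1).2 h2
  have h4 : unif d {U | ∃ t, (0 : Site d) ∈ Occ r (fun v => init p 1 (U v)) t} = 0 := by
    refine measure_mono_null ?_ h3
    rintro U ⟨t, ht⟩ hU
    have h5 := Occ_open ht
    have h6 := hU 0 (by simp)
    rw [init_closed_iff] at h6
    exact h5 (init_closed_iff.2 h6)
  unfold phi
  rw [h4]; rfl

theorem phiPlus_one (r d : ℕ) : phiPlus r d 1 = 0 := by
  have h := phiPlus_tendsto r d 1
  have h' : Tendsto (fun p => phi r d p 1) (𝓝[>] 0) (𝓝 0) := by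
    simp only [phi_one]; exact tendsto_const_nhds
  exact tendsto_nhds_unique h h'

theorem qc_bdd (r d : ℕ) : BddBelow {q : ℝ | 0 ≤ q ∧ q ≤ 1 ∧ phiPlus r d q = 0} :=
  ⟨0, fun _ h => h.1⟩

theorem qc_nonempty (r d : ℕ) : {q : ℝ | 0 ≤ q ∧ q ≤ 1 ∧ phiPlus r d q = 0}.Nonempty :=
  ⟨1, zero_le_one, le_rfl, phiPlus_one r d⟩

theorem qc_le_one (r d : ℕ) : qc r d ≤ 1 :=
  csInf_le (qc_bdd r d) ⟨zero_le_one, le_rfl, phiPlus_one r d⟩

theorem qc_nonneg (r d : ℕ) : 0 ≤ qc r d :=
  le_csInf (qc_nonempty r d) fun _ h => h.1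

theorem phiPlus_pos (r d : ℕ) {q : ℝ} (hq : 0 ≤ q) (hq' : q < qc r d) : 0 < phiPlus r d q := by
  refine lt_of_le_of_ne (phiPlus_nonneg r d q) fun h => ?_
  exact absurd (csInf_le (qc_bdd r d) ⟨hq, hq'.le.trans (qc_le_one r d), h.symm⟩)
    (not_le.2 hq')

theorem phiPlus_zero_of_lt (r d : ℕ) {q : ℝ} (hq : qc r d < q) : phiPlus r d q = 0 := by
  obtain ⟨q0, hq0, hlt⟩ := exists_lt_of_csInf_lt (qc_nonempty r d) hq
  refine le_antisymm ?_ (phiPlus_nonneg r d q)
  rw [← hq0.2.2]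
  exact phiPlus_anti r d hlt.le

theorem ratio_mono (r d : ℕ) {q1 q2 : ℝ} (h1 : 0 < q1) (h12 : q1 ≤ q2) (h2 : q2 < qc r d) :
    (1 - phiPlus r d q1) / q1 ≤ (1 - phiPlus r d q2) / q2 :=
  step2 (Pinf_plus r d) h1 h12 (h2.trans_le (qc_le_one r d))
    (phiPlus_pos r d (h1.le.trans h12) h2)

theorem linear_lower_pos (r d : ℕ) {q : ℝ} (hq : 0 < q) (hq' : q < qc r d) :
    1 - q / qc r d ≤ phiPlus r d q := by
  have hqc : 0 < qc r d := hq.trans hq'
  by_contra hcon
  push Not at hcon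
  set x := 1 - phiPlus r d q with hx
  have hx0 : q / qc r d < x := by rw [hx]; linarith
  have hxpos : 0 < x := (div_pos hq hqc).trans hx0
  have hlt : q / x < qc r d := by
    rw [div_lt_iff₀ hqc] at hx0
    rw [div_lt_iff₀ hxpos]; linarith
  obtain ⟨q', h1, h2⟩ := exists_between (max_lt hq' hlt)
  have h3 : q < q' := (le_max_left _ _).trans_lt h1
  have h4 : q / x < q' := (le_max_right _ _).trans_lt h1
  have h5 := ratio_mono r d hq h3.le h2
  have h6 : (1 - phiPlus r d q') / q' ≤ 1 / q' :=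
    div_le_div_of_nonneg_right (by linarith [phiPlus_nonneg r d q']) (hq.trans h3).le
  have h7 : x / q ≤ 1 / q' := h5.trans h6
  rw [div_le_div_iff₀ hq (hq.trans h3)] at h7
  rw [div_lt_iff₀ hxpos] at h4
  linarith

theorem linear_lower (r d : ℕ) {q : ℝ} (hq : 0 ≤ q) (hq' : q < qc r d) :
    1 - q / qc r d ≤ phiPlus r d q := by
  rcases hq.lt_or_eq with h | h
  · exact linear_lower_pos r d h hq'
  · subst h
    rw [zero_div, sub_zero]
    refine le_of_forall_pos_le_add fun ε hε => ?_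
    obtain ⟨q', h1, h2⟩ := exists_between (lt_min hq' (mul_pos hε hq'))
    have h3 : q' < qc r d := h2.trans_le (min_le_left _ _)
    have h4 : q' < ε * qc r d := h2.trans_le (min_le_right _ _)
    have h5 := linear_lower_pos r d h1 h3
    have h6 := phiPlus_anti r d h1.le
    have h7 : q' / qc r d < ε := by rwa [div_lt_iff₀ hq']
    linarith

theorem linear_response (r d : ℕ) {q : ℝ} (hq : qc r d < q) (hq' : q ≤ 1) :
    ∃ C, ∀ p, 0 ≤ p → p + q ≤ 1 → phi r d p q ≤ C * p := by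
  have hqc := qc_nonneg r d
  -- first the case of positive `p`
  have key : ∀ q, qc r d < q → q < 1 → ∃ C, 0 ≤ C ∧ ∀ p, 0 < p → p + q ≤ 1 →
      phi r d p q ≤ C * p := by
    intro q hq hq1
    obtain ⟨q1, h1, h2⟩ := exists_between hq
    obtain ⟨C, hC, H⟩ := step4 (Pinf_plus r d) (hqc.trans_lt h1) h2 hq1
      (phiPlus_zero_of_lt r d h1)
    have hb : 0 < 1 - q := by linarith
    refine ⟨C / (1 - q), div_nonneg hC hb.le, fun p hp hpq => ?_⟩
    rw [phi_eq r d hp.le (hqc.trans hq.le) hpq hq1]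
    refine (H (p / (1 - q)) (div_pos hp hb) ?_).trans (le_of_eq ?_)
    · rw [div_le_one hb]; linarith
    · ring
  have hzero : ∀ q, qc r d < q → q < 1 → phi r d 0 q ≤ 0 := by
    intro q hq hq1
    obtain ⟨C, hC, H⟩ := key q hq hq1
    refine le_of_forall_pos_le_add fun ε hε => ?_
    have hb : 0 < 1 - q := by linarith
    set p := min (1 - q) (ε / (C + 1)) with hp
    have hp0 : 0 < p := lt_min hb (by positivity)
    have h1 := H p hp0 (by linarith [min_le_left (1 - q) (ε / (C + 1))])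
    have h2 : C * p ≤ ε := by
      have h3 : p ≤ ε / (C + 1) := min_le_right _ _
      have h4 : (C + 1) * p ≤ ε := by
        have := mul_le_mul_of_nonneg_left h3 (by linarith : (0 : ℝ) ≤ C + 1)
        rwa [mul_div_cancel₀ _ (by linarith : (C + 1) ≠ 0)] at this
      nlinarith
    have h5 : phi r d 0 q ≤ phi r d p q := phi_mono hp0.le le_rfl
    linarith
  rcases hq'.lt_or_eq with h | h
  · obtain ⟨C, hC, H⟩ := key q hq h
    refine ⟨C, fun p hp hpq => ?_⟩
    rcases hp.lt_or_eq with h' | h'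
    · exact H p h' hpq
    · subst h'
      rw [mul_zero]; exact hzero q hq h
  · subst h
    refine ⟨0, fun p hp hpq => ?_⟩
    rw [phi_one]; linarith

end Pool.Agent.PBP
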