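import Pool.Agent.PBP.Tree

/-!
The differential inequality.
-/

open Finset

namespace Pool.Agent.PBP

open F368

section General

variable {ι : Type*} [DecidableEq ι]

/-- Jensen for the square -/
theorem sq_Ex_le {F : Finset ι} {p : ℝ} (h0 : 0 ≤ p) (h1 : p ≤ 1) (f : Finset ι → ℝ) :
    (Ex F p f) ^ 2 ≤ Ex F p (fun s => f s ^ 2) := by
  have h : 0 ≤ Ex F p (fun s => (f s - Ex F p f) ^ 2) :=
    Ex_nonneg h0 h1 fun s _ => sq_nonneg _
  have e : Ex F p (fun s => (f s - Ex F p f) ^ 2) =
      Ex F p (fun s => f s ^ 2) - (Ex F p f) ^ 2 := by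
    have e1 : Ex F p (fun s => (f s - Ex F p f) ^ 2) =
        Ex F p (fun s => (f s ^ 2 - 2 * Ex F p f * f s) + (Ex F p f) ^ 2) :=
      Ex_congr fun s _ => by ring
    rw [e1, Ex_add, Ex_sub, Ex_smul, Ex_const]
    ring
  linarith

/-- Efron-Stein inequality -/
theorem efron_stein {p : ℝ} (h0 : 0 ≤ p) (h1 : p ≤ 1) (F : Finset ι) : ∀ h : Finset ι → ℝ,
    Ex F p (fun s => h s ^ 2) - (Ex F p h) ^ 2 ≤
      ∑ j ∈ F, p * (1 - p) * Ex F p (fun s => (h (insert j s) - h (s.erase j)) ^ 2) := by
  induction F using Finset.induction_on with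
  | empty => intro h; simp [Ex_empty]
  | insert i F hi ih =>
    intro h
    have hp : 0 ≤ 1 - p := by linarith
    set h' : Finset ι → ℝ := fun s => h (insert i s) with hh'
    have e1 : Ex (insert i F) p (fun s => h s ^ 2) =
        (1 - p) * Ex F p (fun s => h s ^ 2) + p * Ex F p (fun s => h' s ^ 2) := Ex_insert hi p _
    have e2 : Ex (insert i F) p h = (1 - p) * Ex F p h + p * Ex F p h' := Ex_insert hi p _
    have k1 : (Ex F p h' - Ex F p h) ^ 2 ≤ Ex F p (fun s => (h' s - h s) ^ 2) := by
      rw [← Ex_sub]; exact sq_Ex_le h0 h1 _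
    have b1 : Ex (insert i F) p (fun s => (h (insert i s) - h (s.erase i)) ^ 2) =
        Ex F p (fun s => (h' s - h s) ^ 2) := by
      rw [Ex_insert hi]
      have c1 : Ex F p (fun s => (h (insert i s) - h (s.erase i)) ^ 2) =
          Ex F p (fun s => (h' s - h s) ^ 2) := by
        refine Ex_congr fun s hs => ?_
        rw [Finset.erase_eq_of_notMem (fun h => hi (hs h))]
      have c2 : Ex F p (fun s => (h (insert i (insert i s)) - h ((insert i s).erase i)) ^ 2) =
          Ex F p (fun s => (h' s - h s) ^ 2) := by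
        refine Ex_congr fun s hs => ?_
        rw [Finset.insert_idem, Finset.erase_insert (fun h => hi (hs h))]
      rw [c1, c2]; ring
    have b2 : ∀ j ∈ F, Ex (insert i F) p (fun s => (h (insert j s) - h (s.erase j)) ^ 2) =
        (1 - p) * Ex F p (fun s => (h (insert j s) - h (s.erase j)) ^ 2) +
        p * Ex F p (fun s => (h' (insert j s) - h' (s.erase j)) ^ 2) := by
      intro j hj
      rw [Ex_insert hi]
      congr 2
      refine Ex_congr fun s hs => ?_
      have hij : i ≠ j := fun h => hi (h ▸ hj)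
      rw [hh', Finset.insert_comm j i s, Finset.erase_insert_of_ne hij]
    rw [Finset.sum_insert hi, e1, e2, b1]
    have s1 : ∑ j ∈ F, p * (1 - p) *
        Ex (insert i F) p (fun s => (h (insert j s) - h (s.erase j)) ^ 2) =
        (1 - p) * ∑ j ∈ F, p * (1 - p) * Ex F p (fun s => (h (insert j s) - h (s.erase j)) ^ 2) +
        p * ∑ j ∈ F, p * (1 - p) *
          Ex F p (fun s => (h' (insert j s) - h' (s.erase j)) ^ 2) := by
      rw [Finset.mul_sum, Finset.mul_sum, ← Finset.sum_add_distrib]
      refine Finset.sum_congr rfl fun j hj => ?_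
      rw [b2 j hj]; ring
    rw [s1]
    have i1 := mul_le_mul_of_nonneg_left (ih h) hp
    have i2 := mul_le_mul_of_nonneg_left (ih h') h0
    have i3 := mul_le_mul_of_nonneg_left k1 (mul_nonneg h0 hp)
    nlinarith [i1, i2, i3]

/-- influence of a coordinate on a monotone function -/
theorem Infl_le_of_mono {F : Finset ι} {p : ℝ} (h0 : 0 ≤ p) (h1 : p ≤ 1) {j : ι} (hj : j ∈ F)
    {g : Finset ι → ℝ} (hg : ∀ s t, s ⊆ t → g s ≤ g t) :
    Infl F p j g = 2 * p * (1 - p) * Ex F p (fun s => g (insert j s) - g (s.erase j)) := by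
  have hp : 0 ≤ 1 - p := by linarith
  unfold Infl
  rw [Ex_erase hj, Ex_erase hj p (fun s => g (insert j s) - g (s.erase j))]
  have c1 : Ex (F.erase j) p (fun s => |g s - avg p j g s|) =
      p * Ex (F.erase j) p (fun s => g (insert j s) - g s) := by
    rw [← Ex_smul]
    refine Ex_congr fun s hs => ?_
    have hjs : j ∉ s := fun h => Finset.notMem_erase j F (hs h)
    unfold avg
    rw [Finset.erase_eq_of_notMem hjs]
    have e : g s - (p * g (insert j s) + (1 - p) * g s) = -(p * (g (insert j s) - g s)) := by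
      ring
    rw [e, abs_neg, abs_of_nonneg (mul_nonneg h0 (sub_nonneg.2 (hg _ _
      (Finset.subset_insert _ _))))]
  have c2 : Ex (F.erase j) p (fun s => |g (insert j s) - avg p j g (insert j s)|) =
      (1 - p) * Ex (F.erase j) p (fun s => g (insert j s) - g s) := by
    rw [← Ex_smul]
    refine Ex_congr fun s hs => ?_
    have hjs : j ∉ s := fun h => Finset.notMem_erase j F (hs h)
    unfold avg
    rw [Finset.insert_idem, Finset.erase_insert hjs]
    have e : g (insert j s) - (p * g (insert j s) + (1 - p) * g s) =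
      (1 - p) * (g (insert j s) - g s) := by ring
    rw [e, abs_of_nonneg (mul_nonneg hp (sub_nonneg.2 (hg _ _ (Finset.subset_insert _ _))))]
  have c3 : Ex (F.erase j) p (fun s => g (insert j s) - g (s.erase j)) =
      Ex (F.erase j) p (fun s => g (insert j s) - g s) := by
    refine Ex_congr fun s hs => ?_
    rw [Finset.erase_eq_of_notMem (fun h => Finset.notMem_erase j F (hs h))]
  have c4 : Ex (F.erase j) p (fun s => g (insert j (insert j s)) - g ((insert j s).erase j)) =
      Ex (F.erase j) p (fun s => g (insert j s) - g s) := by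
    refine Ex_congr fun s hs => ?_
    rw [Finset.insert_idem, Finset.erase_insert (fun h => Finset.notMem_erase j F (hs h))]
  rw [c1, c2, c3, c4]
  ring

end General

variable {d : ℕ}

/-- the seeds part -/
theorem seeds_part (r t : ℕ) {a b : ℝ} (ha : 0 ≤ a) (ha' : a ≤ 1) (hb : 0 ≤ b) (hb' : b ≤ 1) :
    Psi r d t a b - Ex (bx (0 : Site d) t) b
      (fun T => (Ex (bx (0 : Site d) t) a (fun S => ind r t 0 S T)) ^ 2) ≤
      a * (1 - a) * PsiA r d t a b := by
  set F := bx (0 : Site d) t with hF
  have e1 : Psi r d t a b = Ex F b (fun T => Ex F a (fun S => ind r t 0 S T)) :=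
    E2_comm _ _ _ _
  have e2 : PsiA r d t a b = Ex F b (fun T => ∑ x ∈ F, Ex F a
      (fun S => ind r t 0 (insert x S) T - ind r t 0 (S.erase x) T)) := by
    rw [Ex_sum]
    unfold PsiA
    exact Finset.sum_congr rfl fun x _ => E2_comm _ _ _ _
  rw [e1, e2, ← Ex_sub, ← Ex_smul]
  refine Ex_mono hb hb' fun T _ => ?_
  have h := efron_stein ha ha' F (fun S => ind r t 0 S T)
  have e3 : Ex F a (fun S => ind r t 0 S T ^ 2) = Ex F a (fun S => ind r t 0 S T) :=
    Ex_congr fun S _ => by rw [sq, ind_sq]
  rw [e3] at h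
  refine h.trans (le_of_eq ?_)
  rw [Finset.mul_sum]
  refine Finset.sum_congr rfl fun x _ => ?_
  congr 1
  refine Ex_congr fun S _ => ?_
  have h1 := ind_mono (r := r) (t := t) (v := (0 : Site d)) (T := T) (T' := T)
    ((Finset.erase_subset x S).trans (Finset.subset_insert x S)) subset_rfl
  have h2 := ind_sq r t (0 : Site d) (insert x S) T
  have h3 := ind_sq r t (0 : Site d) (S.erase x) T
  have h4 : ind r t (0 : Site d) (insert x S) T * ind r t 0 (S.erase x) T =
      ind r t 0 (S.erase x) T := by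
    by_cases h5 : (0 : Site d) ∈ Occ r (cfg (S.erase x) T) t
    · have : ind r t (0 : Site d) (S.erase x) T = 1 := by unfold ind; rw [if_pos h5]
      have h6 : ind r t (0 : Site d) (insert x S) T = 1 :=
        le_antisymm (ind_le_one _ _ _ _ _) (this ▸ h1)
      rw [this, h6]; norm_num
    · have : ind r t (0 : Site d) (S.erase x) T = 0 := by unfold ind; rw [if_neg h5]
      rw [this]; ring
  nlinarith [h2, h3, h4]

/-- the geometry part -/
theorem geom_part (r t : ℕ) {a b : ℝ} (ha : 0 ≤ a) (ha' : a ≤ 1) (hb : 0 < b) (hb' : b ≤ 1) :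
    Ex (bx (0 : Site d) t) b
      (fun T => (Ex (bx (0 : Site d) t) a (fun S => ind r t 0 S T)) ^ 2) -
      (Psi r d t a b) ^ 2 ≤ (1 - b) * (Psi r d t a b * PsiB r d t a b) := by
  set F := bx (0 : Site d) t with hF
  set g : Finset (Site d) → ℝ := fun T => Ex F a (fun S => ind r t 0 S T) with hg
  have hgm : ∀ s t, s ⊆ t → g s ≤ g t := fun s t' hst =>
    Ex_mono ha ha' fun S _ => ind_mono subset_rfl hst
  have eΦ : Psi r d t a b = Ex F b g := E2_comm _ _ _ _
  have h1 : ∀ S ⊆ F, 2 * (Ex F b (fun T => ind r t 0 S T * g T) -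
      Ex F b (fun T => ind r t 0 S T) * Ex F b g) ≤
      ∑ j ∈ F, reveal F b (tree r t F S) j * Infl F b j g := by
    intro S _
    have h := osss hb.le hb' (tree r t F S) F (fun T => 2 * ind r t 0 S T - 1) g
      (tree_valid r t F S) (tree_det r t F S 0)
      (fun s _ => by
        have k1 := ind_nonneg r t (0 : Site d) S s
        have k2 := ind_le_one r t (0 : Site d) S s
        rw [abs_le]; constructor <;> linarith)
    refine le_trans (le_of_eq ?_) ((le_abs_self _).trans h)
    have e1 : Ex F b (fun T => (2 * ind r t 0 S T - 1) * g T) =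
        2 * Ex F b (fun T => ind r t 0 S T * g T) - Ex F b g := by
      rw [← Ex_smul, ← Ex_sub]; exact Ex_congr fun s _ => by ring
    have e2 : Ex F b (fun T => 2 * ind r t 0 S T - 1) =
        2 * Ex F b (fun T => ind r t 0 S T) - 1 := by
      rw [← Ex_smul, Ex_sub, Ex_const]
    rw [e1, e2]; ring
  have h2 := Ex_mono ha ha' h1
  have e3 : Ex F a (fun S => 2 * (Ex F b (fun T => ind r t 0 S T * g T) -
      Ex F b (fun T => ind r t 0 S T) * Ex F b g)) =
      2 * (Ex F b (fun T => g T ^ 2) - (Psi r d t a b) ^ 2) := by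
    rw [Ex_smul, Ex_sub]
    have e4 : Ex F a (fun S => Ex F b (fun T => ind r t 0 S T * g T)) =
        Ex F b (fun T => g T ^ 2) := by
      have := E2_comm F (fun S T => ind r t 0 S T * g T) a b
      unfold E2 at this
      rw [this]
      refine Ex_congr fun T _ => ?_
      have e5 : Ex F a (fun S => ind r t 0 S T * g T) = g T * Ex F a (fun S => ind r t 0 S T) := by
        rw [← Ex_smul]; exact Ex_congr fun s _ => by ring
      rw [e5, sq]
    have e6 : Ex F a (fun S => Ex F b (fun T => ind r t 0 S T) * Ex F b g) =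
        (Psi r d t a b) ^ 2 := by
      have e7 : Ex F a (fun S => Ex F b (fun T => ind r t 0 S T) * Ex F b g) =
          Ex F b g * Ex F a (fun S => Ex F b (fun T => ind r t 0 S T)) := by
        rw [← Ex_smul]; exact Ex_congr fun s _ => by ring
      rw [e7, ← eΦ, sq]
      rfl
    rw [e4, e6]
  rw [e3, Ex_sum] at h2
  have e8 : ∀ j ∈ F, b * Ex F a (fun S => reveal F b (tree r t F S) j * Infl F b j g) ≤
      Psi r d t a b * Infl F b j g := by
    intro j hj
    have e9 : Ex F a (fun S => reveal F b (tree r t F S) j * Infl F b j g) =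
        Infl F b j g * Ex F a (fun S => reveal F b (tree r t F S) j) := by
      rw [← Ex_smul]; exact Ex_congr fun s _ => by ring
    rw [e9]
    have := avg_reveal_le (r := r) (t := t) hj ha ha' hb.le hb'
    have h3 := mul_le_mul_of_nonneg_right this (Infl_nonneg (F := F) hb.le hb' j g)
    linarith
  have h3 : b * (2 * (Ex F b (fun T => g T ^ 2) - (Psi r d t a b) ^ 2)) ≤
      ∑ j ∈ F, Psi r d t a b * Infl F b j g := by
    refine (mul_le_mul_of_nonneg_left h2 hb.le).trans ?_
    rw [Finset.mul_sum]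
    exact Finset.sum_le_sum e8
  have e10 : ∑ j ∈ F, Psi r d t a b * Infl F b j g =
      b * (2 * ((1 - b) * (Psi r d t a b * PsiB r d t a b))) := by
    unfold PsiB
    rw [Finset.mul_sum, Finset.mul_sum, Finset.mul_sum, Finset.mul_sum]
    refine Finset.sum_congr rfl fun j hj => ?_
    rw [Infl_le_of_mono hb.le hb' hj hgm]
    have e11 : Ex F b (fun s => g (insert j s) - g (s.erase j)) =
        E2 F (fun S T => ind r t 0 S (insert j T) - ind r t 0 S (T.erase j)) a b := by
      rw [E2_comm]
      exact Ex_congr fun T _ => by rw [hg, Ex_sub]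
    rw [e11]; ring
  rw [e10] at h3
  have h4 := le_of_mul_le_mul_left h3 hb
  linarith

/-- **the differential inequality** -/
theorem star (r d t : ℕ) {a b : ℝ} (ha : 0 ≤ a) (ha' : a ≤ 1) (hb : 0 < b) (hb' : b ≤ 1) :
    Psi r d t a b * (1 - Psi r d t a b) ≤
      a * (1 - a) * PsiA r d t a b + (1 - b) * (Psi r d t a b * PsiB r d t a b) := by
  have h1 := seeds_part (d := d) r t ha ha' hb.le hb'
  have h2 := geom_part (d := d) r t ha ha' hb hb'
  nlinarith [h1, h2]

end Pool.Agent.PBP
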