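import Pool.Agent.PBP.Main

/-!
Comparison with site percolation on thin sublattices.
-/

open Finset MeasureTheory Filter Topology

namespace Pool.Agent.PBP

variable {d : ℕ}

/-- the open cluster of the origin when `G` is the set of open sites -/
def cluster (G : Set (Site d)) : Set (Site d) :=
  {y | (0 : Site d) ∈ G ∧ Relation.ReflTransGen (fun u v => Nb u v ∧ v ∈ G) 0 y}

/-- probability that the origin belongs to an infinite open cluster in Bernoulli site percolation
of density `b` on the subgraph of `ℤ^d` induced by `H` -/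
noncomputable def perc (H : Set (Site d)) (b : ℝ) : ℝ :=
  (unif d {U | (cluster (H ∩ {v | 1 - b ≤ (U v : ℝ)})).Infinite}).toReal

/-- critical density of Bernoulli site percolation on the subgraph induced by `H` -/
noncomputable def pcSite (H : Set (Site d)) : ℝ := sSup {b : ℝ | 0 ≤ b ∧ b ≤ 1 ∧ perc H b = 0}

/-- the sublattice `{0, 1}^{r-1} × ℤ^{d-r+1}` -/
def slab (r d : ℕ) : Set (Site d) := {x | ∀ i : Fin d, (i : ℕ) + 1 < r → x i = 0 ∨ x i = 1}

theorem nb_symm {u v : Site d} (h : Nb u v) : Nb v u := by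
  unfold Nb at h ⊢
  rw [← h]
  exact Finset.sum_congr rfl fun i _ => abs_sub_comm _ _

/-- a neighbour differs in one coordinate only, by one -/
theorem nb_other {u v : Site d} (h : Nb u v) {i : Fin d} (hi : u i ≠ v i) :
    |u i - v i| = 1 ∧ ∀ j, j ≠ i → u j = v j := by
  unfold Nb at h
  have h1 : 1 ≤ |u i - v i| := Int.one_le_abs (sub_ne_zero.2 hi)
  have h2 : |u i - v i| + ∑ j ∈ Finset.univ.erase i, |u j - v j| = 1 := by
    rw [← h]
    exact Finset.add_sum_erase Finset.univ (fun j => |u j - v j|) (Finset.mem_univ i)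
  have h3 : 0 ≤ ∑ j ∈ Finset.univ.erase i, |u j - v j| :=
    Finset.sum_nonneg fun j _ => abs_nonneg _
  have h4 : ∑ j ∈ Finset.univ.erase i, |u j - v j| = 0 := by omega
  refine ⟨by omega, fun j hj => ?_⟩
  have h5 := (Finset.sum_eq_zero_iff_of_nonneg (fun j _ => abs_nonneg _)).1 h4 j
    (Finset.mem_erase.2 ⟨hj, Finset.mem_univ j⟩)
  have := abs_eq_zero.1 h5
  omega

/-- a site of the sublattice has less than `r` neighbours outside -/
theorem slab_out {r : ℕ} (hr : 1 ≤ r) {v : Site d} (hv : v ∈ slab r d) :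
    {u | Nb u v ∧ u ∉ slab r d}.ncard < r := by
  classical
  -- the coordinate in which an outside neighbour differs
  have hex : ∀ u, Nb u v → u ∉ slab r d → ∃ i : Fin d, (i : ℕ) + 1 < r ∧ u i ≠ v i := by
    intro u hu hus
    unfold slab at hus
    rw [Set.mem_setOf_eq] at hus
    push Not at hus
    obtain ⟨i, hi, h0, h1⟩ := hus
    refine ⟨i, hi, fun h => ?_⟩
    rcases hv i hi with h2 | h2
    · exact h0 (h.trans h2)
    · exact h1 (h.trans h2)
  let f : Site d → ℕ := fun u => if h : ∃ i : Fin d, (i : ℕ) + 1 < r ∧ u i ≠ v i then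
    (h.choose : ℕ) else 0
  have hmaps : ∀ u ∈ {u | Nb u v ∧ u ∉ slab r d}, f u ∈ (Finset.range (r - 1) : Set ℕ) := by
    rintro u ⟨hu, hus⟩
    have h := hex u hu hus
    have h1 : f u = (h.choose : ℕ) := dif_pos h
    rw [h1, Finset.mem_coe, Finset.mem_range]
    have := h.choose_spec.1
    omega
  have hinj : Set.InjOn f {u | Nb u v ∧ u ∉ slab r d} := by
    rintro u ⟨hu, hus⟩ u' ⟨hu', hus'⟩ hff
    have h := hex u hu hus
    have h' := hex u' hu' hus'
    have h1 : f u = (h.choose : ℕ) := dif_pos h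
    have h1' : f u' = (h'.choose : ℕ) := dif_pos h'
    rw [h1, h1'] at hff
    obtain ⟨i, hi⟩ : ∃ i, h.choose = i := ⟨_, rfl⟩
    have hij : h'.choose = i := by rw [← hi]; exact (Fin.ext hff).symm
    have hs : (i : ℕ) + 1 < r ∧ u i ≠ v i := hi ▸ h.choose_spec
    have hs' : (i : ℕ) + 1 < r ∧ u' i ≠ v i := hij ▸ h'.choose_spec
    obtain ⟨a1, a2⟩ := nb_other hu hs.2
    obtain ⟨b1, b2⟩ := nb_other hu' hs'.2
    -- the value of the coordinate `i` is outside `{0, 1}`
    have hout : ∀ w : Site d, Nb w v → w ∉ slab r d → w i ≠ v i → w i ≠ 0 ∧ w i ≠ 1 := by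
      intro w hw hws hwi
      have hall := (nb_other hw hwi).2
      by_contra hcon
      apply hws
      intro j hj
      by_cases hji : j = i
      · subst hji
        by_contra h3
        push Not at h3
        exact hcon h3
      · rw [hall j hji]; exact hv j hj
    have c1 := hout u hu hus hs.2
    have c2 := hout u' hu' hus' hs'.2
    have c3 := hv i hs.1
    have c4 : u i = u' i := by
      rcases abs_eq (zero_le_one) |>.1 a1 with e1 | e1 <;>
      rcases abs_eq (zero_le_one) |>.1 b1 with e2 | e2 <;>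
      rcases c3 with e3 | e3 <;> omega
    funext j
    by_cases hji : j = i
    · rw [hji]; exact c4
    · rw [a2 j hji, b2 j hji]
  have h1 := Set.ncard_le_ncard_of_injOn f hmaps hinj (Finset.finite_toSet _)
  rw [Set.ncard_coe_finset, Finset.card_range] at h1
  omega

/-- infection spreads within the sublattice -/
theorem infected_path {r : ℕ} (hr : 1 ≤ r) {ω : Site d → St} : ∀ (t : ℕ) (v : Site d),
    v ∈ slab r d → v ∈ Occ r ω t →
    ∃ y, ω y = St.occ ∧ Relation.ReflTransGen
      (fun u w => Nb u w ∧ w ∈ slab r d ∩ {x | ω x ≠ St.closed}) v y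
  | 0, v, _, h => ⟨v, h, Relation.ReflTransGen.refl⟩
  | t + 1, v, hv, h => by
    rcases h with h | ⟨_, hc⟩
    · exact infected_path hr t v hv h
    · have hlt := (slab_out hr hv).trans_le hc
      obtain ⟨u, hu, hu'⟩ : ∃ u ∈ {u | Nb u v ∧ u ∈ Occ r ω t},
          u ∉ {u | Nb u v ∧ u ∉ slab r d} := by
        by_contra hcon
        push Not at hcon
        have hsub : {u | Nb u v ∧ u ∈ Occ r ω t} ⊆ {u | Nb u v ∧ u ∉ slab r d} :=
          fun u hu => hcon u hu
        exact absurd (Set.ncard_le_ncard hsub ((nb_finite v).subset fun _ h => h.1))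
          (not_le.2 hlt)
      have hus : u ∈ slab r d := by
        by_contra hcon
        exact hu' ⟨hu.1, hcon⟩
      obtain ⟨y, hy, hpath⟩ := infected_path hr t u hus hu.2
      exact ⟨y, hy, Relation.ReflTransGen.head ⟨nb_symm hu.1, hus, Occ_open hu.2⟩ hpath⟩

/-- sites reached from the origin in at most `k` steps -/
def reachK (G : Set (Site d)) : ℕ → Set (Site d)
  | 0 => {y | y = 0 ∧ (0 : Site d) ∈ G}
  | k + 1 => {y | y ∈ reachK G k ∨ ∃ x ∈ reachK G k, Nb x y ∧ y ∈ G}

theorem reachK_sub {G : Set (Site d)} : ∀ k, reachK G k ⊆ cluster G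
  | 0 => by
    rintro y ⟨rfl, h⟩
    exact ⟨h, Relation.ReflTransGen.refl⟩
  | k + 1 => by
    rintro y (h | ⟨x, hx, hn, hy⟩)
    · exact reachK_sub k h
    · obtain ⟨h0, hp⟩ := reachK_sub k hx
      exact ⟨h0, hp.tail ⟨hn, hy⟩⟩

theorem cluster_sub {G : Set (Site d)} {y : Site d} (h : y ∈ cluster G) :
    ∃ k, y ∈ reachK G k := by
  obtain ⟨h0, hp⟩ := h
  induction hp with
  | refl => exact ⟨0, rfl, h0⟩
  | tail _ hs ih =>
    obtain ⟨k, hk⟩ := ih
    exact ⟨k + 1, Or.inr ⟨_, hk, hs.1, hs.2⟩⟩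

/-- open sites of the sublattice -/
def opn (H : Set (Site d)) (q : ℝ) (U : Site d → unitInterval) : Set (Site d) :=
  H ∩ {v | ¬ (U v : ℝ) < q}

theorem meas_opn (q : ℝ) (y : Site d) :
    MeasurableSet {U : Site d → unitInterval | ¬ (U y : ℝ) < q} := by
  have h : Measurable (fun U : Site d → unitInterval => (U y : ℝ)) :=
    measurable_subtype_coe.comp (measurable_pi_apply y)
  have e : {U : Site d → unitInterval | ¬ (U y : ℝ) < q} =
      (fun U : Site d → unitInterval => (U y : ℝ)) ⁻¹' Set.Ici q := by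
    ext U; simp
  rw [e]
  exact h measurableSet_Ici

theorem meas_reachK (H : Set (Site d)) (q : ℝ) : ∀ (k : ℕ) (y : Site d),
    MeasurableSet {U : Site d → unitInterval | y ∈ reachK (opn H q U) k}
  | 0, y => by
    by_cases hy : y = 0 ∧ (0 : Site d) ∈ H
    · have e : {U : Site d → unitInterval | y ∈ reachK (opn H q U) 0} =
          {U | ¬ (U 0 : ℝ) < q} := by
        ext U
        exact ⟨fun h => h.2.2, fun h => ⟨hy.1, hy.2, h⟩⟩
      rw [e]
      exact meas_opn q 0
    · have e : {U : Site d → unitInterval | y ∈ reachK (opn H q U) 0} = ∅ := by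
        ext U
        refine ⟨fun h => hy ⟨h.1, h.2.1⟩, fun h => absurd h (Set.notMem_empty _)⟩
      rw [e]
      exact MeasurableSet.empty
  | k + 1, y => by
    have e : {U : Site d → unitInterval | y ∈ reachK (opn H q U) (k + 1)} =
        {U | y ∈ reachK (opn H q U) k} ∪ ⋃ x : Site d, ({U | x ∈ reachK (opn H q U) k} ∩
          ({U | ¬ (U y : ℝ) < q} ∩ {_U | Nb x y ∧ y ∈ H})) := by
      ext U
      constructor
      · rintro (h | ⟨x, hx, hn, hy⟩)
        · exact Or.inl h
        · exact Or.inr (Set.mem_iUnion.2 ⟨x, hx, hy.2, hn, hy.1⟩)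
      · rintro (h | h)
        · exact Or.inl h
        · obtain ⟨x, hx, h1, hn, hy⟩ := Set.mem_iUnion.1 h
          exact Or.inr ⟨x, hx, hn, hy, h1⟩
    rw [e]
    refine (meas_reachK H q k y).union (MeasurableSet.iUnion fun x => ?_)
    exact (meas_reachK H q k x).inter ((meas_opn q y).inter (MeasurableSet.const _))

/-- the event that the open cluster of the origin leaves the box of radius `n` -/
def leave (H : Set (Site d)) (q : ℝ) (n : ℕ) : Set (Site d → unitInterval) :=
  {U | ∃ y, y ∉ bx (0 : Site d) n ∧ y ∈ cluster (opn H q U)}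

theorem leave_meas (H : Set (Site d)) (q : ℝ) (n : ℕ) : MeasurableSet (leave H q n) := by
  have e : leave H q n = ⋃ y : Site d, ⋃ k : ℕ,
      ({U | y ∈ reachK (opn H q U) k} ∩ {_U | y ∉ bx (0 : Site d) n}) := by
    ext U
    constructor
    · rintro ⟨y, hy, hc⟩
      obtain ⟨k, hk⟩ := cluster_sub hc
      exact Set.mem_iUnion.2 ⟨y, Set.mem_iUnion.2 ⟨k, hk, hy⟩⟩
    · intro h
      obtain ⟨y, h⟩ := Set.mem_iUnion.1 h
      obtain ⟨k, hk, hy⟩ := Set.mem_iUnion.1 h
      exact ⟨y, hy, reachK_sub k hk⟩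
  rw [e]
  exact MeasurableSet.iUnion fun y => MeasurableSet.iUnion fun k =>
    (meas_reachK H q k y).inter (MeasurableSet.const _)

theorem leave_anti (H : Set (Site d)) (q : ℝ) : Antitone (leave H q) := by
  rintro m n hmn U ⟨y, hy, hc⟩
  exact ⟨y, fun h => hy (bx_mono hmn h), hc⟩

theorem exists_bx (F : Finset (Site d)) : ∃ n, F ⊆ bx (0 : Site d) n := by
  classical
  induction F using Finset.induction_on with
  | empty => exact ⟨0, Finset.empty_subset _⟩
  | insert v F _ ih =>
    obtain ⟨n, hn⟩ := ih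
    refine ⟨max n (∑ i, (v i).natAbs), Finset.insert_subset ?_
      (hn.trans (bx_mono (le_max_left _ _)))⟩
    refine bx_mono (le_max_right _ _) ?_
    rw [mem_bx]
    intro i
    have h1 : (v i).natAbs ≤ ∑ i, (v i).natAbs :=
      Finset.single_le_sum (f := fun i => (v i).natAbs) (fun _ _ => Nat.zero_le _)
        (Finset.mem_univ i)
    simp only [Pi.zero_apply, sub_zero]
    rw [Int.abs_eq_natAbs]
    exact_mod_cast h1

theorem leave_inter (H : Set (Site d)) (q : ℝ) :
    (⋂ n, leave H q n) ⊆ {U | (cluster (H ∩ {v | 1 - (1 - q) ≤ (U v : ℝ)})).Infinite} := by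
  intro U hU
  rw [Set.mem_setOf_eq]
  have e : H ∩ {v | 1 - (1 - q) ≤ (U v : ℝ)} = opn H q U := by
    unfold opn
    congr 1
    ext v
    rw [Set.mem_setOf_eq, Set.mem_setOf_eq, not_lt]
    have : 1 - (1 - q) = q := by ring
    rw [this]
  rw [e]
  intro hfin
  obtain ⟨n, hn⟩ := exists_bx hfin.toFinset
  obtain ⟨y, hy, hc⟩ := Set.mem_iInter.1 hU n
  exact hy (hn (hfin.mem_toFinset.2 hc))

theorem seed_prob {p q : ℝ} (hp : 0 ≤ p) (hq : 0 ≤ q) (hpq : p + q ≤ 1) (n : ℕ) :
    unif d {U | ∃ v ∈ bx (0 : Site d) n, init p q (U v) = St.occ} ≤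
      (bx (0 : Site d) n).card * ENNReal.ofReal p := by
  have e : {U : Site d → unitInterval | ∃ v ∈ bx (0 : Site d) n, init p q (U v) = St.occ} =
      ⋃ v ∈ bx (0 : Site d) n, {U | init p q (U v) = St.occ} := by
    ext U; simp
  rw [e]
  refine (measure_biUnion_finset_le _ _).trans ?_
  have h : ∀ v ∈ bx (0 : Site d) n,
      unif d {U : Site d → unitInterval | init p q (U v) = St.occ} ≤ ENNReal.ofReal p := by
    intro v _
    have h1 := (unif_cyl (d := d) hp hq hpq {v} (fun _ => St.occ)).2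
    simp only [Finset.mem_singleton, forall_eq, Finset.prod_singleton] at h1
    rw [h1]
    rfl
  refine (Finset.sum_le_card_nsmul _ _ _ h).trans (le_of_eq ?_)
  rw [nsmul_eq_mul]

theorem phi_le_leave {r : ℕ} (hr : 1 ≤ r) {p q : ℝ} (hp : 0 ≤ p) (hq : 0 ≤ q)
    (hpq : p + q ≤ 1) (n : ℕ) :
    phi r d p q ≤ (unif d (leave (slab r d) q n)).toReal + (bx (0 : Site d) n).card * p := by
  have h1 : {U : Site d → unitInterval | ∃ t, (0 : Site d) ∈ Occ r (fun v => init p q (U v)) t} ⊆
      leave (slab r d) q n ∪ {U | ∃ v ∈ bx (0 : Site d) n, init p q (U v) = St.occ} := by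
    rintro U ⟨t, ht⟩
    by_cases hs : ∃ v ∈ bx (0 : Site d) n, init p q (U v) = St.occ
    · exact Or.inr hs
    · left
      have h0 : (0 : Site d) ∈ slab r d := fun i _ => Or.inl rfl
      obtain ⟨y, hy, hpath⟩ := infected_path hr t 0 h0 ht
      refine ⟨y, fun hyb => hs ⟨y, hyb, hy⟩, ⟨h0, ?_⟩, ?_⟩
      · have := Occ_open ht
        rw [Ne, init_closed_iff] at this
        exact this
      · refine Relation.ReflTransGen.mono ?_ _ _ hpath
        rintro u w ⟨hn, hw, ho⟩
        refine ⟨hn, hw, ?_⟩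
        have ho' : init p q (U w) ≠ St.closed := ho
        rw [Ne, init_closed_iff] at ho'
        exact ho'
  have h2 := (measure_mono (μ := unif d) h1).trans (measure_union_le _ _)
  have h3 := h2.trans (add_le_add_right (seed_prob hp hq hpq n) _)
  unfold phi
  have h4 := ENNReal.toReal_mono (by
    refine ENNReal.add_ne_top.2 ⟨measure_ne_top _ _, ?_⟩
    exact ENNReal.mul_ne_top (ENNReal.natCast_ne_top _) ENNReal.ofReal_ne_top) h3
  refine h4.trans (le_of_eq ?_)
  rw [ENNReal.toReal_add (measure_ne_top _ _)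
    (ENNReal.mul_ne_top (ENNReal.natCast_ne_top _) ENNReal.ofReal_ne_top), ENNReal.toReal_mul,
    ENNReal.toReal_ofReal hp, ENNReal.toReal_natCast]

theorem phiPlus_le_leave {r : ℕ} (hr : 1 ≤ r) {q : ℝ} (hq : 0 ≤ q) (hq1 : q < 1) (n : ℕ) :
    phiPlus r d q ≤ (unif d (leave (slab r d) q n)).toReal := by
  have h1 : Tendsto (fun p : ℝ => (unif d (leave (slab r d) q n)).toReal +
      (bx (0 : Site d) n).card * p) (𝓝[>] 0)
      (𝓝 ((unif d (leave (slab r d) q n)).toReal + (bx (0 : Site d) n).card * 0)) :=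
    ((tendsto_id.const_mul _).const_add _).mono_left nhdsWithin_le_nhds
  rw [mul_zero, add_zero] at h1
  refine le_of_tendsto_of_tendsto (phiPlus_tendsto r d q) h1 ?_
  filter_upwards [Ioo_mem_nhdsGT (by linarith : (0 : ℝ) < 1 - q)] with p hp
  exact phi_le_leave hr hp.1.le hq (by linarith [hp.2]) n

theorem phiPlus_le_perc {r : ℕ} (hr : 1 ≤ r) {q : ℝ} (hq : 0 ≤ q) (hq1 : q ≤ 1) :
    phiPlus r d q ≤ perc (slab r d) (1 - q) := by
  rcases hq1.lt_or_eq with hlt | heq
  · have h1 : Tendsto (fun n => unif d (leave (slab r d) q n)) atTop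
        (𝓝 (unif d (⋂ n, leave (slab r d) q n))) :=
      tendsto_measure_iInter_atTop (fun n => (leave_meas _ _ n).nullMeasurableSet)
        (leave_anti _ _) ⟨0, measure_ne_top _ _⟩
    have h2 := (ENNReal.tendsto_toReal (measure_ne_top (unif d)
      (⋂ n, leave (slab r d) q n))).comp h1
    have h3 : phiPlus r d q ≤ (unif d (⋂ n, leave (slab r d) q n)).toReal :=
      ge_of_tendsto' h2 fun n => phiPlus_le_leave hr hq hlt n
    refine h3.trans ?_
    unfold perc
    exact ENNReal.toReal_mono (measure_ne_top _ _) (measure_mono (leave_inter _ _))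
  · subst heq
    rw [phiPlus_one]
    exact ENNReal.toReal_nonneg

theorem perc_mono (H : Set (Site d)) {b b' : ℝ} (h : b ≤ b') : perc H b ≤ perc H b' := by
  unfold perc
  refine ENNReal.toReal_mono (measure_ne_top _ _) (measure_mono fun U hU => ?_)
  refine Set.Infinite.mono ?_ hU
  have hsub : H ∩ {v | 1 - b ≤ (U v : ℝ)} ⊆ H ∩ {v | 1 - b' ≤ (U v : ℝ)} := by
    rintro v ⟨h1, h2⟩
    exact ⟨h1, (by linarith : 1 - b' ≤ 1 - b).trans h2⟩
  rintro y ⟨h0, hp⟩
  refine ⟨hsub h0, Relation.ReflTransGen.mono ?_ _ _ hp⟩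
  rintro u w ⟨hn, hw⟩
  exact ⟨hn, hsub hw⟩

theorem perc_nonneg (H : Set (Site d)) (b : ℝ) : 0 ≤ perc H b := ENNReal.toReal_nonneg

theorem qc_le_slab {r : ℕ} (hr : 1 ≤ r) : qc r d ≤ 1 - pcSite (slab r d) := by
  have hb : BddAbove {b : ℝ | 0 ≤ b ∧ b ≤ 1 ∧ perc (slab r d) b = 0} := ⟨1, fun _ h => h.2.1⟩
  by_contra hcon
  push Not at hcon
  have h1 : 1 - qc r d < pcSite (slab r d) := by linarith
  have hne : {b : ℝ | 0 ≤ b ∧ b ≤ 1 ∧ perc (slab r d) b = 0}.Nonempty := by
    by_contra hem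
    rw [Set.not_nonempty_iff_eq_empty] at hem
    unfold pcSite at h1
    rw [hem, Real.sSup_empty] at h1
    linarith [qc_le_one r d]
  obtain ⟨b, hbm, hlt⟩ := exists_lt_of_lt_csSup hne h1
  have hb0 := hbm.1
  have hb1 := hbm.2.1
  have h2 : phiPlus r d (1 - b) ≤ 0 := by
    have h3 := phiPlus_le_perc (d := d) hr (q := 1 - b) (by linarith) (by linarith)
    have e : 1 - (1 - b) = b := by ring
    rw [e, hbm.2.2] at h3
    exact h3
  have h4 : phiPlus r d (1 - b) = 0 := le_antisymm h2 (phiPlus_nonneg _ _ _)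
  have h5 : qc r d ≤ 1 - b := csInf_le (qc_bdd r d) ⟨by linarith, by linarith, h4⟩
  linarith

end Pool.Agent.PBP
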