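import Pool.Agent.PBP.Main
import Pool.Agent.PBP.AG1

/-!
Trading closed sites against initially occupied sites: the local surgery.
-/

open Finset

namespace Pool.Agent.PBP

variable {d : ℕ}

/-- the sites which are eventually occupied -/
def Cl (r : ℕ) (S T : Finset (Site d)) : Set (Site d) := {v | ∃ t, v ∈ Occ r (cfg S T) t}

theorem Nb.symm {u v : Site d} (h : Nb u v) : Nb v u := by
  unfold Nb at h ⊢
  rw [← h]
  exact Finset.sum_congr rfl fun i _ => abs_sub_comm _ _

theorem Nb.mem_bx {u v : Site d} (h : Nb u v) : u ∈ bx v 1 := by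
  rw [Pool.Agent.PBP.mem_bx]
  intro i
  simpa using Nb.abs_le h i

theorem Cl_seed {r : ℕ} {S T : Finset (Site d)} {v : Site d} (h1 : v ∈ T) (h2 : v ∈ S) :
    v ∈ Cl r S T := ⟨0, cfg_eq_occ.2 ⟨h1, h2⟩⟩

theorem Cl_open {r : ℕ} {S T : Finset (Site d)} {v : Site d} (h : v ∈ Cl r S T) : v ∈ T := by
  obtain ⟨t, ht⟩ := h
  exact cfg_ne_closed.1 (Occ_open ht)

theorem Cl_mono {r : ℕ} {S S' T T' : Finset (Site d)} (hS : S ⊆ S') (hT : T ⊆ T') :
    Cl r S T ⊆ Cl r S' T' := by
  rintro v ⟨t, ht⟩
  exact ⟨t, Occ_cfg_mono hS hT ht⟩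

theorem Cl_step {r : ℕ} {S T : Finset (Site d)} {v : Site d} (hv : v ∈ T)
    (h : r ≤ {u | Nb u v ∧ u ∈ Cl r S T}.ncard) : v ∈ Cl r S T := by
  classical
  have hfin : {u | Nb u v ∧ u ∈ Cl r S T}.Finite := nbA_finite v _
  have key : ∀ A : Finset (Site d), (∀ u ∈ A, u ∈ Cl r S T) →
      ∃ t, ∀ u ∈ A, u ∈ Occ r (cfg S T) t := by
    intro A
    induction A using Finset.induction_on with
    | empty => exact fun _ => ⟨0, fun u hu => absurd hu (Finset.notMem_empty u)⟩
    | insert a A _ ih =>
      intro h
      obtain ⟨t, ht⟩ := ih fun u hu => h u (Finset.mem_insert_of_mem hu)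
      obtain ⟨t', ht'⟩ := h a (Finset.mem_insert_self _ _)
      refine ⟨max t t', fun u hu => ?_⟩
      rcases Finset.mem_insert.1 hu with rfl | hu
      · exact Occ_mono_time (le_max_right _ _) ht'
      · exact Occ_mono_time (le_max_left _ _) (ht u hu)
  have hex : ∃ t, ∀ u ∈ {u | Nb u v ∧ u ∈ Cl r S T}, u ∈ Occ r (cfg S T) t := by
    obtain ⟨t, ht⟩ := key hfin.toFinset fun u hu => (hfin.mem_toFinset.1 hu).2
    exact ⟨t, fun u hu => ht u (hfin.mem_toFinset.2 hu)⟩
  obtain ⟨t, ht⟩ := hex
  refine ⟨t + 1, Or.inr ⟨cfg_ne_closed.2 hv, h.trans ?_⟩⟩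
  exact Set.ncard_le_ncard (fun u hu => ⟨hu.1, ht u hu⟩) (nbA_finite v _)

theorem Cl_min {r : ℕ} {S T : Finset (Site d)} {W : Set (Site d)}
    (h0 : ∀ v, v ∈ T → v ∈ S → v ∈ W)
    (h1 : ∀ v, v ∈ T → r ≤ {u | Nb u v ∧ u ∈ W}.ncard → v ∈ W) : Cl r S T ⊆ W := by
  rintro v ⟨t, ht⟩
  induction t generalizing v with
  | zero =>
    have h := cfg_eq_occ.1 (show cfg S T v = St.occ from ht)
    exact h0 v h.1 h.2
  | succ t ih =>
    rcases ht with ht | ⟨hv, hc⟩
    · exact ih ht
    · refine h1 v (cfg_ne_closed.1 hv) (hc.trans ?_)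
      exact Set.ncard_le_ncard (fun u hu => ⟨hu.1, ih hu.2⟩) (nbA_finite v _)

/-- switching on seeds one by one -/
theorem one_by_one {r : ℕ} {S T Z : Finset (Site d)} {v : Site d}
    (h0 : v ∉ Cl r S T) (h1 : v ∈ Cl r (S ∪ Z) T) :
    ∃ z ∈ Z, ∃ S', S ⊆ S' ∧ S' ⊆ S ∪ Z ∧ v ∈ Cl r (insert z S') T ∧
      v ∉ Cl r (S'.erase z) T := by
  induction Z using Finset.induction_on with
  | empty => rw [Finset.union_empty] at h1; exact absurd h1 h0
  | insert z Z hz ih =>
    by_cases h : v ∈ Cl r (S ∪ Z) T
    · obtain ⟨y, hy, S', a1, a2, a3, a4⟩ := ih h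
      exact ⟨y, Finset.mem_insert_of_mem hy, S', a1,
        a2.trans (Finset.union_subset_union_right (Finset.subset_insert _ _)), a3, a4⟩
    · refine ⟨z, Finset.mem_insert_self _ _, S ∪ Z, Finset.subset_union_left,
        Finset.union_subset_union_right (Finset.subset_insert _ _), ?_, ?_⟩
      · rwa [Finset.union_insert] at h1
      · exact fun hh => h (Cl_mono (Finset.erase_subset _ _) subset_rfl hh)

/-- the surgery: a site whose opening matters is turned into a site next to it at which a seed
matters, by changes in the cube around it -/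
theorem seed_surgery {r : ℕ} (hr : 1 ≤ r) {F S T : Finset (Site d)} (hS : S ⊆ F) (hT : T ⊆ F)
    {x : Site d} (hx : x ∈ F)
    (h1 : (0 : Site d) ∈ Cl r S (insert x T)) (h2 : (0 : Site d) ∉ Cl r S (T.erase x)) :
    ∃ z ∈ F, z ∈ bx x 1 ∧ ∃ S' T', S' ⊆ F ∧ T' ⊆ F ∧
      (∀ v, v ∉ bx x 1 → ((v ∈ S' ↔ v ∈ S) ∧ (v ∈ T' ↔ v ∈ T))) ∧
      (0 : Site d) ∈ Cl r (insert z S') T' ∧ (0 : Site d) ∉ Cl r (S'.erase z) T' := by
  classical
  have hxT : insert x T ⊆ F := Finset.insert_subset hx hT
  have h0F : (0 : Site d) ∈ F := hxT (Cl_open h1)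
  have hTe : ∀ v, v ∈ T → v ∉ bx x 1 → v ∈ T.erase x := by
    intro v hv hvb
    exact Finset.mem_erase.2 ⟨fun h => hvb (h ▸ self_mem_bx x 1), hv⟩
  by_cases h0 : (0 : Site d) ∈ bx x 1
  · refine ⟨0, h0F, h0, S, insert 0 (T.filter (fun v => v ∉ bx x 1)), hS,
      Finset.insert_subset h0F ((Finset.filter_subset _ _).trans hT), ?_, ?_, ?_⟩
    · intro v hv
      refine ⟨Iff.rfl, ?_⟩
      rw [Finset.mem_insert, Finset.mem_filter]
      constructor
      · rintro (rfl | h)
        · exact absurd h0 hv
        · exact h.1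
      · exact fun h => Or.inr ⟨h, hv⟩
    · exact Cl_seed (Finset.mem_insert_self _ _) (Finset.mem_insert_self _ _)
    · intro hcon
      have hsub : Cl r (S.erase 0) (insert 0 (T.filter (fun v => v ∉ bx x 1))) ⊆
          {v | v ∈ Cl r S (T.erase x) ∧ v ∉ bx x 1} := by
        refine Cl_min ?_ ?_
        · intro v hvT hvS
          have hv0 := (Finset.mem_erase.1 hvS)
          rcases Finset.mem_insert.1 hvT with h | h
          · exact absurd h hv0.1
          · have h' := Finset.mem_filter.1 h
            exact ⟨Cl_seed (hTe v h'.1 h'.2) hv0.2, h'.2⟩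
        · intro v hvT hc
          have hc' : r ≤ {u | Nb u v ∧ u ∈ Cl r S (T.erase x)}.ncard :=
            hc.trans (Set.ncard_le_ncard (fun u hu => ⟨hu.1, hu.2.1⟩) (nbA_finite v _))
          rcases Finset.mem_insert.1 hvT with h | h
          · exfalso
            subst h
            by_cases hx0 : (0 : Site d) = x
            · have he : {u | Nb u (0 : Site d) ∧
                  u ∈ {v | v ∈ Cl r S (T.erase x) ∧ v ∉ bx x 1}} = ∅ := by
                ext u
                constructor
                · rintro ⟨hn, -, hu⟩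
                  exact absurd (hx0 ▸ hn.mem_bx) hu
                · intro h; exact absurd h (Set.notMem_empty u)
              rw [he, Set.ncard_empty] at hc
              omega
            · refine h2 (Cl_step ?_ hc')
              refine Finset.mem_erase.2 ⟨hx0, ?_⟩
              rcases Finset.mem_insert.1 (Cl_open h1) with h | h
              · exact absurd h hx0
              · exact h
          · have h' := Finset.mem_filter.1 h
            exact ⟨Cl_step (hTe v h'.1 h'.2) hc', h'.2⟩
      exact (hsub hcon).2 h0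
  · -- the origin is outside the cube
    set O0 : Set (Site d) := Cl r S (T.erase x) with hO0
    set O1 : Set (Site d) := Cl r S (insert x T) with hO1
    set Z0 : Finset (Site d) := F.filter (fun v => v ∈ bx x 1 ∧ v ≠ x ∧ v ∈ O0) with hZ0
    set Z : Finset (Site d) := F.filter (fun v => v ∈ bx x 1 ∧ v ≠ x ∧ v ∈ O1) with hZ
    set T' : Finset (Site d) := T.filter (fun v => v ∉ bx x 1) ∪ (Z0 ∪ Z) with hT'
    set S1 : Finset (Site d) := S.filter (fun v => v ∉ bx x 1) ∪ Z0 with hS1
    have hO1T : ∀ v, v ∈ O1 → v ≠ x → v ∈ T.erase x := by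
      intro v hv hvx
      refine Finset.mem_erase.2 ⟨hvx, ?_⟩
      rcases Finset.mem_insert.1 (Cl_open hv) with h | h
      · exact absurd h hvx
      · exact h
    have hA : (0 : Site d) ∉ Cl r S1 T' := by
      intro hcon
      refine h2 ((Cl_min (W := O0) ?_ ?_) hcon)
      · intro v hvT hvS
        rcases Finset.mem_union.1 hvS with h | h
        · have h' := Finset.mem_filter.1 h
          rcases Finset.mem_union.1 hvT with k | k
          · have k' := Finset.mem_filter.1 k
            exact Cl_seed (hTe v k'.1 k'.2) h'.1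
          · rcases Finset.mem_union.1 k with k | k
            · exact absurd (Finset.mem_filter.1 k).2.1 h'.2
            · exact absurd (Finset.mem_filter.1 k).2.1 h'.2
        · exact (Finset.mem_filter.1 h).2.2.2
      · intro v hvT hc
        rcases Finset.mem_union.1 hvT with k | k
        · have k' := Finset.mem_filter.1 k
          exact Cl_step (hTe v k'.1 k'.2) hc
        · rcases Finset.mem_union.1 k with k | k
          · exact (Finset.mem_filter.1 k).2.2.2
          · have k' := (Finset.mem_filter.1 k).2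
            exact Cl_step (hO1T v k'.2.2 k'.2.1) hc
    have hB0 : ∀ v, v ∈ O1 → v ≠ x → v ∈ bx x 1 → v ∈ Cl r (S1 ∪ Z) T' := by
      intro v hv hvx hvb
      have hvF : v ∈ F := hxT (Cl_open hv)
      have hvZ : v ∈ Z := Finset.mem_filter.2 ⟨hvF, hvb, hvx, hv⟩
      exact Cl_seed (Finset.mem_union_right _ (Finset.mem_union_right _ hvZ))
        (Finset.mem_union_right _ hvZ)
    have hB1 : ∀ t v, v ∈ Occ r (cfg S (insert x T)) t → v ∉ bx x 1 →
        v ∈ Cl r (S1 ∪ Z) T' := by
      intro t
      induction t with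
      | zero =>
        intro v hv hvb
        have h := cfg_eq_occ.1 (show cfg S (insert x T) v = St.occ from hv)
        have hvT : v ∈ T := by
          rcases Finset.mem_insert.1 h.1 with k | k
          · exact absurd (k ▸ self_mem_bx x 1) hvb
          · exact k
        exact Cl_seed (Finset.mem_union_left _ (Finset.mem_filter.2 ⟨hvT, hvb⟩))
          (Finset.mem_union_left _ (Finset.mem_union_left _ (Finset.mem_filter.2 ⟨h.2, hvb⟩)))
      | succ t ih =>
        intro v hv hvb
        rcases hv with hv | ⟨hv, hc⟩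
        · exact ih v hv hvb
        · have hvT : v ∈ T := by
            rcases Finset.mem_insert.1 (cfg_ne_closed.1 hv) with k | k
            · exact absurd (k ▸ self_mem_bx x 1) hvb
            · exact k
          refine Cl_step (Finset.mem_union_left _ (Finset.mem_filter.2 ⟨hvT, hvb⟩))
            (hc.trans (Set.ncard_le_ncard ?_ (nbA_finite v _)))
          rintro u ⟨hn, hu⟩
          refine ⟨hn, ?_⟩
          have hux : u ≠ x := by
            rintro rfl
            exact hvb hn.symm.mem_bx
          by_cases hub : u ∈ bx x 1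
          · exact hB0 u ⟨t, hu⟩ hux hub
          · exact ih u hu hub
    have hB : (0 : Site d) ∈ Cl r (S1 ∪ Z) T' := by
      obtain ⟨t, ht⟩ := h1
      exact hB1 t 0 ht h0
    obtain ⟨z, hz, S', a1, a2, a3, a4⟩ := one_by_one hA hB
    have hz' := Finset.mem_filter.1 hz
    have hS1F : S1 ∪ Z ⊆ F := by
      refine Finset.union_subset (Finset.union_subset ((Finset.filter_subset _ _).trans hS)
        (Finset.filter_subset _ _)) (Finset.filter_subset _ _)
    have hT'F : T' ⊆ F := Finset.union_subset ((Finset.filter_subset _ _).trans hT)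
      (Finset.union_subset (Finset.filter_subset _ _) (Finset.filter_subset _ _))
    refine ⟨z, hz'.1, hz'.2.1, S', T', a2.trans hS1F, hT'F, ?_, a3, a4⟩
    intro v hv
    have n0 : v ∉ Z0 := fun h => hv (Finset.mem_filter.1 h).2.1
    have n1 : v ∉ Z := fun h => hv (Finset.mem_filter.1 h).2.1
    constructor
    · constructor
      · intro h
        rcases Finset.mem_union.1 (a2 h) with k | k
        · rcases Finset.mem_union.1 k with k | k
          · exact (Finset.mem_filter.1 k).1
          · exact absurd k n0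
        · exact absurd k n1
      · intro h
        exact a1 (Finset.mem_union_left _ (Finset.mem_filter.2 ⟨h, hv⟩))
    · constructor
      · intro h
        rcases Finset.mem_union.1 h with k | k
        · exact (Finset.mem_filter.1 k).1
        · rcases Finset.mem_union.1 k with k | k
          · exact absurd k n0
          · exact absurd k n1
      · intro h
        exact Finset.mem_union_left _ (Finset.mem_filter.2 ⟨h, hv⟩)

end Pool.Agent.PBP
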