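import Pool.Agent.PBP.FinVol

/-!
The exploration: the sites which would be occupied at time `t` if they were open.
-/

open Finset

namespace Pool.Agent.PBP

open F368

variable {d : ℕ}

open Classical in
/-- the exploration rule: reveal an unrevealed site which is occupied at time `t` as soon as it
is open, given the known open sites `O` -/
noncomputable def nxt (r t : ℕ) (F S O W : Finset (Site d)) : Option (Site d) :=
  if h : ∃ i, i ∈ F \ (O ∪ W) ∧ i ∈ Occ r (cfg S (insert i O)) t then some h.choose else none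

theorem nxt_some {r t : ℕ} {F S O W : Finset (Site d)} {i : Site d}
    (h : nxt r t F S O W = some i) :
    i ∈ F \ (O ∪ W) ∧ i ∈ Occ r (cfg S (insert i O)) t := by
  unfold nxt at h
  split_ifs at h with h'
  · have e : h'.choose = i := Option.some.inj h
    have := h'.choose_spec
    rwa [e] at this

theorem nxt_none {r t : ℕ} {F S O W : Finset (Site d)}
    (h : nxt r t F S O W = none) (i : Site d) (hi : i ∈ F \ (O ∪ W)) :
    i ∉ Occ r (cfg S (insert i O)) t := by
  unfold nxt at h
  split_ifs at h with h'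
  exact fun hh => h' ⟨i, hi, hh⟩

theorem det_aux {r t : ℕ} {F S O W s : Finset (Site d)}
    (h : ∀ i ∈ F \ (O ∪ W), i ∉ Occ r (cfg S (insert i O)) t) (hs : s ⊆ F \ (O ∪ W)) :
    ∀ t' ≤ t, Occ r (cfg S (s ∪ O)) t' ⊆ Occ r (cfg S O) t'
  | 0, _ => by
    intro v hv
    have hv' : v ∈ s ∪ O ∧ v ∈ S := cfg_eq_occ.1 hv
    rcases Finset.mem_union.1 hv'.1 with h1 | h1
    · exfalso
      refine h v (hs h1) (Occ_mono_time (Nat.zero_le t) ?_)
      exact cfg_eq_occ.2 ⟨Finset.mem_insert_self _ _, hv'.2⟩
    · exact cfg_eq_occ.2 ⟨h1, hv'.2⟩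
  | t' + 1, ht => by
    have ih := det_aux h hs t' (Nat.le_of_succ_le ht)
    rintro v (hv | ⟨hv, hc⟩)
    · exact Or.inl (ih hv)
    · have hc' : r ≤ {u | Nb u v ∧ u ∈ Occ r (cfg S O) t'}.ncard :=
        hc.trans (Set.ncard_le_ncard (fun u hu => ⟨hu.1, ih hu.2⟩) (nbA_finite v _))
      rcases Finset.mem_union.1 (cfg_ne_closed.1 hv) with h1 | h1
      · exfalso
        refine h v (hs h1) (Occ_mono_time ht ?_)
        refine Or.inr ⟨cfg_ne_closed.2 (Finset.mem_insert_self _ _), hc'.trans ?_⟩
        exact Set.ncard_le_ncard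
          (fun u hu => ⟨hu.1, Occ_cfg_mono subset_rfl (Finset.subset_insert v O) hu.2⟩)
          (nbA_finite v _)
      · exact Or.inr ⟨cfg_ne_closed.2 h1, hc'⟩

/-- the decision tree -/
noncomputable def tree (r t : ℕ) (F S : Finset (Site d)) : DT (Site d) :=
  DT.build (nxt r t F S) F.card ∅ ∅

theorem tree_valid (r t : ℕ) (F S : Finset (Site d)) : (tree r t F S).Valid F := by
  have := DT.build_valid (next := nxt r t F S) (F := F) (fun O W i h => (nxt_some h).1)
    F.card ∅ ∅
  unfold tree
  simpa using this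

theorem tree_det (r t : ℕ) (F S : Finset (Site d)) (v : Site d) :
    (tree r t F S).Det F (fun T => 2 * ind r t v S T - 1) := by
  have := DT.build_det (next := nxt r t F S) (F := F) (fun O W i h => (nxt_some h).1)
    (f := fun T => 2 * ind r t v S T - 1)
    (fun O W hO hW hOW hn s hs => by
      have e : ind r t v S (s ∪ O) = ind r t v S O := by
        refine le_antisymm (ind_le_ind fun h => ?_) (ind_mono subset_rfl
          Finset.subset_union_right)
        exact det_aux (nxt_none hn) hs t le_rfl h
      simp only [e])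
    F.card ∅ ∅ (Finset.empty_subset _) (Finset.empty_subset _) (Finset.disjoint_empty_left _)
    (by simp)
  unfold tree
  simpa using this

theorem tree_queried {r t : ℕ} {F S s : Finset (Site d)} (hs : s ⊆ F) {j : Site d}
    (hj : j ∈ (tree r t F S).queried s) : j ∈ Occ r (cfg S (insert j s)) t := by
  obtain ⟨O', W', h1, _, _, h4⟩ := DT.build_queried (next := nxt r t F S) (F := F)
    (fun O W i h => (nxt_some h).1) F.card ∅ ∅ s (Finset.empty_subset _)
    (Finset.empty_subset _) (Finset.disjoint_empty_left _) (by simpa using hs) hj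
  rw [Finset.union_empty] at h1
  exact Occ_cfg_mono subset_rfl (Finset.insert_subset_insert j h1) (nxt_some h4).2

theorem ind_eq_zero_of_notMem {r t : ℕ} {v : Site d} {S T : Finset (Site d)} (h : v ∉ T) :
    ind r t v S T = 0 := by
  unfold ind
  rw [if_neg]
  exact fun hh => h (cfg_ne_closed.1 (Occ_open hh))

theorem reveal_le {r t : ℕ} {F S : Finset (Site d)} {j : Site d} (hj : j ∈ F) {b : ℝ}
    (hb : 0 ≤ b) (hb' : b ≤ 1) :
    b * reveal F b (tree r t F S) j ≤ Ex F b (fun T => ind r t j S T) := by
  have h1 : reveal F b (tree r t F S) j ≤ Ex F b (fun T => ind r t j S (insert j T)) := by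
    unfold reveal
    refine Ex_mono hb hb' fun s hs => ?_
    split_ifs with h
    · unfold ind
      rw [if_pos (tree_queried hs h)]
    · exact ind_nonneg _ _ _ _ _
  have h2 : Ex F b (fun T => ind r t j S (insert j T)) =
      Ex (F.erase j) b (fun T => ind r t j S (insert j T)) := by
    rw [Ex_erase hj]
    simp only [Finset.insert_idem]
    ring
  have h3 : Ex F b (fun T => ind r t j S T) =
      b * Ex (F.erase j) b (fun T => ind r t j S (insert j T)) := by
    rw [Ex_erase hj]
    have : Ex (F.erase j) b (fun T => ind r t j S T) = 0 := by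
      rw [← Ex_const (F.erase j) b 0]
      refine Ex_congr fun s hs => ind_eq_zero_of_notMem fun h => ?_
      exact Finset.notMem_erase j F (hs h)
    rw [this]; ring
  rw [h3, ← h2]
  exact mul_le_mul_of_nonneg_left h1 hb

/-- the averaged revealments -/
theorem avg_reveal_le {r t : ℕ} {F : Finset (Site d)} {j : Site d} (hj : j ∈ F) {a b : ℝ}
    (ha : 0 ≤ a) (ha' : a ≤ 1) (hb : 0 ≤ b) (hb' : b ≤ 1) :
    b * Ex F a (fun S => reveal F b (tree r t F S) j) ≤ Psi r d t a b := by
  refine le_trans ?_ (PF_le_Psi r t F j ha ha' hb hb')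
  rw [← Ex_smul]
  exact Ex_mono ha ha' fun S _ => reveal_le hj hb hb'

end Pool.Agent.PBP
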